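import Mathlib

/-!
Project H903-RN: negative answer to Rudin's question on totally null exceptional sets
(MP_9f272e_an, frozen S05584).  Definitions and task statements.
-/

set_option autoImplicit false

open Metric MeasureTheory Filter Topology

namespace Pool.Agent.H903RN

abbrev E := EuclideanSpace ℂ (Fin 3)

/-- first basis vector -/
noncomputable def e0 : E := EuclideanSpace.single 0 1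

/-- `e^{iθ}` -/
noncomputable def ex (θ : ℝ) : ℂ := Complex.exp (θ * Complex.I)

/-- the analytic disc `ζ ↦ (3/5) ζ e0 + (4/5) Φ(ζ)` -/
noncomputable def disc (Φ : ℂ → E) (ζ : ℂ) : E :=
  ((3/5 : ℂ) * ζ) • e0 + (4/5 : ℂ) • Φ ζ

/-- angular speed of the boundary curve -/
noncomputable def ell (Φ : ℂ → E) (ζ : ℂ) : ℝ :=
  9/25 + 16/25 * (inner ℂ (Φ ζ) (ζ • deriv Φ ζ)).re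

/-- transversality with margins -/
def Lam (Φ : ℂ → E) (l κ : ℝ) : Prop :=
  0 < l ∧ 0 < κ ∧ ∀ ζ : ℂ, ‖ζ‖ = 1 → l + κ ≤ ell Φ ζ ∧ ell Φ ζ ≤ 2 * l - κ

structure Good (Φ Ψ : ℂ → E) : Prop where
  dΦ : Differentiable ℂ Φ
  dΨ : Differentiable ℂ Ψ
  nΦ : ∀ ζ : ℂ, ‖ζ‖ = 1 → ‖Φ ζ‖ = 1
  nΨ : ∀ ζ : ℂ, ‖ζ‖ = 1 → ‖Ψ ζ‖ = 1
  orth : ∀ ζ : ℂ, ‖ζ‖ = 1 → inner ℂ (Φ ζ) (Ψ ζ) = 0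
  eΦ : ∀ ζ : ℂ, inner ℂ e0 (Φ ζ) = 0
  eΨ : ∀ ζ : ℂ, inner ℂ e0 (Ψ ζ) = 0
  zero : Φ 0 = 0
  lam : ∃ l κ : ℝ, Lam Φ l κ

def GoodDisc (φ : ℂ → E) : Prop := ∃ Φ Ψ : ℂ → E, Good Φ Ψ ∧ φ = disc Φ

/-- the new pair -/
noncomputable def newΦ (t : ℝ) (n : ℕ) (Φ Ψ : ℂ → E) (ζ : ℂ) : E :=
  ((Real.sqrt (1 - t^2) : ℝ) : ℂ) • Φ ζ + ((t : ℂ) * ζ^n) • Ψ ζ

noncomputable def newΨ (t : ℝ) (n : ℕ) (Φ Ψ : ℂ → E) (ζ : ℂ) : E :=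
  (-(t : ℂ)) • Φ ζ + (((Real.sqrt (1 - t^2) : ℝ) : ℂ) * ζ^n) • Ψ ζ

/-- the point of the new curve at angle `θ` -/
noncomputable def eta (Φ Ψ : ℂ → E) (t : ℝ) (n : ℕ) (θ : ℝ) : E := disc (newΦ t n Φ Ψ) (ex θ)

/-- the scale `t`, `t^2 = l / n` -/
noncomputable def tt (l : ℝ) (n : ℕ) : ℝ := Real.sqrt (l / n)

/-- `ρ = 9/25 + 16/25 √(1-t²)` -/
noncomputable def rr (t : ℝ) : ℝ := 9/25 + 16/25 * Real.sqrt (1 - t^2)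

/-- the exponent `⌊n / ell⌋` of the window at angle `θ` -/
noncomputable def MM (Φ : ℂ → E) (n : ℕ) (θ : ℝ) : ℕ := ⌊(n : ℝ) / ell Φ (ex θ)⌋₊

/-- `Q = |1 + (1 - ⟨u,z⟩)/t²|` -/
noncomputable def Q (Φ : ℂ → E) (t : ℝ) (θ : ℝ) (z : E) : ℝ :=
  ‖1 + (1 - inner ℂ (disc Φ (ex θ)) z) / (t : ℂ)^2‖

/-- the window function at angle `θ` -/
noncomputable def G (Φ Ψ : ℂ → E) (t : ℝ) (n : ℕ) (θ : ℝ) (z : E) : ℂ :=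
  ((1 + (1 - inner ℂ (disc Φ (ex θ)) z) / (t : ℂ)^2)⁻¹)^4 *
    ((rr t : ℂ)^(MM Φ n θ) * (inner ℂ (Ψ (ex θ)) z / (t : ℂ))
      - (4/5 : ℂ) * (ex θ)^n * (inner ℂ (disc Φ (ex θ)) z)^(MM Φ n θ))

/-- window positions -/
noncomputable def th (K m a k : ℕ) : ℝ := ((a + 2 * K * k : ℕ) : ℝ) / ((2 * K * m : ℕ) : ℝ)

/-! ### Tasks: the curves -/

/-- T1. the new pair is good for small `t`. -/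
def TaskNewGood : Prop := ∀ Φ Ψ : ℂ → E, Good Φ Ψ → ∃ t0 > 0, ∀ t : ℝ, 0 < t → t < t0 →
  ∀ n : ℕ, 1 ≤ n → Good (newΦ t n Φ Ψ) (newΨ t n Φ Ψ)

/-- T2. properties of the disc, closeness, existence of a first pair. -/
def TaskDisc : Prop :=
  (∀ Φ Ψ : ℂ → E, Good Φ Ψ →
    Differentiable ℂ (disc Φ) ∧ (∀ ζ : ℂ, ‖ζ‖ = 1 → ‖disc Φ ζ‖ = 1) ∧
    (∀ ζ : ℂ, ‖ζ‖ ≤ 1 → ‖disc Φ ζ‖^2 ≤ 9/25 * ‖ζ‖^2 + 16/25) ∧ disc Φ 0 = 0) ∧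
  (∀ Φ Ψ : ℂ → E, Good Φ Ψ → ∀ t : ℝ, 0 < t → t < 1 → ∀ n : ℕ, ∀ ζ : ℂ, ‖ζ‖ ≤ 1 →
    ‖disc (newΦ t n Φ Ψ) ζ - disc Φ ζ‖ ≤ 2 * t) ∧
  (∃ Φ Ψ : ℂ → E, Good Φ Ψ)

/-- T3. first order expansions along the curve. -/
def TaskTaylor : Prop := ∀ Φ Ψ : ℂ → E, Good Φ Ψ → ∃ C : ℝ, 1 ≤ C ∧ ∀ θ' θ : ℝ,
  ‖inner ℂ (disc Φ (ex θ')) (disc Φ (ex θ))
      - (1 + Complex.I * (ell Φ (ex θ') : ℂ) * ((θ - θ' : ℝ) : ℂ))‖ ≤ C * |θ - θ'|^2 ∧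
  ‖inner ℂ (Ψ (ex θ')) (Φ (ex θ))‖ ≤ C * |θ - θ'| ∧
  ‖inner ℂ (Φ (ex θ')) (Ψ (ex θ))‖ ≤ C * |θ - θ'| ∧
  ‖inner ℂ (Ψ (ex θ')) (Ψ (ex θ)) - 1‖ ≤ C * |θ - θ'| ∧
  ‖inner ℂ (Φ (ex θ')) (Φ (ex θ)) - 1‖ ≤ C * |θ - θ'|

/-- T4. injectivity and transversality. -/
def TaskInj : Prop := ∀ Φ Ψ : ℂ → E, Good Φ Ψ → ∃ C : ℝ, 1 ≤ C ∧
  ∀ θ' ∈ Set.Icc (0:ℝ) 1, ∀ θ ∈ Set.Icc (-3:ℝ) 4,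
    |θ - θ'| ≤ C * ‖1 - inner ℂ (disc Φ (ex θ')) (disc Φ (ex θ))‖

/-! ### Tasks: geometry of the ball and window functions -/

/-- T5. -/
def TaskGeom : Prop :=
  (∀ a b z : E, ‖a‖ = 1 → ‖b‖ = 1 → ‖z‖ ≤ 1 →
    ‖1 - inner ℂ a b‖ ≤ 3 * (‖1 - inner ℂ a z‖ + ‖1 - inner ℂ b z‖)) ∧
  (∀ a z : E, ‖a‖ = 1 → ‖z‖ ≤ 1 → ‖z - a‖^2 ≤ 2 * ‖1 - inner ℂ a z‖) ∧
  (∀ Φ Ψ : ℂ → E, Good Φ Ψ → ∀ t : ℝ, 0 < t → t < 1 → ∀ (n : ℕ) (θ : ℝ) (z : E), ‖z‖ ≤ 1 →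
    1 ≤ Q Φ t θ z ∧ ‖1 - inner ℂ (disc Φ (ex θ)) z‖ / t^2 ≤ Q Φ t θ z ∧
    ‖G Φ Ψ t n θ z‖ ≤ 3 / (Q Φ t θ z)^3) ∧
  (∀ Φ Ψ : ℂ → E, Good Φ Ψ → ∀ t : ℝ, 0 < t → t < 1 → ∀ (n : ℕ) (θ : ℝ),
    ContinuousOn (G Φ Ψ t n θ) (closedBall 0 1) ∧
    DifferentiableOn ℂ (G Φ Ψ t n θ) (ball 0 1))

/-- T6. the sum over the windows. -/
def TaskSum : Prop := ∀ Φ Ψ : ℂ → E, Good Φ Ψ → ∀ l κ : ℝ, Lam Φ l κ → ∀ K : ℕ, 1 ≤ K →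
  ∃ m0 : ℕ, ∀ m : ℕ, m0 ≤ m → ∀ a : ℕ, a < 2 * K → ∀ k0 : ℕ, k0 < m → ∀ q : ℕ → ℝ,
    (∀ k < m, 1 ≤ q k) →
    (∀ k < m, ((K * m : ℕ) : ℝ) / l *
      ‖1 - inner ℂ (disc Φ (ex (th K m a k0))) (disc Φ (ex (th K m a k)))‖ ≤ 15 * q k) →
    ∑ k ∈ (Finset.range m).erase k0, 1 / (q k)^2 ≤ 4000 / (K : ℝ)^2

/-- T7. the core expansion of the window function on the new curve. -/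
def TaskCore : Prop := ∀ Φ Ψ : ℂ → E, Good Φ Ψ → ∀ l κ : ℝ, Lam Φ l κ → ∃ C : ℝ, 1 ≤ C ∧
  ∃ n0 : ℕ, ∀ n : ℕ, n0 ≤ n → ∀ θ' θ : ℝ,
    ‖inner ℂ (disc Φ (ex θ')) (eta Φ Ψ (tt l n) n θ)
      - (rr (tt l n) : ℂ) * Complex.exp (Complex.I * (ell Φ (ex θ') : ℂ) * ((θ - θ' : ℝ) : ℂ))‖
        ≤ C * (|θ - θ'|^2 + tt l n * |θ - θ'|) ∧
    ‖(rr (tt l n) : ℂ)^(MM Φ n θ') * (inner ℂ (Ψ (ex θ')) (eta Φ Ψ (tt l n) n θ) / (tt l n : ℂ))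
      - (4/5 : ℂ) * (ex θ')^n *
        (inner ℂ (disc Φ (ex θ')) (eta Φ Ψ (tt l n) n θ))^(MM Φ n θ')‖
        ≤ C * (|θ - θ'| / tt l n + |θ - θ'|^2 / (tt l n)^2)

/-- T8. the window functions are small on the new curve. -/
def TaskOffset : Prop := ∀ Φ Ψ : ℂ → E, Good Φ Ψ → ∀ l κ : ℝ, Lam Φ l κ → ∃ C : ℝ, 0 < C ∧
  ∃ n0 : ℕ, ∀ n : ℕ, n0 ≤ n → ∀ θ' ∈ Set.Icc (0:ℝ) 1, ∀ θ ∈ Set.Icc (-3:ℝ) 4,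
    ‖G Φ Ψ (tt l n) n θ' (eta Φ Ψ (tt l n) n θ)‖
      ≤ C * tt l n / (Q Φ (tt l n) θ' (eta Φ Ψ (tt l n) n θ))^2

/-- T9. the window function is big at radius `1 - 2 t²`. -/
def TaskLower : Prop := ∀ Φ Ψ : ℂ → E, Good Φ Ψ → ∀ l κ : ℝ, Lam Φ l κ →
  ∃ n0 : ℕ, ∀ n : ℕ, n0 ≤ n → ∀ θ' θ : ℝ, |θ - θ'| ≤ 1 / (2 * n) →
    1 / 8000 ≤ ‖G Φ Ψ (tt l n) n θ' (((1 - 2 * (tt l n)^2 : ℝ) : ℂ) • eta Φ Ψ (tt l n) n θ)‖ ∧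
    ‖1 - inner ℂ (disc Φ (ex θ')) (((1 - 2 * (tt l n)^2 : ℝ) : ℂ) • eta Φ Ψ (tt l n) n θ)‖
      / (tt l n)^2 ≤ 4

/-- the one-step lemma (assembled from T1-T9). -/
def OneStep : Prop := ∃ (K : ℕ) (C c : ℝ), 0 < C ∧ 0 < c ∧ ∀ φ : ℂ → E, GoodDisc φ →
  ∀ ρ > 0, ∀ δ > 0, ∃ φ' : ℂ → E, GoodDisc φ' ∧ (∀ ζ : ℂ, ‖ζ‖ ≤ 1 → ‖φ' ζ - φ ζ‖ ≤ δ) ∧
  ∃ (g : Fin K → E → ℂ) (R : ℝ), 1 - δ < R ∧ R < 1 ∧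
    (∀ a, ContinuousOn (g a) (closedBall 0 1) ∧ DifferentiableOn ℂ (g a) (ball 0 1) ∧
      (∀ z ∈ closedBall (0 : E) 1, ‖g a z‖ ≤ C) ∧
      (∀ z ∈ closedBall (0 : E) 1, (∀ ζ : ℂ, ‖ζ‖ = 1 → ρ ≤ ‖z - φ ζ‖) → ‖g a z‖ ≤ δ) ∧
      (∀ ζ : ℂ, ‖ζ‖ = 1 → ‖g a (φ' ζ)‖ ≤ δ)) ∧
    ∀ θ ∈ Set.Ico (0:ℝ) 1, ∃ a, c ≤ ‖g a ((R : ℂ) • φ' (ex θ))‖

def TaskOneStep : Prop :=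
  TaskNewGood → TaskDisc → TaskGeom → TaskSum → TaskOffset → TaskLower → OneStep

/-! ### Tasks: gluing -/

structure SeqData (K : ℕ) (C c : ℝ) (φ : ℕ → ℂ → E) (g : ℕ → Fin K → E → ℂ) (R ρ : ℕ → ℝ) :
    Prop where
  hC : 0 < C
  hc : 0 < c
  good : ∀ j, GoodDisc (φ j)
  ρpos : ∀ j, 0 < ρ j
  ρ0 : ρ 0 ≤ 1/2
  ρhalf : ∀ j, ρ (j+1) ≤ ρ j / 2
  close : ∀ j, ∀ ζ : ℂ, ‖ζ‖ ≤ 1 → ‖φ (j+1) ζ - φ j ζ‖ ≤ ρ j / 4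
  cont : ∀ j a, ContinuousOn (g j a) (closedBall 0 1)
  diff : ∀ j a, DifferentiableOn ℂ (g j a) (ball 0 1)
  bound : ∀ j a, ∀ z ∈ closedBall (0 : E) 1, ‖g j a z‖ ≤ C
  far : ∀ j a, ∀ z ∈ closedBall (0 : E) 1, (∀ ζ : ℂ, ‖ζ‖ = 1 → ρ j ≤ ‖z - φ j ζ‖) →
    ‖g j a z‖ ≤ (1/2)^j
  curve : ∀ j a, ∀ ζ : ℂ, ‖ζ‖ = 1 → ‖g j a (φ (j+1) ζ)‖ ≤ (1/2)^j
  unif : ∀ j a, ∀ z ∈ closedBall (0 : E) 1, ∀ w ∈ closedBall (0 : E) 1,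
    ‖z - w‖ ≤ 2 * ρ (j+1) → ‖g j a z - g j a w‖ ≤ (1/2)^j ∧ ‖g j a z - g j a w‖ ≤ c/2
  R1 : ∀ j, 1 - ρ j < R j
  R2 : ∀ j, R j ≤ 1 - ρ (j+1)
  bump : ∀ j, ∀ θ ∈ Set.Ico (0:ℝ) 1, ∃ a, c ≤ ‖g j a ((R j : ℂ) • φ (j+1) (ex θ))‖

/-- T11. the induction -/
def TaskSeq : Prop := OneStep → (∃ φ, GoodDisc φ) →
  ∃ (K : ℕ) (C c : ℝ) (φ : ℕ → ℂ → E) (g : ℕ → Fin K → E → ℂ) (R ρ : ℕ → ℝ),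
    SeqData K C c φ g R ρ

/-- T12. the limit disc -/
def TaskLimDisc : Prop := TaskDisc → ∀ (K : ℕ) (C c : ℝ) (φ : ℕ → ℂ → E)
  (g : ℕ → Fin K → E → ℂ) (R ρ : ℕ → ℝ), SeqData K C c φ g R ρ →
  ∃ φi : ℂ → E, ContinuousOn φi (closedBall 0 1) ∧ DifferentiableOn ℂ φi (ball 0 1) ∧
    (∀ ζ : ℂ, ‖ζ‖ = 1 → ‖φi ζ‖ = 1) ∧ (∀ ζ : ℂ, ‖ζ‖ < 1 → ‖φi ζ‖ < 1) ∧ φi 0 = 0 ∧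
    ∀ j, ∀ ζ : ℂ, ‖ζ‖ ≤ 1 → ‖φi ζ - φ j ζ‖ ≤ ρ j / 2

/-- T13. a disc with boundary in the sphere gives a representing measure -/
def TaskRep : Prop := ∀ φ : ℂ → E, ContinuousOn φ (closedBall 0 1) →
  DifferentiableOn ℂ φ (ball 0 1) → (∀ ζ : ℂ, ‖ζ‖ = 1 → ‖φ ζ‖ = 1) →
  (∀ ζ : ℂ, ‖ζ‖ < 1 → ‖φ ζ‖ < 1) → φ 0 = 0 →
  ∃ μ : Measure E, IsFiniteMeasure μ ∧ μ (sphere (0 : E) 1)ᶜ = 0 ∧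
    (∀ g : E → ℂ, ContinuousOn g (closedBall 0 1) → DifferentiableOn ℂ g (ball 0 1) →
      ∫ z, g z ∂μ = g 0) ∧
    ∀ S : Set E, μ S = 0 → volume {θ : ℝ | θ ∈ Set.Ioo (0:ℝ) 1 ∧ φ (ex θ) ∈ S} = 0

/-- T14. the sum function is holomorphic and bounded -/
def TaskHolSum : Prop := TaskDisc → ∀ (K : ℕ) (C c : ℝ) (φ : ℕ → ℂ → E)
  (g : ℕ → Fin K → E → ℂ) (R ρ : ℕ → ℝ), SeqData K C c φ g R ρ → ∀ a : Fin K,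
  DifferentiableOn ℂ (fun z => ∑' j, g j a z) (ball 0 1) ∧
  ∀ z ∈ ball (0 : E) 1, ‖∑' j, g j a z‖ ≤ C + 4

/-- T15. radial limits force the bumps to vanish -/
def TaskRadial : Prop := TaskDisc → ∀ (K : ℕ) (C c : ℝ) (φ : ℕ → ℂ → E)
  (g : ℕ → Fin K → E → ℂ) (R ρ : ℕ → ℝ), SeqData K C c φ g R ρ → ∀ φi : ℂ → E,
  (∀ ζ : ℂ, ‖ζ‖ = 1 → ‖φi ζ‖ = 1) →
  (∀ j, ∀ ζ : ℂ, ‖ζ‖ ≤ 1 → ‖φi ζ - φ j ζ‖ ≤ ρ j / 2) →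
  ∀ a : Fin K, ∀ ζ : ℂ, ‖ζ‖ = 1 →
  (∃ L : ℂ, Tendsto (fun r : ℝ => ∑' j, g j a ((r : ℂ) • φi ζ)) (𝓝[<] 1) (𝓝 L)) →
  Tendsto (fun j => g j a ((R j : ℂ) • φi ζ)) atTop (𝓝 0)

end Pool.Agent.H903RN
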