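import Mathlib
import Pool.Agent.H903RN.Stmts

/-!
Project H903-RN, task Core (helper620).
-/

set_option autoImplicit false
set_option maxHeartbeats 4000000

open Metric MeasureTheory Filter Topology

namespace Pool.Agent.H903RN

namespace CoreAux

lemma norm_ex (θ : ℝ) : ‖ex θ‖ = 1 := by
  unfold ex; exact Complex.norm_exp_ofReal_mul_I θ

lemma norm_exp_I (y : ℝ) : ‖Complex.exp (Complex.I * (y : ℂ))‖ = 1 := by
  rw [mul_comm]; exact Complex.norm_exp_ofReal_mul_I y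

lemma ex_pow (θ' θ : ℝ) (n : ℕ) :
    (ex θ)^n = (ex θ')^n * Complex.exp (Complex.I * (((n : ℝ) * (θ - θ') : ℝ) : ℂ)) := by
  unfold ex
  rw [← Complex.exp_nat_mul, ← Complex.exp_nat_mul, ← Complex.exp_add]
  congr 1
  push_cast
  ring

lemma exp_sub_one_le (y : ℝ) : ‖Complex.exp (Complex.I * (y : ℂ)) - 1‖ ≤ |y| := by
  have := Real.norm_exp_I_mul_ofReal_sub_one_le (x := y)
  simpa using this

lemma exp_sub_le (a b : ℝ) :
    ‖Complex.exp (Complex.I * (a : ℂ)) - Complex.exp (Complex.I * (b : ℂ))‖ ≤ |a - b| := by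
  have h : Complex.exp (Complex.I * (a : ℂ)) - Complex.exp (Complex.I * (b : ℂ))
      = Complex.exp (Complex.I * (b : ℂ)) * (Complex.exp (Complex.I * ((a - b : ℝ) : ℂ)) - 1) := by
    rw [mul_sub, ← Complex.exp_add, mul_one]
    congr 2
    push_cast
    ring
  rw [h, norm_mul, norm_exp_I, one_mul]
  exact exp_sub_one_le _

lemma exp_second (y : ℝ) :
    ‖(1 + Complex.I * (y : ℂ)) - Complex.exp (Complex.I * (y : ℂ))‖ ≤ 3 * y^2 := by
  have hn : ‖Complex.I * (y : ℂ)‖ = |y| := by simp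
  rcases le_or_gt |y| 1 with h | h
  · have := Complex.norm_exp_sub_one_sub_id_le (x := Complex.I * (y : ℂ)) (by rw [hn]; exact h)
    rw [hn, sq_abs] at this
    have e : ‖(1 + Complex.I * (y : ℂ)) - Complex.exp (Complex.I * (y : ℂ))‖
        = ‖Complex.exp (Complex.I * (y : ℂ)) - 1 - Complex.I * (y : ℂ)‖ := by
      rw [← norm_neg]; congr 1; ring
    rw [e]
    nlinarith [sq_nonneg y]
  · have h1 : ‖(1 + Complex.I * (y : ℂ)) - Complex.exp (Complex.I * (y : ℂ))‖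
        ≤ ‖Complex.I * (y : ℂ)‖ + ‖Complex.exp (Complex.I * (y : ℂ)) - 1‖ := by
      have e : (1 + Complex.I * (y : ℂ)) - Complex.exp (Complex.I * (y : ℂ))
        = Complex.I * (y : ℂ) - (Complex.exp (Complex.I * (y : ℂ)) - 1) := by ring
      rw [e]; exact norm_sub_le _ _
    have h2 := exp_sub_one_le y
    rw [hn] at h1
    have h3 : |y| * |y| = y^2 := by rw [← sq, sq_abs]
    nlinarith

lemma pow_sub_pow_le (a b : ℂ) (ha : ‖a‖ ≤ 1) (hb : ‖b‖ ≤ 1) (M : ℕ) :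
    ‖a^M - b^M‖ ≤ M * ‖a - b‖ := by
  induction M with
  | zero => simp
  | succ M ih =>
    have e : a^(M+1) - b^(M+1) = a * (a^M - b^M) + (a - b) * b^M := by ring
    rw [e]
    calc ‖a * (a^M - b^M) + (a - b) * b^M‖ ≤ ‖a * (a^M - b^M)‖ + ‖(a - b) * b^M‖ := norm_add_le _ _
      _ ≤ 1 * ‖a^M - b^M‖ + ‖a - b‖ * 1 := by
        rw [norm_mul, norm_mul, norm_pow]
        gcongr
        exact pow_le_one₀ (norm_nonneg _) hb
      _ ≤ ((M+1 : ℕ) : ℝ) * ‖a - b‖ := by push_cast; linarith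

section inner

variable {Φ Ψ : ℂ → E}

lemma inner_e0_e0 : inner ℂ e0 e0 = (1 : ℂ) := by
  unfold e0
  simp

lemma inner_Φ_e0 (h : Good Φ Ψ) (ζ : ℂ) : inner ℂ (Φ ζ) e0 = (0 : ℂ) := by
  rw [← inner_conj_symm, h.eΦ ζ]; simp

lemma inner_Ψ_e0 (h : Good Φ Ψ) (ζ : ℂ) : inner ℂ (Ψ ζ) e0 = (0 : ℂ) := by
  rw [← inner_conj_symm, h.eΨ ζ]; simp

lemma inner_disc_disc (h : Good Φ Ψ) (a b : ℂ) :
    inner ℂ (disc Φ a) (disc Φ b) =
      9/25 * (starRingEnd ℂ a * b) + 16/25 * inner ℂ (Φ a) (Φ b) := by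
  unfold disc
  simp only [inner_add_left, inner_add_right, inner_smul_left, inner_smul_right,
    inner_e0_e0, inner_Φ_e0 h, h.eΦ, map_mul, map_div₀, map_ofNat]
  ring

lemma inner_disc_eta (h : Good Φ Ψ) (t : ℝ) (n : ℕ) (a : ℂ) (b : ℂ) :
    inner ℂ (disc Φ a) (disc (newΦ t n Φ Ψ) b) =
      9/25 * (starRingEnd ℂ a * b) + 16/25 * inner ℂ (Φ a) (newΦ t n Φ Ψ b) := by
  have h0 : inner ℂ e0 (newΦ t n Φ Ψ b) = (0 : ℂ) := by
    unfold newΦ
    simp only [inner_add_right, inner_smul_right, h.eΦ, h.eΨ]; ring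
  unfold disc
  simp only [inner_add_left, inner_add_right, inner_smul_left, inner_smul_right,
    inner_e0_e0, inner_Φ_e0 h, h0, map_mul, map_div₀, map_ofNat]
  ring

lemma inner_Φ_new (t : ℝ) (n : ℕ) (a b : ℂ) :
    inner ℂ (Φ a) (newΦ t n Φ Ψ b) =
      ((Real.sqrt (1 - t^2) : ℝ) : ℂ) * inner ℂ (Φ a) (Φ b)
        + (t : ℂ) * b^n * inner ℂ (Φ a) (Ψ b) := by
  unfold newΦ
  simp only [inner_add_right, inner_smul_right]

lemma inner_Ψ_eta (h : Good Φ Ψ) (t : ℝ) (n : ℕ) (a b : ℂ) :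
    inner ℂ (Ψ a) (disc (newΦ t n Φ Ψ) b) =
      4/5 * (((Real.sqrt (1 - t^2) : ℝ) : ℂ) * inner ℂ (Ψ a) (Φ b)
        + (t : ℂ) * b^n * inner ℂ (Ψ a) (Ψ b)) := by
  unfold disc newΦ
  simp only [inner_add_right, inner_smul_right, inner_Ψ_e0 h]
  ring

lemma norm_new (h : Good Φ Ψ) (t : ℝ) (ht : t^2 ≤ 1) (n : ℕ) (b : ℂ) (hb : ‖b‖ = 1) :
    ‖newΦ t n Φ Ψ b‖ = 1 := by
  have h1 : ‖newΦ t n Φ Ψ b‖ * ‖newΦ t n Φ Ψ b‖ = 1 := by
    unfold newΦ
    rw [norm_add_sq_eq_norm_sq_add_norm_sq_of_inner_eq_zero (𝕜 := ℂ)]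
    · rw [norm_smul, norm_smul, h.nΦ b hb, h.nΨ b hb, norm_mul, norm_pow, hb,
        Complex.norm_real, Complex.norm_real, Real.norm_eq_abs, Real.norm_eq_abs]
      have := Real.mul_self_sqrt (show 0 ≤ 1 - t^2 by linarith)
      have h3 : |Real.sqrt (1 - t^2)| = Real.sqrt (1 - t^2) := abs_of_nonneg (Real.sqrt_nonneg _)
      rw [h3]
      have h4 : |t| * |t| = t^2 := by rw [← sq, sq_abs]
      simp only [one_pow, mul_one]
      linarith
    · simp only [inner_smul_left, inner_smul_right, h.orth b hb, mul_zero]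
  nlinarith [norm_nonneg (newΦ t n Φ Ψ b)]

lemma norm_inner_disc_eta_le (h : Good Φ Ψ) (t : ℝ) (ht : t^2 ≤ 1) (n : ℕ) (a b : ℂ)
    (ha : ‖a‖ = 1) (hb : ‖b‖ = 1) :
    ‖inner ℂ (disc Φ a) (disc (newΦ t n Φ Ψ) b)‖ ≤ 1 := by
  rw [inner_disc_eta h]
  have h1 : ‖(inner ℂ (Φ a) (newΦ t n Φ Ψ b) : ℂ)‖ ≤ 1 := by
    calc ‖(inner ℂ (Φ a) (newΦ t n Φ Ψ b) : ℂ)‖ ≤ ‖Φ a‖ * ‖newΦ t n Φ Ψ b‖ := norm_inner_le_norm _ _
      _ = 1 := by rw [h.nΦ a ha, norm_new h t ht n b hb, one_mul]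
  calc ‖9/25 * (starRingEnd ℂ a * b) + 16/25 * inner ℂ (Φ a) (newΦ t n Φ Ψ b)‖
      ≤ ‖9/25 * (starRingEnd ℂ a * b)‖ + ‖16/25 * inner ℂ (Φ a) (newΦ t n Φ Ψ b)‖ := norm_add_le _ _
    _ = 9/25 + 16/25 * ‖(inner ℂ (Φ a) (newΦ t n Φ Ψ b) : ℂ)‖ := by
      rw [norm_mul, norm_mul, norm_mul, RCLike.norm_conj, ha, hb]
      norm_num
    _ ≤ 1 := by linarith

end inner

end CoreAux

open CoreAux

theorem core : TaskTaylor → TaskCore := by
  intro hT Φ Ψ hg l κ hlam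
  obtain ⟨C0, hC0, hTay⟩ := hT Φ Ψ hg
  obtain ⟨hl, hκ, hell⟩ := hlam
  set C1 : ℝ := 2 * C0 + 12 * l^2 + 2 * l with hC1
  refine ⟨C1 + 2 * C0 + 2 * l + 1, by rw [hC1]; nlinarith [sq_nonneg l], ⌈4 * l⌉₊ + 1, ?_⟩
  intro n hn θ' θ
  have hn1 : (1 : ℝ) ≤ n := by
    have : 1 ≤ n := by omega
    exact_mod_cast this
  have hn4 : 4 * l ≤ n := by
    have h1 : 4 * l ≤ (⌈4 * l⌉₊ : ℝ) := Nat.le_ceil _
    have h2 : ((⌈4 * l⌉₊ + 1 : ℕ) : ℝ) ≤ n := by exact_mod_cast hn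
    push_cast at h2
    linarith
  have hn0 : (0 : ℝ) < n := by linarith
  -- facts on t
  have ht2 : (tt l n)^2 = l / n := by
    unfold tt; exact Real.sq_sqrt (by positivity)
  have ht0 : 0 < tt l n := by unfold tt; exact Real.sqrt_pos.mpr (by positivity)
  set t := tt l n with ht
  have ht4 : t^2 ≤ 1/4 := by
    rw [ht2, div_le_iff₀ hn0]; linarith
  have hthalf : t ≤ 1/2 := by nlinarith
  have htt : t^2 ≤ t := by nlinarith
  -- facts on c
  set c := Real.sqrt (1 - t^2) with hc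
  have hc0 : 0 ≤ c := Real.sqrt_nonneg _
  have hcc : c * c = 1 - t^2 := Real.mul_self_sqrt (by linarith)
  have hc1 : c ≤ 1 := by nlinarith [sq_nonneg t]
  have hct : 1 - c ≤ t^2 := by nlinarith
  -- facts on ell
  set ζ' := ex θ' with hζ'
  set ζ := ex θ with hζ
  have nζ' : ‖ζ'‖ = 1 := norm_ex _
  have nζ : ‖ζ‖ = 1 := norm_ex _
  obtain ⟨hL1, hL2⟩ := hell ζ' nζ'
  set L := ell Φ ζ' with hL
  have hLpos : 0 < L := by linarith
  have hLl : l ≤ L := by linarith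
  have hL2l : L ≤ 2 * l := by linarith
  obtain ⟨T1, T2, T3, T4, T5⟩ := hTay θ' θ
  rw [← hζ, ← hζ'] at T1 T2 T3 T4 T5
  rw [← hL] at T1
  set x := θ - θ' with hx
  have hx0 : 0 ≤ |x| := abs_nonneg x
  have hxx : |x|^2 = x^2 := sq_abs x
  -- the first estimate
  have key1 : ‖inner ℂ (disc Φ ζ') (eta Φ Ψ t n θ)
      - (rr t : ℂ) * Complex.exp (Complex.I * (L : ℂ) * (x : ℂ))‖
        ≤ C1 * (|x|^2 + t * |x|) := by
    have e1 : inner ℂ (disc Φ ζ') (eta Φ Ψ t n θ)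
      - (rr t : ℂ) * Complex.exp (Complex.I * (L : ℂ) * (x : ℂ))
      = (inner ℂ (disc Φ ζ') (disc Φ ζ) - (1 + Complex.I * (L : ℂ) * (x : ℂ)))
        + ((1 + Complex.I * ((L * x : ℝ) : ℂ)) - Complex.exp (Complex.I * ((L * x : ℝ) : ℂ)))
        + (-(16/25 * ((1 - c : ℝ) : ℂ)) * (inner ℂ (Φ ζ') (Φ ζ) - 1))
        + (16/25 * ((1 - c : ℝ) : ℂ)) * (Complex.exp (Complex.I * ((L * x : ℝ) : ℂ)) - 1)
        + 16/25 * ((t : ℂ) * ζ^n * inner ℂ (Φ ζ') (Ψ ζ)) := by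
      have e2 : Complex.I * (L : ℂ) * (x : ℂ) = Complex.I * ((L * x : ℝ) : ℂ) := by
        push_cast; ring
      unfold eta
      rw [← hζ, inner_disc_eta hg, inner_Φ_new, inner_disc_disc hg, e2, ← hc]
      unfold rr
      rw [← hc]
      push_cast
      ring
    have b2 := exp_second (L * x)
    have b4 := exp_sub_one_le (L * x)
    have hLx : |L * x| ≤ 2 * l * |x| := by
      rw [abs_mul, abs_of_pos hLpos]
      exact mul_le_mul_of_nonneg_right hL2l hx0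
    have hLx2 : (L * x)^2 ≤ 4 * l^2 * |x|^2 := by
      rw [← sq_abs (L * x)]
      have : |L * x|^2 ≤ (2 * l * |x|)^2 := by
        exact pow_le_pow_left₀ (abs_nonneg _) hLx 2
      linarith [this, show (2 * l * |x|)^2 = 4 * l^2 * |x|^2 by ring]
    have n1c : ‖((1 - c : ℝ) : ℂ)‖ = 1 - c := by
      rw [Complex.norm_real, Real.norm_eq_abs, abs_of_nonneg (by linarith)]
    have n16 : ‖(16/25 : ℂ)‖ = 16/25 := by norm_num
    have b3 : ‖-(16/25 * ((1 - c : ℝ) : ℂ)) * (inner ℂ (Φ ζ') (Φ ζ) - 1)‖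
        ≤ t^2 * (C0 * |x|) := by
      rw [norm_mul, norm_neg, norm_mul, n1c, n16]
      have : 16/25 * (1 - c) ≤ t^2 := by linarith
      exact mul_le_mul this T5 (norm_nonneg _) (by positivity)
    have b4' : ‖(16/25 * ((1 - c : ℝ) : ℂ)) * (Complex.exp (Complex.I * ((L * x : ℝ) : ℂ)) - 1)‖
        ≤ t^2 * (2 * l * |x|) := by
      rw [norm_mul, norm_mul, n1c, n16]
      have : 16/25 * (1 - c) ≤ t^2 := by linarith
      exact mul_le_mul this (b4.trans hLx) (norm_nonneg _) (by positivity)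
    have b5 : ‖16/25 * ((t : ℂ) * ζ^n * inner ℂ (Φ ζ') (Ψ ζ))‖ ≤ t * (C0 * |x|) := by
      rw [norm_mul, norm_mul, norm_mul, n16, norm_pow, nζ, one_pow, mul_one, Complex.norm_real,
        Real.norm_eq_abs, abs_of_pos ht0]
      have : t * ‖(inner ℂ (Φ ζ') (Ψ ζ) : ℂ)‖ ≤ t * (C0 * |x|) :=
        mul_le_mul_of_nonneg_left T3 ht0.le
      have h0 : 0 ≤ t * ‖(inner ℂ (Φ ζ') (Ψ ζ) : ℂ)‖ := by positivity
      linarith
    rw [e1]
    have tri : ∀ a b c d e : ℂ, ‖a + b + c + d + e‖ ≤ ‖a‖ + ‖b‖ + ‖c‖ + ‖d‖ + ‖e‖ := by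
      intro a b c d e
      have h1 := norm_add_le (a + b + c + d) e
      have h2 := norm_add_le (a + b + c) d
      have h3 := norm_add_le (a + b) c
      have h4 := norm_add_le a b
      linarith
    refine (tri _ _ _ _ _).trans ?_
    have hCx : 0 ≤ C0 * |x| := by positivity
    have hlx : 0 ≤ l * |x| := by positivity
    have s3 : t^2 * (C0 * |x|) ≤ t * (C0 * |x|) :=
      mul_le_mul_of_nonneg_right htt hCx
    have s4 : t^2 * (2 * l * |x|) ≤ t * (2 * l * |x|) :=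
      mul_le_mul_of_nonneg_right htt (by positivity)
    have hpos : 0 ≤ C0 * |x|^2 + 2 * l * |x|^2 + 12 * l^2 * (t * |x|) := by positivity
    have : C1 * (|x|^2 + t * |x|) = (C0 * |x|^2 + 12 * l^2 * |x|^2 + (2 * C0 + 2 * l) * (t * |x|))
        + (C0 * |x|^2 + 2 * l * |x|^2 + 12 * l^2 * (t * |x|)) := by
      rw [hC1]; ring
    rw [this]
    have s5 : (2 * C0 + 2 * l) * (t * |x|) = t * (C0 * |x|) + t * (2 * l * |x|) + t * (C0 * |x|) := by
      ring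
    rw [s5]
    linarith
  constructor
  · refine key1.trans ?_
    apply mul_le_mul_of_nonneg_right _ (by positivity)
    linarith
  · -- the second estimate
    set M := MM Φ n θ' with hM
    have hMfl : M = ⌊(n : ℝ) / L⌋₊ := by rw [hM]; unfold MM; rw [hL]
    have hM1 : (M : ℝ) ≤ n / L := by
      rw [hMfl]; exact Nat.floor_le (by positivity)
    have hM2 : (n : ℝ) / L < M + 1 := by
      rw [hMfl]; exact Nat.lt_floor_add_one _
    have hML1 : (M : ℝ) * L ≤ n := by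
      rwa [le_div_iff₀ hLpos] at hM1
    have hML2 : (n : ℝ) < M * L + L := by
      rw [div_lt_iff₀ hLpos] at hM2; linarith
    have hMt : (M : ℝ) * t^2 ≤ 1 := by
      rw [ht2]
      have : (M : ℝ) * l ≤ n := by
        have : (M : ℝ) * l ≤ M * L := mul_le_mul_of_nonneg_left hLl (Nat.cast_nonneg _)
        linarith
      rw [← mul_div_assoc, div_le_one hn0]; exact this
    -- rr
    have hr0 : 0 ≤ rr t := by unfold rr; rw [← hc]; positivity
    have hr1 : rr t ≤ 1 := by unfold rr; rw [← hc]; linarith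
    set r := rr t with hr
    have nr : ‖(r : ℂ)‖ ≤ 1 := by
      rw [Complex.norm_real, Real.norm_eq_abs, abs_of_nonneg hr0]; exact hr1
    set w : ℂ := inner ℂ (disc Φ ζ') (eta Φ Ψ t n θ) with hw
    have nw : ‖w‖ ≤ 1 := by
      rw [hw]; unfold eta; rw [← hζ]
      exact norm_inner_disc_eta_le hg t (by linarith) n ζ' ζ nζ' nζ
    have hE : Complex.exp (Complex.I * (L : ℂ) * (x : ℂ)) = Complex.exp (Complex.I * ((L * x : ℝ) : ℂ)) := by
      congr 1; push_cast; ring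
    have nz : ‖(r : ℂ) * Complex.exp (Complex.I * (L : ℂ) * (x : ℂ))‖ ≤ 1 := by
      rw [norm_mul, hE, norm_exp_I, mul_one]; exact nr
    have nt : (t : ℂ) ≠ 0 := by exact_mod_cast ht0.ne'
    have e1 : (r : ℂ)^M * (inner ℂ (Ψ ζ') (eta Φ Ψ t n θ) / (t : ℂ)) - (4/5 : ℂ) * ζ'^n * w^M
        = (r : ℂ)^M * (4/5 * (c : ℂ) * (inner ℂ (Ψ ζ') (Φ ζ) / (t : ℂ)))
          + (r : ℂ)^M * (4/5 * ζ^n * (inner ℂ (Ψ ζ') (Ψ ζ) - 1))
          + 4/5 * ζ'^n * ((r : ℂ)^M * (Complex.exp (Complex.I * (((n : ℝ) * x : ℝ) : ℂ))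
              - Complex.exp (Complex.I * (((M : ℝ) * (L * x) : ℝ) : ℂ))))
          + 4/5 * ζ'^n * (((r : ℂ) * Complex.exp (Complex.I * (L : ℂ) * (x : ℂ)))^M - w^M) := by
      have e3 : ζ^n = ζ'^n * Complex.exp (Complex.I * (((n : ℝ) * x : ℝ) : ℂ)) := by
        rw [hζ, hζ', hx]; exact ex_pow θ' θ n
      have e4 : (Complex.exp (Complex.I * (L : ℂ) * (x : ℂ)))^M
          = Complex.exp (Complex.I * (((M : ℝ) * (L * x) : ℝ) : ℂ)) := by
        rw [← Complex.exp_nat_mul]; congr 1; push_cast; ring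
      rw [mul_pow, e4]
      unfold eta
      rw [← hζ, inner_Ψ_eta hg, ← hc]
      have e5 : (4/5 * ((c : ℂ) * inner ℂ (Ψ ζ') (Φ ζ) + (t : ℂ) * ζ^n * inner ℂ (Ψ ζ') (Ψ ζ))) / (t : ℂ)
          = 4/5 * (c : ℂ) * (inner ℂ (Ψ ζ') (Φ ζ) / (t : ℂ)) + 4/5 * ζ^n * inner ℂ (Ψ ζ') (Ψ ζ) := by
        field_simp
      rw [e5]
      have e6 : 4/5 * ζ^n * (inner ℂ (Ψ ζ') (Ψ ζ) : ℂ) = 4/5 * ζ^n * (inner ℂ (Ψ ζ') (Ψ ζ) - 1) + 4/5 * ζ^n := by
        ring
      rw [e6]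
      generalize hS : 4/5 * ζ^n * ((inner ℂ (Ψ ζ') (Ψ ζ) : ℂ) - 1) = S
      rw [e3]
      ring
    have n45 : ‖(4/5 : ℂ)‖ = 4/5 := by norm_num
    have nrM : ‖(r : ℂ)^M‖ ≤ 1 := by rw [norm_pow]; exact pow_le_one₀ (norm_nonneg _) nr
    have nc : ‖(c : ℂ)‖ ≤ 1 := by
      rw [Complex.norm_real, Real.norm_eq_abs, abs_of_nonneg hc0]; exact hc1
    have hxt : |x| ≤ |x| / t := by
      rw [le_div_iff₀ ht0]
      exact mul_le_of_le_one_right hx0 (by linarith)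
    have hxt0 : 0 ≤ |x| / t := by positivity
    have b1 : ‖(r : ℂ)^M * (4/5 * (c : ℂ) * (inner ℂ (Ψ ζ') (Φ ζ) / (t : ℂ)))‖ ≤ C0 * (|x| / t) := by
      have h1 : ‖(inner ℂ (Ψ ζ') (Φ ζ) / (t : ℂ) : ℂ)‖ ≤ C0 * (|x| / t) := by
        rw [norm_div, Complex.norm_real, Real.norm_eq_abs, abs_of_pos ht0, ← mul_div_assoc]
        exact div_le_div_of_nonneg_right T2 ht0.le
      rw [norm_mul, norm_mul, norm_mul, n45]
      have h2 : 4/5 * ‖(c : ℂ)‖ ≤ 1 := by linarith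
      have h3 : 4/5 * ‖(c : ℂ)‖ * ‖(inner ℂ (Ψ ζ') (Φ ζ) / (t : ℂ) : ℂ)‖ ≤ 1 * (C0 * (|x| / t)) :=
        mul_le_mul h2 h1 (norm_nonneg _) zero_le_one
      calc _ ≤ 1 * (1 * (C0 * (|x| / t))) := mul_le_mul nrM h3 (by positivity) zero_le_one
        _ = C0 * (|x| / t) := by ring
    have b2 : ‖(r : ℂ)^M * (4/5 * ζ^n * (inner ℂ (Ψ ζ') (Ψ ζ) - 1))‖ ≤ C0 * (|x| / t) := by
      rw [norm_mul, norm_mul, norm_mul, n45, norm_pow ζ, nζ, one_pow, mul_one]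
      have h1 : ‖(inner ℂ (Ψ ζ') (Ψ ζ) - 1 : ℂ)‖ ≤ C0 * (|x| / t) :=
        T4.trans (mul_le_mul_of_nonneg_left hxt (by linarith))
      have h3 : 4/5 * ‖(inner ℂ (Ψ ζ') (Ψ ζ) - 1 : ℂ)‖ ≤ 1 * (C0 * (|x| / t)) :=
        mul_le_mul (by norm_num) h1 (norm_nonneg _) zero_le_one
      calc _ ≤ 1 * (1 * (C0 * (|x| / t))) := mul_le_mul nrM h3 (by positivity) zero_le_one
        _ = C0 * (|x| / t) := by ring
    have nζn : ‖(4/5 : ℂ) * ζ'^n‖ ≤ 1 := by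
      rw [norm_mul, n45, norm_pow, nζ', one_pow]; norm_num
    have b3 : ‖4/5 * ζ'^n * ((r : ℂ)^M * (Complex.exp (Complex.I * (((n : ℝ) * x : ℝ) : ℂ))
              - Complex.exp (Complex.I * (((M : ℝ) * (L * x) : ℝ) : ℂ))))‖ ≤ 2 * l * (|x| / t) := by
      have h1 := exp_sub_le ((n : ℝ) * x) ((M : ℝ) * (L * x))
      have h2 : |(n : ℝ) * x - (M : ℝ) * (L * x)| ≤ 2 * l * (|x| / t) := by
        have : (n : ℝ) * x - (M : ℝ) * (L * x) = (n - M * L) * x := by ring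
        rw [this, abs_mul]
        have h4 : |(n : ℝ) - M * L| ≤ 2 * l := by
          rw [abs_of_nonneg (by linarith)]; linarith
        exact mul_le_mul h4 hxt hx0 (by positivity)
      rw [norm_mul (4/5 * ζ'^n) _, norm_mul ((r : ℂ)^M) _]
      calc _ ≤ 1 * (1 * (2 * l * (|x| / t))) :=
            mul_le_mul nζn (mul_le_mul nrM (h1.trans h2) (norm_nonneg _) zero_le_one)
              (by positivity) zero_le_one
        _ = 2 * l * (|x| / t) := by ring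
    have hC1pos : 0 ≤ C1 := by rw [hC1]; positivity
    have b4 : ‖4/5 * ζ'^n * (((r : ℂ) * Complex.exp (Complex.I * (L : ℂ) * (x : ℂ)))^M - w^M)‖
        ≤ C1 * (|x| / t + |x|^2 / t^2) := by
      have h1 := pow_sub_pow_le _ _ nz nw M
      have h2 : ‖(r : ℂ) * Complex.exp (Complex.I * (L : ℂ) * (x : ℂ)) - w‖
          ≤ C1 * (|x|^2 + t * |x|) := by
        rw [norm_sub_rev]; exact key1
      have h3 : (M : ℝ) * (C1 * (|x|^2 + t * |x|)) ≤ C1 * (|x| / t + |x|^2 / t^2) := by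
        have e : C1 * (|x| / t + |x|^2 / t^2) = (1 / t^2) * (C1 * (|x|^2 + t * |x|)) := by
          field_simp
          ring
        rw [e]
        apply mul_le_mul_of_nonneg_right _ (by positivity)
        rw [le_div_iff₀ (by positivity)]; exact hMt
      rw [norm_mul]
      calc _ ≤ 1 * (C1 * (|x| / t + |x|^2 / t^2)) :=
            mul_le_mul nζn ((h1.trans (mul_le_mul_of_nonneg_left h2 (Nat.cast_nonneg _))).trans h3)
              (norm_nonneg _) zero_le_one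
        _ = _ := by ring
    rw [e1]
    have tri : ∀ a b c d : ℂ, ‖a + b + c + d‖ ≤ ‖a‖ + ‖b‖ + ‖c‖ + ‖d‖ := by
      intro a b c d
      have h2 := norm_add_le (a + b + c) d
      have h3 := norm_add_le (a + b) c
      have h4 := norm_add_le a b
      linarith
    refine (tri _ _ _ _).trans ?_
    have hq : 0 ≤ |x|^2 / t^2 := by positivity
    have hfin : (C1 + 2 * C0 + 2 * l + 1) * (|x| / t + |x|^2 / t^2)
        = C1 * (|x| / t + |x|^2 / t^2) + 2 * C0 * (|x| / t) + 2 * l * (|x| / t)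
          + ((|x| / t) + (2 * C0 + 2 * l + 1) * (|x|^2 / t^2)) := by ring
    rw [hfin]
    have : 0 ≤ (|x| / t) + (2 * C0 + 2 * l + 1) * (|x|^2 / t^2) := by positivity
    linarith

end Pool.Agent.H903RN
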