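import Pool.Agent.H903RN.Stmts

/-! Task Disc of project H903-RN -/

set_option autoImplicit false

open Metric MeasureTheory Filter Topology

namespace Pool.Agent.H903RN

lemma norm_e0_174 : ‖e0‖ = 1 := by simp [e0]

lemma max_174 (F : ℂ → E) (hd : Differentiable ℂ F) (hn : ∀ ζ : ℂ, ‖ζ‖ = 1 → ‖F ζ‖ = 1)
    (ζ : ℂ) (hζ : ‖ζ‖ ≤ 1) : ‖F ζ‖ ≤ 1 := by
  apply Complex.norm_le_of_forall_mem_frontier_norm_le (U := ball (0 : ℂ) 1) isBounded_ball
    hd.diffContOnCl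
  · intro z hz
    rw [frontier_ball (0 : ℂ) one_ne_zero, mem_sphere_zero_iff_norm] at hz
    exact (hn z hz).le
  · rw [closure_ball (0 : ℂ) one_ne_zero, mem_closedBall_zero_iff]
    exact hζ

lemma normsq_174 (Φ : ℂ → E) (ζ : ℂ) (h : inner ℂ e0 (Φ ζ) = 0) :
    ‖disc Φ ζ‖ ^ 2 = 9 / 25 * ‖ζ‖ ^ 2 + 16 / 25 * ‖Φ ζ‖ ^ 2 := by
  unfold disc
  have h1 : inner ℂ (((3/5 : ℂ) * ζ) • e0) ((4/5 : ℂ) • Φ ζ) = 0 := by
    rw [inner_smul_left, inner_smul_right, h]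
    simp
  have h2 := norm_add_sq_eq_norm_sq_add_norm_sq_of_inner_eq_zero _ _ h1
  rw [pow_two, h2, norm_smul, norm_smul, norm_mul, norm_e0_174]
  have e1 : ‖(3/5 : ℂ)‖ = 3/5 := by simp
  have e2 : ‖(4/5 : ℂ)‖ = 4/5 := by simp
  rw [e1, e2]
  ring

theorem taskDisc : TaskDisc := by
  refine ⟨?_, ?_, ?_⟩
  · intro Φ Ψ hG
    refine ⟨?_, ?_, ?_, ?_⟩
    · unfold disc
      have h1 : Differentiable ℂ fun ζ : ℂ => ((3/5 : ℂ) * ζ) • e0 :=
        (differentiable_id.const_mul _).smul_const _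
      exact h1.add (fun ζ => (hG.dΦ ζ).const_smul (4/5 : ℂ))
    · intro ζ hζ
      have h1 := normsq_174 Φ ζ (hG.eΦ ζ)
      rw [hζ, hG.nΦ ζ hζ] at h1
      have h2 : ‖disc Φ ζ‖ ^ 2 = 1 := by rw [h1]; norm_num
      nlinarith [norm_nonneg (disc Φ ζ)]
    · intro ζ hζ
      rw [normsq_174 Φ ζ (hG.eΦ ζ)]
      have h1 := max_174 Φ hG.dΦ hG.nΦ ζ hζ
      have h2 : ‖Φ ζ‖ ^ 2 ≤ 1 := pow_le_one₀ (norm_nonneg _) h1
      linarith
    · unfold disc
      rw [hG.zero]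
      simp
  · intro Φ Ψ hG t ht0 ht1 n ζ hζ
    have hΦ := max_174 Φ hG.dΦ hG.nΦ ζ hζ
    have hΨ := max_174 Ψ hG.dΨ hG.nΨ ζ hζ
    set s : ℝ := Real.sqrt (1 - t^2) with hs
    have hs0 : 0 ≤ s := Real.sqrt_nonneg _
    have ht2 : t ^ 2 ≤ 1 := pow_le_one₀ ht0.le ht1.le
    have hs2 : s ^ 2 = 1 - t ^ 2 := Real.sq_sqrt (by linarith)
    have hs1 : s ≤ 1 := by nlinarith
    have hs3 : 1 - s ≤ t ^ 2 := by nlinarith
    have e : disc (newΦ t n Φ Ψ) ζ - disc Φ ζ =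
        (4/5 : ℂ) • (((s : ℂ) - 1) • Φ ζ + ((t : ℂ) * ζ^n) • Ψ ζ) := by
      unfold disc newΦ
      rw [← hs]
      module
    rw [e, norm_smul]
    have e2 : ‖(4/5 : ℂ)‖ = 4/5 := by simp
    rw [e2]
    have h1 : ‖((s : ℂ) - 1) • Φ ζ‖ ≤ t ^ 2 := by
      rw [norm_smul]
      have : ‖(s : ℂ) - 1‖ = 1 - s := by
        rw [show (s : ℂ) - 1 = ((s - 1 : ℝ) : ℂ) by push_cast; ring, Complex.norm_real,
          Real.norm_eq_abs, abs_of_nonpos (by linarith)]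
        ring
      rw [this]
      calc (1 - s) * ‖Φ ζ‖ ≤ (1 - s) * 1 := mul_le_mul_of_nonneg_left hΦ (by linarith)
        _ ≤ t ^ 2 := by linarith
    have h2 : ‖((t : ℂ) * ζ^n) • Ψ ζ‖ ≤ t := by
      rw [norm_smul, norm_mul, norm_pow, Complex.norm_real, Real.norm_eq_abs, abs_of_pos ht0]
      have h3 : ‖ζ‖ ^ n ≤ 1 := pow_le_one₀ (norm_nonneg _) hζ
      have h4 : t * ‖ζ‖ ^ n ≤ t * 1 := mul_le_mul_of_nonneg_left h3 ht0.le
      calc t * ‖ζ‖ ^ n * ‖Ψ ζ‖ ≤ t * ‖ζ‖ ^ n * 1 := mul_le_mul_of_nonneg_left hΨ (by positivity)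
        _ ≤ t := by linarith
    have h3 := norm_add_le (((s : ℂ) - 1) • Φ ζ) (((t : ℂ) * ζ^n) • Ψ ζ)
    nlinarith
  · set e1 : E := EuclideanSpace.single 1 1 with he1
    set e2 : E := EuclideanSpace.single 2 1 with he2
    have n1 : ‖e1‖ = 1 := by simp [he1]
    have n2 : ‖e2‖ = 1 := by simp [he2]
    have i12 : inner ℂ e1 e2 = 0 := by
      rw [he1, EuclideanSpace.inner_single_left]
      simp [he2]
    have i01 : inner ℂ e0 e1 = 0 := by
      unfold e0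
      rw [EuclideanSpace.inner_single_left]
      simp [he1]
    have i02 : inner ℂ e0 e2 = 0 := by
      unfold e0
      rw [EuclideanSpace.inner_single_left]
      simp [he2]
    have hd : ∀ ζ : ℂ, HasDerivAt (fun z : ℂ => z • e1) e1 ζ := by
      intro ζ
      simpa using (hasDerivAt_id ζ).smul_const e1
    refine ⟨fun z => z • e1, fun _ => e2, ?_⟩
    refine ⟨fun ζ => (hd ζ).differentiableAt, differentiable_const _, ?_, ?_, ?_, ?_, ?_, ?_, ?_⟩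
    · intro ζ hζ
      rw [norm_smul, hζ, n1, one_mul]
    · intro ζ _
      exact n2
    · intro ζ _
      rw [inner_smul_left, i12, mul_zero]
    · intro ζ
      rw [inner_smul_right, i01, mul_zero]
    · intro ζ
      exact i02
    · simp
    · refine ⟨2/3, 1/3, by norm_num, by norm_num, ?_⟩
      intro ζ hζ
      have h1 : ell (fun z : ℂ => z • e1) ζ = 1 := by
        unfold ell
        rw [(hd ζ).deriv]
        have h2 : inner ℂ (ζ • e1) (ζ • e1) = (1 : ℂ) := by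
          rw [inner_self_eq_norm_sq_to_K, norm_smul, hζ, n1]
          simp
        rw [h2]
        norm_num
      rw [h1]
      norm_num

end Pool.Agent.H903RN
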