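import Pool.Agent.H903RN.Stmts

set_option autoImplicit false

open Metric MeasureTheory Filter Topology

namespace Pool.Agent.H903RN

theorem final (hOne : OneStep) (hDisc : TaskDisc) (hSeq : TaskSeq) (hLim : TaskLimDisc)
    (hRep : TaskRep) (hHol : TaskHolSum) (hRad : TaskRadial) :
    ¬ (∀ n : ℕ, 2 ≤ n →
    ∀ f : EuclideanSpace ℂ (Fin n) → ℂ,
      DifferentiableOn ℂ f (Metric.ball (0 : EuclideanSpace ℂ (Fin n)) 1) →
      (∃ C : ℝ, ∀ z ∈ Metric.ball (0 : EuclideanSpace ℂ (Fin n)) 1, ‖f z‖ ≤ C) →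
    ∀ μ : MeasureTheory.Measure (EuclideanSpace ℂ (Fin n)),
      MeasureTheory.IsFiniteMeasure μ →
      μ (Metric.sphere (0 : EuclideanSpace ℂ (Fin n)) 1)ᶜ = 0 →
      (∀ g : EuclideanSpace ℂ (Fin n) → ℂ,
        ContinuousOn g (Metric.closedBall (0 : EuclideanSpace ℂ (Fin n)) 1) →
        DifferentiableOn ℂ g (Metric.ball (0 : EuclideanSpace ℂ (Fin n)) 1) →
        ∫ z, g z ∂μ = g 0) →
      μ {ζ | ζ ∈ Metric.sphere (0 : EuclideanSpace ℂ (Fin n)) 1 ∧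
          ¬ ∃ L : ℂ, Filter.Tendsto (fun r : ℝ => f ((r : ℂ) • ζ))
              (nhdsWithin 1 (Set.Iio 1)) (nhds L)} = 0) := by
  intro H
  obtain ⟨Φ0, Ψ0, hG0⟩ := hDisc.2.2
  obtain ⟨K, C, c, φ, g, R, ρ, hS⟩ := hSeq hOne ⟨disc Φ0, Φ0, Ψ0, hG0, rfl⟩
  obtain ⟨φi, hc, hd, hn1, hn2, h0, hcl⟩ := hLim hDisc K C c φ g R ρ hS
  obtain ⟨μ, hμf, hμs, hμr, hμn⟩ := hRep φi hc hd hn1 hn2 h0
  -- exceptional sets
  have hnull : ∀ a : Fin K, volume {θ : ℝ | θ ∈ Set.Ioo (0:ℝ) 1 ∧ φi (ex θ) ∈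
      {ζ : E | ζ ∈ Metric.sphere (0 : E) 1 ∧
          ¬ ∃ L : ℂ, Filter.Tendsto (fun r : ℝ => (fun z => ∑' j, g j a z) ((r : ℂ) • ζ))
              (nhdsWithin 1 (Set.Iio 1)) (nhds L)}} = 0 := by
    intro a
    apply hμn
    exact H 3 (by norm_num) (fun z => ∑' j, g j a z) (hHol hDisc K C c φ g R ρ hS a).1
      ⟨C + 4, (hHol hDisc K C c φ g R ρ hS a).2⟩ μ hμf hμs hμr
  have hnull2 : volume (⋃ a : Fin K, {θ : ℝ | θ ∈ Set.Ioo (0:ℝ) 1 ∧ φi (ex θ) ∈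
      {ζ : E | ζ ∈ Metric.sphere (0 : E) 1 ∧
          ¬ ∃ L : ℂ, Filter.Tendsto (fun r : ℝ => (fun z => ∑' j, g j a z) ((r : ℂ) • ζ))
              (nhdsWithin 1 (Set.Iio 1)) (nhds L)}}) = 0 :=
    measure_iUnion_null hnull
  have hsub : Set.Ioo (0:ℝ) 1 ⊆ (⋃ a : Fin K, {θ : ℝ | θ ∈ Set.Ioo (0:ℝ) 1 ∧ φi (ex θ) ∈
      {ζ : E | ζ ∈ Metric.sphere (0 : E) 1 ∧
          ¬ ∃ L : ℂ, Filter.Tendsto (fun r : ℝ => (fun z => ∑' j, g j a z) ((r : ℂ) • ζ))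
              (nhdsWithin 1 (Set.Iio 1)) (nhds L)}}) := by
    intro θ hθ
    have hex : ‖ex θ‖ = 1 := by
      unfold ex; exact Complex.norm_exp_ofReal_mul_I θ
    by_contra hcon
    have hall : ∀ a : Fin K, ∃ L : ℂ, Filter.Tendsto
        (fun r : ℝ => ∑' j, g j a ((r : ℂ) • φi (ex θ))) (nhdsWithin 1 (Set.Iio 1)) (nhds L) := by
      intro a
      by_contra hh
      apply hcon
      refine Set.mem_iUnion.2 ⟨a, hθ, ?_, hh⟩
      simpa using hn1 _ hex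
    have htend : ∀ a : Fin K, Tendsto (fun j => g j a ((R j : ℂ) • φi (ex θ))) atTop (𝓝 0) :=
      fun a => hRad hDisc K C c φ g R ρ hS φi hn1 hcl a (ex θ) hex (hall a)
    have hev : ∀ᶠ j in atTop, ∀ a : Fin K, ‖g j a ((R j : ℂ) • φi (ex θ))‖ < c / 2 := by
      rw [eventually_all]
      intro a
      have := (htend a).norm
      simp only [norm_zero] at this
      exact this.eventually (gt_mem_nhds (by have := hS.hc; linarith))
    obtain ⟨j, hj⟩ := hev.exists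
    obtain ⟨a, ha⟩ := hS.bump j θ ⟨hθ.1.le, hθ.2⟩
    have hρ := hS.ρpos (j+1)
    have hρ0 : ∀ i, ρ i ≤ 1/2 := by
      intro i
      induction i with
      | zero => exact hS.ρ0
      | succ i ih => have := hS.ρhalf i; linarith
    have hR0 : 0 ≤ R j := by have := hS.R1 j; have := hρ0 j; linarith
    have hR1 : R j ≤ 1 := by have := hS.R2 j; linarith
    have hnR : ‖((R j : ℝ) : ℂ)‖ ≤ 1 := by
      rw [Complex.norm_real, Real.norm_eq_abs, abs_of_nonneg hR0]; exact hR1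
    -- norm of φ (j+1)
    obtain ⟨Φ, Ψ, hG, hφ⟩ := hS.good (j+1)
    have hnφ : ‖φ (j+1) (ex θ)‖ = 1 := by
      rw [hφ]; exact (hDisc.1 Φ Ψ hG).2.1 _ hex
    have hm1 : ((R j : ℝ) : ℂ) • φi (ex θ) ∈ closedBall (0:E) 1 := by
      rw [mem_closedBall_zero_iff, norm_smul, hn1 _ hex, mul_one]; exact hnR
    have hm2 : ((R j : ℝ) : ℂ) • φ (j+1) (ex θ) ∈ closedBall (0:E) 1 := by
      rw [mem_closedBall_zero_iff, norm_smul, hnφ, mul_one]; exact hnR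
    have hdist : ‖((R j : ℝ) : ℂ) • φi (ex θ) - ((R j : ℝ) : ℂ) • φ (j+1) (ex θ)‖
        ≤ 2 * ρ (j+1) := by
      rw [← smul_sub, norm_smul]
      have h1 := hcl (j+1) (ex θ) hex.le
      calc ‖((R j : ℝ) : ℂ)‖ * ‖φi (ex θ) - φ (j+1) (ex θ)‖
          ≤ 1 * (ρ (j+1) / 2) := by gcongr
        _ ≤ 2 * ρ (j+1) := by linarith
    have h2 := (hS.unif j a _ hm1 _ hm2 hdist).2
    have h3 := hj a
    have h4 : ‖g j a (((R j : ℝ) : ℂ) • φ (j+1) (ex θ))‖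
        ≤ ‖g j a (((R j : ℝ) : ℂ) • φi (ex θ))‖ +
          ‖g j a (((R j : ℝ) : ℂ) • φi (ex θ)) - g j a (((R j : ℝ) : ℂ) • φ (j+1) (ex θ))‖ := by
      have := norm_sub_norm_le (g j a (((R j : ℝ) : ℂ) • φ (j+1) (ex θ)))
        (g j a (((R j : ℝ) : ℂ) • φi (ex θ)))
      rw [norm_sub_rev] at this
      linarith
    linarith
  have hvol : volume (Set.Ioo (0:ℝ) 1) = 0 := measure_mono_null hsub hnull2
  rw [Real.volume_Ioo] at hvol
  simp at hvol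

end Pool.Agent.H903RN
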