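import Pool.Agent.H903RN.Stmts

set_option autoImplicit false

open Metric MeasureTheory Filter Topology

namespace Pool.Agent.H903RN.GeomX

/-! Task Geom (helper553) -/

theorem one_sub_norm_le {a z : E} (ha : ‖a‖ = 1) : 1 - ‖z‖ ≤ ‖1 - inner ℂ a z‖ := by
  have h1 : ‖(inner ℂ a z : ℂ)‖ ≤ ‖z‖ := by
    have := norm_inner_le_norm (𝕜 := ℂ) a z
    rwa [ha, one_mul] at this
  have h2 : ‖(1 : ℂ)‖ - ‖(inner ℂ a z : ℂ)‖ ≤ ‖1 - inner ℂ a z‖ := norm_sub_norm_le _ _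
  rw [norm_one] at h2
  linarith

theorem re_nonneg {a z : E} (ha : ‖a‖ = 1) (hz : ‖z‖ ≤ 1) : 0 ≤ (1 - inner ℂ a z : ℂ).re := by
  have h1 : ‖(inner ℂ a z : ℂ)‖ ≤ ‖z‖ := by
    have := norm_inner_le_norm (𝕜 := ℂ) a z
    rwa [ha, one_mul] at this
  have h2 := Complex.re_le_norm (inner ℂ a z : ℂ)
  rw [Complex.sub_re, Complex.one_re]
  linarith

theorem dist_sq {a z : E} (ha : ‖a‖ = 1) (hz : ‖z‖ ≤ 1) :
    ‖z - a‖ ^ 2 ≤ 2 * ‖1 - inner ℂ a z‖ := by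
  have h1 := norm_sub_sq (𝕜 := ℂ) z a
  have h2 : RCLike.re (inner ℂ z a : ℂ) = (inner ℂ a z : ℂ).re := inner_re_symm (𝕜 := ℂ) z a
  rw [h2, ha] at h1
  have h3 := Complex.re_le_norm (1 - inner ℂ a z : ℂ)
  rw [Complex.sub_re, Complex.one_re] at h3
  have h4 : ‖z‖ ^ 2 ≤ 1 := by
    have := norm_nonneg z
    nlinarith
  linarith

theorem part1 (a b z : E) (ha : ‖a‖ = 1) (hb : ‖b‖ = 1) (hz : ‖z‖ ≤ 1) :
    ‖1 - inner ℂ a b‖ ≤ 3 * (‖1 - inner ℂ a z‖ + ‖1 - inner ℂ b z‖) := by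
  set A := ‖1 - inner ℂ a z‖ with hA
  set B := ‖1 - inner ℂ b z‖ with hB
  have hA0 : 0 ≤ A := norm_nonneg _
  have hB0 : 0 ≤ B := norm_nonneg _
  have e : (1 - inner ℂ a b : ℂ) =
      (1 - inner ℂ a z) + inner ℂ (a - z) (z - b) + (inner ℂ z z - inner ℂ z b) := by
    simp only [inner_sub_left, inner_sub_right]
    ring
  have hzz : (inner ℂ z z : ℂ) = ((‖z‖ ^ 2 : ℝ) : ℂ) := by
    rw [inner_self_eq_norm_sq_to_K]
    simp
  have h1 : ‖(inner ℂ z z - inner ℂ z b : ℂ)‖ ≤ B + (1 - ‖z‖ ^ 2) := by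
    have e2 : (inner ℂ z z - inner ℂ z b : ℂ) = (1 - inner ℂ z b) - ((1 - ‖z‖ ^ 2 : ℝ) : ℂ) := by
      rw [hzz]; push_cast; ring
    rw [e2]
    refine (norm_sub_le _ _).trans ?_
    have h3 : ‖(1 - inner ℂ z b : ℂ)‖ = B := by
      rw [hB, ← inner_conj_symm z b, ← Complex.norm_conj]
      simp
    rw [h3, Complex.norm_real, Real.norm_eq_abs, abs_of_nonneg]
    have := norm_nonneg z
    nlinarith
  have h2 : 1 - ‖z‖ ^ 2 ≤ A + B := by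
    have h3 := one_sub_norm_le (z := z) ha
    have h4 := one_sub_norm_le (z := z) hb
    have := norm_nonneg z
    nlinarith
  have h5 : ‖(inner ℂ (a - z) (z - b) : ℂ)‖ ≤ A + B := by
    refine (norm_inner_le_norm _ _).trans ?_
    have h6 := dist_sq ha hz
    have h7 := dist_sq hb hz
    rw [norm_sub_rev a z]
    have h8 := norm_nonneg (z - a)
    have h9 := norm_nonneg (z - b)
    nlinarith [sq_nonneg (‖z - a‖ - ‖z - b‖)]
  rw [e]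
  refine (norm_add₃_le).trans ?_
  linarith

theorem norm_e0 : ‖e0‖ = 1 := by
  unfold e0
  simp

theorem norm_ex (θ : ℝ) : ‖ex θ‖ = 1 := by
  unfold ex
  exact Complex.norm_exp_ofReal_mul_I θ

theorem disc_norm {Φ Ψ : ℂ → E} (h : Good Φ Ψ) {ζ : ℂ} (hζ : ‖ζ‖ = 1) : ‖disc Φ ζ‖ = 1 := by
  have h1 : ‖disc Φ ζ‖ ^ 2 = 1 := by
    unfold disc
    rw [norm_add_sq (𝕜 := ℂ), inner_smul_left, inner_smul_right, h.eΦ ζ, norm_smul, norm_smul,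
      norm_e0, h.nΦ ζ hζ, norm_mul, hζ]
    norm_num
  have h2 := norm_nonneg (disc Φ ζ)
  nlinarith

theorem disc_orth {Φ Ψ : ℂ → E} (h : Good Φ Ψ) {ζ : ℂ} (hζ : ‖ζ‖ = 1) :
    inner ℂ (disc Φ ζ) (Ψ ζ) = 0 := by
  unfold disc
  rw [inner_add_left, inner_smul_left, inner_smul_left, h.eΨ ζ, h.orth ζ hζ]
  simp

theorem bessel {u v z : E} (hu : ‖u‖ = 1) (hv : ‖v‖ = 1) (huv : inner ℂ u v = 0) :
    ‖(inner ℂ u z : ℂ)‖ ^ 2 + ‖(inner ℂ v z : ℂ)‖ ^ 2 ≤ ‖z‖ ^ 2 := by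
  have ho : Orthonormal ℂ ![u, v] := by
    refine ⟨?_, ?_⟩
    · intro i
      fin_cases i
      · exact hu
      · exact hv
    · intro i j hij
      fin_cases i <;> fin_cases j
      · exact absurd rfl hij
      · exact huv
      · exact inner_eq_zero_symm.1 huv
      · exact absurd rfl hij
  have := ho.sum_inner_products_le z (s := Finset.univ)
  simpa [Fin.sum_univ_two] using this

theorem re_W {u z : E} (hu : ‖u‖ = 1) (hz : ‖z‖ ≤ 1) (t : ℝ) :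
    0 ≤ ((1 - inner ℂ u z) / (t : ℂ) ^ 2 : ℂ).re := by
  have e : ((t : ℂ) ^ 2) = ((t ^ 2 : ℝ) : ℂ) := by push_cast; rfl
  rw [e, Complex.div_ofReal_re]
  exact div_nonneg (re_nonneg hu hz) (by positivity)

theorem one_le_norm {W : ℂ} (h : 0 ≤ W.re) : 1 ≤ ‖1 + W‖ := by
  have h1 := Complex.re_le_norm (1 + W)
  rw [Complex.add_re, Complex.one_re] at h1
  linarith

theorem le_norm {W : ℂ} (h : 0 ≤ W.re) : ‖W‖ ≤ ‖1 + W‖ := by
  have h1 : ‖W‖ ^ 2 ≤ ‖1 + W‖ ^ 2 := by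
    rw [← Complex.normSq_eq_norm_sq, ← Complex.normSq_eq_norm_sq, Complex.normSq_apply,
      Complex.normSq_apply, Complex.add_re, Complex.add_im, Complex.one_re, Complex.one_im]
    nlinarith
  exact le_of_sq_le_sq h1 (norm_nonneg _)

theorem rr_nonneg (t : ℝ) : 0 ≤ rr t := by
  unfold rr
  positivity

theorem rr_le (t : ℝ) : rr t ≤ 1 := by
  unfold rr
  have : Real.sqrt (1 - t ^ 2) ≤ 1 := by
    rw [Real.sqrt_le_iff]
    constructor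
    · norm_num
    · nlinarith [sq_nonneg t]
  linarith

end Pool.Agent.H903RN.GeomX

namespace Pool.Agent.H903RN

open GeomX

theorem geom3 (Φ Ψ : ℂ → E) (hg : Good Φ Ψ) (t : ℝ) (ht : 0 < t) (_ : t < 1) (n : ℕ) (θ : ℝ)
    (z : E) (hz : ‖z‖ ≤ 1) :
    1 ≤ Q Φ t θ z ∧ ‖1 - inner ℂ (disc Φ (ex θ)) z‖ / t^2 ≤ Q Φ t θ z ∧
    ‖G Φ Ψ t n θ z‖ ≤ 3 / (Q Φ t θ z)^3 := by
  have hu := disc_norm hg (norm_ex θ)
  have hv := hg.nΨ (ex θ) (norm_ex θ)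
  have huv := disc_orth hg (norm_ex θ)
  have hW := re_W hu hz t
  have hQ1 : 1 ≤ Q Φ t θ z := one_le_norm hW
  have hnW : ‖((1 - inner ℂ (disc Φ (ex θ)) z) / (t : ℂ) ^ 2 : ℂ)‖ =
      ‖1 - inner ℂ (disc Φ (ex θ)) z‖ / t^2 := by
    rw [norm_div, norm_pow, Complex.norm_real, Real.norm_eq_abs, abs_of_pos ht]
  have hQ2 : ‖1 - inner ℂ (disc Φ (ex θ)) z‖ / t^2 ≤ Q Φ t θ z := by
    rw [← hnW]
    exact le_norm hW
  refine ⟨hQ1, hQ2, ?_⟩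
  set u := disc Φ (ex θ) with hudef
  set v := Ψ (ex θ) with hvdef
  set q := Q Φ t θ z with hq
  have hq0 : 0 < q := by linarith
  have hnu : ‖(inner ℂ u z : ℂ)‖ ≤ 1 := by
    have := norm_inner_le_norm (𝕜 := ℂ) u z
    rw [hu, one_mul] at this
    linarith
  have hb := bessel (z := z) hu hv huv
  have h1 : ‖(inner ℂ v z : ℂ)‖ ^ 2 ≤ 2 * (q * t ^ 2) := by
    have h2 : ‖z‖ ^ 2 ≤ 1 := by
      have := norm_nonneg z
      nlinarith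
    have h3 : 1 - ‖(inner ℂ u z : ℂ)‖ ≤ ‖1 - inner ℂ u z‖ := by
      have h4 : ‖(1 : ℂ)‖ - ‖(inner ℂ u z : ℂ)‖ ≤ ‖1 - inner ℂ u z‖ := norm_sub_norm_le _ _
      rwa [norm_one] at h4
    have h5 : ‖1 - inner ℂ u z‖ ≤ q * t ^ 2 := by
      rwa [div_le_iff₀ (by positivity)] at hQ2
    have h6 := norm_nonneg (inner ℂ u z : ℂ)
    nlinarith
  have h7 : ‖(inner ℂ v z : ℂ)‖ / t ≤ 3 / 2 * q := by
    rw [div_le_iff₀ ht]
    have h8 : ‖(inner ℂ v z : ℂ)‖ ^ 2 ≤ (3 / 2 * q * t) ^ 2 := by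
      have : q * t ^ 2 ≤ q ^ 2 * t ^ 2 := by
        have := mul_le_mul_of_nonneg_right hQ1 (by positivity : 0 ≤ q * t ^ 2)
        nlinarith
      nlinarith
    exact le_of_sq_le_sq h8 (by positivity)
  unfold G
  rw [norm_mul, norm_pow, norm_inv]
  have hQn : ‖(1 + (1 - inner ℂ (disc Φ (ex θ)) z) / (t : ℂ)^2 : ℂ)‖ = q := rfl
  rw [hQn]
  have h9 : ‖((rr t : ℂ)^(MM Φ n θ) * (inner ℂ (Ψ (ex θ)) z / (t : ℂ))
      - (4/5 : ℂ) * (ex θ)^n * (inner ℂ (disc Φ (ex θ)) z)^(MM Φ n θ))‖ ≤ 3 * q := by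
    refine (norm_sub_le _ _).trans ?_
    rw [norm_mul, norm_mul, norm_mul, norm_pow, norm_pow, norm_pow, norm_ex, one_pow, norm_div,
      Complex.norm_real, Complex.norm_real, Real.norm_eq_abs, Real.norm_eq_abs, abs_of_pos ht,
      abs_of_nonneg (rr_nonneg t)]
    have h10 : (rr t) ^ (MM Φ n θ) ≤ 1 := pow_le_one₀ (rr_nonneg t) (rr_le t)
    have h11 : ‖(inner ℂ (disc Φ (ex θ)) z : ℂ)‖ ^ (MM Φ n θ) ≤ 1 :=
      pow_le_one₀ (norm_nonneg _) hnu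
    have h12 : ‖(4 / 5 : ℂ)‖ = 4 / 5 := by
      rw [norm_div]; norm_num
    rw [h12]
    have h13 : (rr t) ^ (MM Φ n θ) * (‖(inner ℂ (Ψ (ex θ)) z : ℂ)‖ / t) ≤
        1 * (‖(inner ℂ (Ψ (ex θ)) z : ℂ)‖ / t) :=
      mul_le_mul_of_nonneg_right h10 (by positivity)
    have h14 : ‖(inner ℂ (Ψ (ex θ)) z : ℂ)‖ / t ≤ 3 / 2 * q := h7
    nlinarith
  calc (q⁻¹) ^ 4 * _ ≤ (q⁻¹) ^ 4 * (3 * q) := mul_le_mul_of_nonneg_left h9 (by positivity)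
    _ = 3 / q ^ 3 := by field_simp

theorem geom : TaskGeom := by
  refine ⟨part1, fun a z ha hz => dist_sq ha hz, geom3, ?_⟩
  intro Φ Ψ hg t ht ht1 n θ
  have hne : ∀ z : E, ‖z‖ ≤ 1 →
      (1 + (1 - inner ℂ (disc Φ (ex θ)) z) / (t : ℂ)^2 : ℂ) ≠ 0 := by
    intro z hz h0
    have := (geom3 Φ Ψ hg t ht ht1 n θ z hz).1
    unfold Q at this
    rw [h0, norm_zero] at this
    linarith
  have hd1 : Differentiable ℂ (fun z : E => (inner ℂ (disc Φ (ex θ)) z : ℂ)) :=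
    (innerSL ℂ (disc Φ (ex θ))).differentiable
  have hd2 : Differentiable ℂ (fun z : E => (inner ℂ (Ψ (ex θ)) z : ℂ)) :=
    (innerSL ℂ (Ψ (ex θ))).differentiable
  have hd3 : Differentiable ℂ (fun z : E =>
      (1 + (1 - inner ℂ (disc Φ (ex θ)) z) / (t : ℂ)^2 : ℂ)) :=
    by fun_prop
  have hd4 : Differentiable ℂ (fun z : E => ((rr t : ℂ)^(MM Φ n θ) * (inner ℂ (Ψ (ex θ)) z / (t : ℂ))
      - (4/5 : ℂ) * (ex θ)^n * (inner ℂ (disc Φ (ex θ)) z)^(MM Φ n θ) : ℂ)) :=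
    by fun_prop
  constructor
  · intro z hz
    have hz' : ‖z‖ ≤ 1 := by simpa using hz
    exact ((((hd3.continuous.continuousAt (x := z)).inv₀ (hne z hz')).pow 4).mul
      (hd4.continuous.continuousAt (x := z))).continuousWithinAt
  · intro z hz
    have hz' : ‖z‖ ≤ 1 := by
      have : ‖z‖ < 1 := by simpa using hz
      exact this.le
    exact ((((hd3 z).inv (hne z hz')).pow 4).mul (hd4 z)).differentiableWithinAt

end Pool.Agent.H903RN
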