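import Pool.Agent.H903RN.Stmts

/-! Task HolSum of the project H903-RN (helper929). -/

set_option autoImplicit false

open Metric MeasureTheory Filter Topology

namespace Pool.Agent.H903RN

namespace HolSumAux

variable {K : ℕ} {C c : ℝ} {φ : ℕ → ℂ → E} {g : ℕ → Fin K → E → ℂ} {R ρ : ℕ → ℝ}

theorem hnorm (hD : TaskDisc) (hS : SeqData K C c φ g R ρ) (j : ℕ) (ζ : ℂ) (hζ : ‖ζ‖ = 1) :
    ‖φ j ζ‖ = 1 := by
  obtain ⟨Φ, Ψ, hG, h⟩ := hS.good j
  rw [h]
  exact (hD.1 Φ Ψ hG).2.1 ζ hζ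

theorem rho_le (hS : SeqData K C c φ g R ρ) (j : ℕ) : ρ j ≤ (1/2)^(j+1) := by
  induction j with
  | zero => simpa using hS.ρ0
  | succ j ih =>
    have := hS.ρhalf j
    rw [pow_succ]
    linarith

theorem rho_anti (hS : SeqData K C c φ g R ρ) : Antitone ρ := by
  apply antitone_nat_of_succ_le
  intro j
  have h1 := hS.ρhalf j
  have h2 := hS.ρpos j
  linarith

theorem chain (hS : SeqData K C c φ g R ρ) (ζ : ℂ) (hζ : ‖ζ‖ ≤ 1) (k : ℕ) (d : ℕ) :
    ‖φ (k + d) ζ - φ k ζ‖ ≤ (ρ k - ρ (k + d)) / 2 := by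
  induction d with
  | zero => simp
  | succ d ih =>
    have h1 := hS.close (k + d) ζ hζ
    have h2 := hS.ρhalf (k + d)
    have h3 : φ (k + (d + 1)) ζ - φ k ζ = (φ (k + d + 1) ζ - φ (k + d) ζ) + (φ (k + d) ζ - φ k ζ) := by
      rw [← add_assoc]; abel
    have h4 : ρ (k + (d + 1)) = ρ (k + d + 1) := by rw [← add_assoc]
    rw [h3, h4]
    have h5 := norm_add_le (φ (k + d + 1) ζ - φ (k + d) ζ) (φ (k + d) ζ - φ k ζ)
    linarith

theorem far_of (hD : TaskDisc) (hS : SeqData K C c φ g R ρ) (a : Fin K) (j : ℕ) (z : E)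
    (hz : ρ j ≤ 1 - ‖z‖) : ‖g j a z‖ ≤ (1/2)^j := by
  have h0 := hS.ρpos j
  apply hS.far j a z
  · rw [mem_closedBall_zero_iff]; linarith
  · intro ζ hζ
    have h1 := hnorm hD hS j ζ hζ
    have h2 := norm_sub_norm_le (φ j ζ) z
    rw [norm_sub_rev] at h2
    linarith

/-- the pointwise bound of all the terms -/
theorem ptwise (hD : TaskDisc) (hS : SeqData K C c φ g R ρ) (a : Fin K) (z : E) (hz : ‖z‖ < 1) :
    ∃ l : ℕ, ∀ i, ‖g i a z‖ ≤ 2 * (1/2)^i + (if i = l then C else 0) := by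
  classical
  have hzc : z ∈ closedBall (0 : E) 1 := by rw [mem_closedBall_zero_iff]; exact hz.le
  have hhalf : ∀ i : ℕ, (0 : ℝ) < (1/2)^i := fun i => by positivity
  have hC := hS.hC
  obtain ⟨N, hN⟩ : ∃ N : ℕ, ((1 : ℝ)/2)^N < 1 - ‖z‖ :=
    exists_pow_lt_of_lt_one (by linarith) (by norm_num)
  have hfin : ∀ j, (∃ ζ : ℂ, ‖ζ‖ = 1 ∧ ‖z - φ j ζ‖ < ρ j) → j ≤ N := by
    rintro j ⟨ζ, hζ, h⟩
    by_contra hcon
    push Not at hcon
    have h1 := hnorm hD hS j ζ hζ
    have h2 := norm_sub_norm_le (φ j ζ) z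
    rw [norm_sub_rev] at h2
    have h3 := rho_le hS j
    have h4 : ((1 : ℝ)/2)^(j+1) ≤ (1/2)^N :=
      pow_le_pow_of_le_one (by norm_num) (by norm_num) (by omega)
    linarith
  by_cases hex : ∃ j, ∃ ζ : ℂ, ‖ζ‖ = 1 ∧ ‖z - φ j ζ‖ < ρ j
  · obtain ⟨j₀, hj₀⟩ := hex
    obtain ⟨l, hl⟩ : ∃ l, l = Nat.findGreatest (fun j => ∃ ζ : ℂ, ‖ζ‖ = 1 ∧ ‖z - φ j ζ‖ < ρ j) N :=
      ⟨_, rfl⟩
    have hls : ∃ ζ : ℂ, ‖ζ‖ = 1 ∧ ‖z - φ l ζ‖ < ρ l := by
      rw [hl]
      exact Nat.findGreatest_spec (P := fun j => ∃ ζ : ℂ, ‖ζ‖ = 1 ∧ ‖z - φ j ζ‖ < ρ j)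
        (hfin j₀ hj₀) hj₀
    have hlm : ∀ j, (∃ ζ : ℂ, ‖ζ‖ = 1 ∧ ‖z - φ j ζ‖ < ρ j) → j ≤ l := by
      intro j hj
      rw [hl]
      exact Nat.le_findGreatest (P := fun j => ∃ ζ : ℂ, ‖ζ‖ = 1 ∧ ‖z - φ j ζ‖ < ρ j) (hfin j hj) hj
    refine ⟨l, fun i => ?_⟩
    rcases lt_trichotomy i l with h | h | h
    · rw [if_neg h.ne, add_zero]
      obtain ⟨ζ, hζ, hlt⟩ := hls
      obtain ⟨d, hd⟩ : ∃ d, l = (i + 1) + d := ⟨l - (i + 1), by omega⟩
      have h1 := chain hS ζ hζ.le (i + 1) d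
      rw [← hd] at h1
      have h2 := rho_anti hS (show i + 1 ≤ l by omega)
      have h3 := hS.ρpos l
      have h4 : ‖z - φ (i + 1) ζ‖ ≤ 2 * ρ (i + 1) := by
        have h5 : z - φ (i + 1) ζ = (z - φ l ζ) + (φ l ζ - φ (i + 1) ζ) := by abel
        rw [h5]
        have h6 := norm_add_le (z - φ l ζ) (φ l ζ - φ (i + 1) ζ)
        linarith
      have h5 := hS.curve i a ζ hζ
      have h6 := (hS.unif i a z hzc (φ (i + 1) ζ)
        (by rw [mem_closedBall_zero_iff, hnorm hD hS (i + 1) ζ hζ]) h4).1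
      have h7 : g i a z = (g i a z - g i a (φ (i + 1) ζ)) + g i a (φ (i + 1) ζ) := by ring
      rw [h7]
      have h8 := norm_add_le (g i a z - g i a (φ (i + 1) ζ)) (g i a (φ (i + 1) ζ))
      linarith
    · rw [if_pos h]
      have h1 := hS.bound i a z hzc
      have h2 := hhalf i
      linarith
    · rw [if_neg h.ne', add_zero]
      have h1 := hS.far i a z hzc (by
        intro ζ hζ
        by_contra hcon
        push Not at hcon
        have := hlm i ⟨ζ, hζ, hcon⟩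
        omega)
      have h2 := hhalf i
      linarith
  · refine ⟨0, fun i => ?_⟩
    have h1 := hS.far i a z hzc (by
      intro ζ hζ
      by_contra hcon
      push Not at hcon
      exact hex ⟨i, ζ, hζ, hcon⟩)
    have h2 := hhalf i
    have h3 : (0 : ℝ) ≤ if i = 0 then C else 0 := by split_ifs <;> linarith
    linarith

/-- Cauchy estimate for the derivative -/
theorem cauchy (h : E → ℂ) (r d M : ℝ) (hd : 0 < d) (hdiff : DifferentiableOn ℂ h (ball 0 1))
    (hrd : r + d < 1) (hM : ∀ z : E, ‖z‖ ≤ r + d → ‖h z‖ ≤ M) (z : E) (hz : ‖z‖ ≤ r) :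
    ‖fderiv ℂ h z‖ ≤ M / d := by
  have hM0 : 0 ≤ M := (norm_nonneg _).trans (hM z (by linarith))
  refine ContinuousLinearMap.opNorm_le_bound _ (by positivity) fun v => ?_
  by_cases hv : v = 0
  · subst hv; simp
  have hv0 : 0 < ‖v‖ := norm_pos_iff.2 hv
  have hline : ∀ t : ℂ, ‖t‖ ≤ d / ‖v‖ → ‖z + t • v‖ ≤ r + d := by
    intro t ht
    have h1 := norm_add_le z (t • v)
    rw [norm_smul] at h1
    have h2 : ‖t‖ * ‖v‖ ≤ d := by
      calc ‖t‖ * ‖v‖ ≤ (d / ‖v‖) * ‖v‖ := mul_le_mul_of_nonneg_right ht hv0.le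
        _ = d := by field_simp
    linarith
  have hat : ∀ t : ℂ, ‖t‖ ≤ d / ‖v‖ → DifferentiableAt ℂ h (z + t • v) := by
    intro t ht
    apply hdiff.differentiableAt
    apply isOpen_ball.mem_nhds
    rw [mem_ball_zero_iff]
    have := hline t ht
    linarith
  have hder : ∀ t : ℂ, ‖t‖ ≤ d / ‖v‖ → HasDerivAt (fun t : ℂ => h (z + t • v))
      (fderiv ℂ h (z + t • v) v) t := by
    intro t ht
    have h1 : HasDerivAt (fun t : ℂ => z + t • v) v t := by
      simpa using ((hasDerivAt_id t).smul_const v).const_add z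
    exact (hat t ht).hasFDerivAt.comp_hasDerivAt t h1
  have hR : 0 < d / ‖v‖ := by positivity
  have h1 : DiffContOnCl ℂ (fun t : ℂ => h (z + t • v)) (ball 0 (d / ‖v‖)) := by
    apply DifferentiableOn.diffContOnCl
    intro t ht
    have ht' : ‖t‖ ≤ d / ‖v‖ := by
      have := closure_ball_subset_closedBall ht
      rwa [mem_closedBall_zero_iff] at this
    exact (hder t ht').differentiableAt.differentiableWithinAt
  have h2 := Complex.norm_deriv_le_of_forall_mem_sphere_norm_le hR h1 (C := M) (by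
    intro t ht
    rw [mem_sphere_zero_iff_norm] at ht
    exact hM _ (hline t ht.le))
  have h3 := (hder 0 (by rw [norm_zero]; exact hR.le)).deriv
  rw [h3] at h2
  simp only [zero_smul, add_zero] at h2
  calc ‖fderiv ℂ h z v‖ ≤ M / (d / ‖v‖) := h2
    _ = M / d * ‖v‖ := by field_simp

end HolSumAux

open HolSumAux in
theorem holSum : TaskHolSum := by
  classical
  intro hD K C c φ g R ρ hS a
  have hC := hS.hC
  have hgeo : Summable (fun i : ℕ => ((1 : ℝ)/2)^i) := summable_geometric_two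
  constructor
  · intro z₀ hz₀
    rw [mem_ball_zero_iff] at hz₀
    obtain ⟨r, hr⟩ : ∃ r : ℝ, r = (1 + ‖z₀‖) / 2 := ⟨_, rfl⟩
    obtain ⟨d, hd⟩ : ∃ d : ℝ, d = (1 - ‖z₀‖) / 4 := ⟨_, rfl⟩
    have hd0 : 0 < d := by rw [hd]; linarith
    have hrd : r + d < 1 := by rw [hr, hd]; linarith
    obtain ⟨N, hN⟩ : ∃ N : ℕ, ((1 : ℝ)/2)^N < 1 - (r + d) :=
      exists_pow_lt_of_lt_one (by linarith) (by norm_num)
    obtain ⟨M, hMdef⟩ : ∃ M : ℕ → ℝ, M = fun j => (1/2)^j + (if j < N then C else 0) := ⟨_, rfl⟩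
    have hMs : Summable M := by
      rw [hMdef]
      apply hgeo.add
      apply summable_of_ne_finset_zero (s := Finset.range N)
      intro j hj
      rw [Finset.mem_range] at hj
      rw [if_neg hj]
    have hMb : ∀ j, ∀ z : E, ‖z‖ ≤ r + d → ‖g j a z‖ ≤ M j := by
      intro j z hz
      rw [hMdef]
      beta_reduce
      by_cases hj : j < N
      · rw [if_pos hj]
        have h1 := hS.bound j a z (by rw [mem_closedBall_zero_iff]; linarith)
        have h2 : (0 : ℝ) < (1/2)^j := by positivity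
        linarith
      · rw [if_neg hj, add_zero]
        apply far_of hD hS
        have h1 := rho_le hS j
        have h4 : ((1 : ℝ)/2)^(j+1) ≤ (1/2)^N :=
          pow_le_pow_of_le_one (by norm_num) (by norm_num) (by omega)
        linarith
    have hz₀r : z₀ ∈ ball (0 : E) r := by rw [mem_ball_zero_iff, hr]; linarith
    have key := hasFDerivAt_tsum_of_isPreconnected (𝕜 := ℂ) (u := fun j => M j / d)
      (f := fun j z => g j a z) (f' := fun j z => fderiv ℂ (fun z => g j a z) z)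
      (s := ball (0 : E) r) (x₀ := z₀) (x := z₀) (hMs.div_const d) isOpen_ball
      (convex_ball (0 : E) r).isPreconnected
      (by
        intro j z hz
        rw [mem_ball_zero_iff] at hz
        have h1 : DifferentiableAt ℂ (g j a) z := (hS.diff j a).differentiableAt
          (isOpen_ball.mem_nhds (by rw [mem_ball_zero_iff]; linarith))
        exact h1.hasFDerivAt)
      (by
        intro j z hz
        rw [mem_ball_zero_iff] at hz
        exact cauchy (g j a) r d (M j) hd0 (hS.diff j a) hrd (hMb j) z hz.le)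
      hz₀r
      (by
        apply Summable.of_norm_bounded hMs
        intro j
        rw [mem_ball_zero_iff] at hz₀r
        exact hMb j z₀ (by linarith))
      hz₀r
    exact key.differentiableAt.differentiableWithinAt
  · intro z hz
    rw [mem_ball_zero_iff] at hz
    obtain ⟨l, hl⟩ := ptwise hD hS a z hz
    have hs1 : Summable (fun i : ℕ => 2 * ((1 : ℝ)/2)^i) := hgeo.mul_left 2
    have hs2 : Summable (fun i : ℕ => if i = l then C else 0) :=
      summable_of_ne_finset_zero (s := {l}) (fun j hj => if_neg (by simpa using hj))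
    have hs3 : Summable (fun i => ‖g i a z‖) :=
      Summable.of_nonneg_of_le (fun _ => norm_nonneg _) hl (hs1.add hs2)
    calc ‖∑' j, g j a z‖ ≤ ∑' j, ‖g j a z‖ := norm_tsum_le_tsum_norm hs3
      _ ≤ ∑' j, (2 * ((1 : ℝ)/2)^j + (if j = l then C else 0)) :=
          hs3.tsum_le_tsum hl (hs1.add hs2)
      _ = C + 4 := by
          rw [hs1.tsum_add hs2, tsum_mul_left, tsum_geometric_two, tsum_ite_eq]
          ring

end Pool.Agent.H903RN
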