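import Pool.Agent.H903RN.Stmts

set_option autoImplicit false

open Metric MeasureTheory Filter Topology

namespace Pool.Agent.H903RN

lemma inj_ex_norm (θ : ℝ) : ‖ex θ‖ = 1 := by
  unfold ex
  exact Complex.norm_exp_ofReal_mul_I θ

lemma inj_ex_inner (θ' θ : ℝ) : ((starRingEnd ℂ) (ex θ') * ex θ).re = Real.cos (θ - θ') := by
  have h : (starRingEnd ℂ) (ex θ') * ex θ = Complex.exp (((θ - θ' : ℝ) : ℂ) * Complex.I) := by
    unfold ex
    rw [← Complex.exp_conj, ← Complex.exp_add]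
    congr 1
    simp only [map_mul, Complex.conj_ofReal, Complex.conj_I]
    push_cast
    ring
  rw [h, Complex.exp_ofReal_mul_I_re]

lemma inj_e0 : inner ℂ e0 e0 = (1 : ℂ) := by
  have : ‖e0‖ = 1 := by
    unfold e0
    simp
  rw [inner_self_eq_norm_sq_to_K, this]
  simp

lemma inj_disc (Φ Ψ : ℂ → E) (h : Good Φ Ψ) (a b : ℂ) :
    inner ℂ (disc Φ a) (disc Φ b) = 9/25 * ((starRingEnd ℂ) a * b) + 16/25 * inner ℂ (Φ a) (Φ b) := by
  have h1 : inner ℂ (Φ a) e0 = (0 : ℂ) := by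
    rw [← inner_conj_symm, h.eΦ a, map_zero]
  unfold disc
  simp only [inner_add_left, inner_add_right, inner_smul_left, inner_smul_right, h.eΦ b, h1, inj_e0,
    map_mul, map_div₀, Complex.conj_ofNat, mul_zero, mul_one, zero_add, add_zero]
  ring

theorem inj : TaskTaylor → TaskInj := by
  intro hT Φ Ψ hG
  obtain ⟨C, hC1, hC⟩ := hT Φ Ψ hG
  obtain ⟨l, κ, hl, hκ, hlam⟩ := hG.lam
  have hC0 : 0 < C := by linarith
  set ε : ℝ := l / (2 * C) with hε
  have hε0 : 0 < ε := by positivity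
  have hcomp : IsCompact (Set.Icc (-4 : ℝ) 4 ∩ {x | ε ≤ |x|}) :=
    isCompact_Icc.inter_right (isClosed_le continuous_const continuous_abs)
  obtain ⟨c, hc0, hc⟩ := hcomp.exists_forall_le' (f := fun x : ℝ => 1 - Real.cos x) (a := 0)
    (by fun_prop) (by
      rintro x ⟨⟨h1, h2⟩, h3⟩
      have h3' : ε ≤ |x| := h3
      have hx : x ≠ 0 := by
        intro h
        rw [h, abs_zero] at h3'
        linarith
      have hpi := Real.pi_gt_three
      have hle := Real.cos_le_one x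
      have hne : Real.cos x ≠ 1 := fun h => hx
        ((Real.cos_eq_one_iff_of_lt_of_lt (by linarith) (by linarith)).mp h)
      have := lt_of_le_of_ne hle hne
      linarith)
  refine ⟨max 1 (max (2 / l) (4 / (9/25 * c))), le_max_left _ _, ?_⟩
  rintro θ' ⟨ha, hb⟩ θ ⟨hc', hd⟩
  set x : ℝ := θ - θ' with hx
  set D : ℂ := inner ℂ (disc Φ (ex θ')) (disc Φ (ex θ)) with hD
  have hx4 : x ∈ Set.Icc (-4 : ℝ) 4 := ⟨by rw [hx]; linarith, by rw [hx]; linarith⟩
  have hxa : |x| ≤ 4 := abs_le.mpr hx4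
  by_cases hnear : |x| ≤ ε
  · have h1 := (hC θ' θ).1
    rw [← hD, ← hx] at h1
    have hel := (hlam (ex θ') (inj_ex_norm θ')).1
    have h2 : ‖(Complex.I * (ell Φ (ex θ') : ℂ) * (x : ℂ))‖ = ell Φ (ex θ') * |x| := by
      rw [norm_mul, norm_mul, Complex.norm_I, one_mul, Complex.norm_real, Complex.norm_real,
        Real.norm_eq_abs, Real.norm_eq_abs, abs_of_nonneg (by linarith : 0 ≤ ell Φ (ex θ'))]
    have h3 : ‖(Complex.I * (ell Φ (ex θ') : ℂ) * (x : ℂ))‖ ≤ ‖1 - D‖ + C * |x| ^ 2 := by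
      have e : Complex.I * (ell Φ (ex θ') : ℂ) * (x : ℂ) =
        -(1 - D) - (D - (1 + Complex.I * (ell Φ (ex θ') : ℂ) * (x : ℂ))) := by ring
      calc _ = ‖-(1 - D) - (D - (1 + Complex.I * (ell Φ (ex θ') : ℂ) * (x : ℂ)))‖ := by rw [← e]
        _ ≤ ‖-(1 - D)‖ + ‖D - (1 + Complex.I * (ell Φ (ex θ') : ℂ) * (x : ℂ))‖ := norm_sub_le _ _
        _ ≤ _ := by rw [norm_neg]; linarith
    have h4 : C * |x| ^ 2 ≤ l / 2 * |x| := by
      have : C * |x| ≤ l / 2 := by
        calc C * |x| ≤ C * ε := by gcongr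
          _ = l / 2 := by rw [hε]; field_simp
      calc C * |x| ^ 2 = (C * |x|) * |x| := by ring
        _ ≤ _ := by gcongr
    have h5 : l * |x| ≤ ell Φ (ex θ') * |x| := by
      gcongr
      linarith
    have h6 : l / 2 * |x| ≤ ‖1 - D‖ := by linarith
    have h7 : |x| ≤ 2 / l * ‖1 - D‖ := by
      rw [div_mul_eq_mul_div, le_div_iff₀ hl]
      linarith
    refine h7.trans ?_
    gcongr
    exact (le_max_left _ _).trans (le_max_right _ _)
  · have hfar : ε ≤ |x| := (not_le.mp hnear).le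
    have h1 := hc x ⟨hx4, hfar⟩
    have h2 : (1 - D).re ≥ 9/25 * (1 - Real.cos x) := by
      rw [hD, inj_disc Φ Ψ hG]
      have h3 : (inner ℂ (Φ (ex θ')) (Φ (ex θ)) : ℂ).re ≤ 1 := by
        calc _ ≤ ‖(inner ℂ (Φ (ex θ')) (Φ (ex θ)) : ℂ)‖ := Complex.re_le_norm _
          _ ≤ ‖Φ (ex θ')‖ * ‖Φ (ex θ)‖ := norm_inner_le_norm _ _
          _ = 1 := by rw [hG.nΦ _ (inj_ex_norm _), hG.nΦ _ (inj_ex_norm _), one_mul]
      have h4 := inj_ex_inner θ' θ
      have e1 : ((9 / 25 : ℂ) * ((starRingEnd ℂ) (ex θ') * ex θ)).re =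
          9/25 * ((starRingEnd ℂ) (ex θ') * ex θ).re := by
        rw [show (9 / 25 : ℂ) = ((9 / 25 : ℝ) : ℂ) by push_cast; rfl, Complex.re_ofReal_mul]
      have e2 : ((16 / 25 : ℂ) * (inner ℂ (Φ (ex θ')) (Φ (ex θ)) : ℂ)).re =
          16/25 * (inner ℂ (Φ (ex θ')) (Φ (ex θ)) : ℂ).re := by
        rw [show (16 / 25 : ℂ) = ((16 / 25 : ℝ) : ℂ) by push_cast; rfl, Complex.re_ofReal_mul]
      rw [Complex.sub_re, Complex.add_re, Complex.one_re, e1, e2, h4]
      linarith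
    have h5 : 9/25 * c ≤ ‖1 - D‖ := by
      have := Complex.re_le_norm (1 - D)
      linarith
    have h6 : |x| ≤ 4 / (9/25 * c) * ‖1 - D‖ := by
      have h9 : 0 < 9/25 * c := by positivity
      rw [div_mul_eq_mul_div, le_div_iff₀ h9]
      nlinarith [abs_nonneg x]
    refine h6.trans ?_
    gcongr
    exact (le_max_right _ _).trans (le_max_right _ _)

end Pool.Agent.H903RN
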