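import Pool.Agent.H903RN.Stmts

set_option autoImplicit false

open Metric MeasureTheory Filter Topology

namespace Pool.Agent.H903RN

namespace LimDiscAux

theorem rho_geo {K : ℕ} {C c : ℝ} {φ : ℕ → ℂ → E} {g : ℕ → Fin K → E → ℂ} {R ρ : ℕ → ℝ}
    (h : SeqData K C c φ g R ρ) (j n : ℕ) : ρ (j + n) ≤ ρ j / 2 ^ n := by
  induction n with
  | zero => simp
  | succ n ih =>
    have h1 := h.ρhalf (j + n)
    have h2 : ρ (j + (n + 1)) ≤ ρ (j + n) / 2 := h1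
    calc ρ (j + (n + 1)) ≤ ρ (j + n) / 2 := h2
      _ ≤ (ρ j / 2 ^ n) / 2 := by linarith
      _ = ρ j / 2 ^ (n + 1) := by rw [pow_succ]; field_simp

theorem rho_tendsto {K : ℕ} {C c : ℝ} {φ : ℕ → ℂ → E} {g : ℕ → Fin K → E → ℂ} {R ρ : ℕ → ℝ}
    (h : SeqData K C c φ g R ρ) : Tendsto ρ atTop (𝓝 0) := by
  have h1 : ∀ n, ρ n ≤ ρ 0 * (1 / 2) ^ n := by
    intro n
    have := rho_geo h 0 n
    rw [zero_add] at this
    calc ρ n ≤ ρ 0 / 2 ^ n := this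
      _ = ρ 0 * (1 / 2) ^ n := by rw [one_div, inv_pow, div_eq_mul_inv]
  have h2 : Tendsto (fun n : ℕ => ρ 0 * (1 / 2 : ℝ) ^ n) atTop (𝓝 0) := by
    have := (tendsto_pow_atTop_nhds_zero_of_lt_one (r := (1 / 2 : ℝ)) (by norm_num)
      (by norm_num)).const_mul (ρ 0)
    simpa using this
  exact squeeze_zero (fun n => (h.ρpos n).le) h1 h2

theorem step {K : ℕ} {C c : ℝ} {φ : ℕ → ℂ → E} {g : ℕ → Fin K → E → ℂ} {R ρ : ℕ → ℝ}
    (h : SeqData K C c φ g R ρ) (j : ℕ) (ζ : ℂ) (hζ : ‖ζ‖ ≤ 1) (n : ℕ) :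
    dist (φ (j + n) ζ) (φ (j + (n + 1)) ζ) ≤ (ρ j / 2) / 2 / 2 ^ n := by
  rw [dist_comm, dist_eq_norm]
  have h1 := h.close (j + n) ζ hζ
  have h2 := rho_geo h j n
  calc ‖φ (j + (n + 1)) ζ - φ (j + n) ζ‖ ≤ ρ (j + n) / 4 := h1
    _ ≤ (ρ j / 2 ^ n) / 4 := by linarith
    _ = (ρ j / 2) / 2 / 2 ^ n := by field_simp; norm_num

end LimDiscAux

open LimDiscAux

theorem limDisc : TaskLimDisc := by
  intro hD K C c φ g R ρ h
  have hlim : ∀ ζ : ℂ, ∃ L : E, ‖ζ‖ ≤ 1 → Tendsto (fun j => φ j ζ) atTop (𝓝 L) := by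
    intro ζ
    by_cases hζ : ‖ζ‖ ≤ 1
    · have hc : CauchySeq (fun n => φ (0 + n) ζ) :=
        cauchySeq_of_le_geometric_two (C := ρ 0 / 2) (fun n => step h 0 ζ hζ n)
      obtain ⟨L, hL⟩ := cauchySeq_tendsto_of_complete hc
      refine ⟨L, fun _ => ?_⟩
      simpa using hL
    · exact ⟨0, fun h' => absurd h' hζ⟩
  choose φi hφi using hlim
  have hbd : ∀ j, ∀ ζ : ℂ, ‖ζ‖ ≤ 1 → ‖φi ζ - φ j ζ‖ ≤ ρ j / 2 := by
    intro j ζ hζ
    have h1 : Tendsto (fun n => φ (j + n) ζ) atTop (𝓝 (φi ζ)) := by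
      have := (tendsto_add_atTop_iff_nat (f := fun j => φ j ζ) j).2 (hφi ζ hζ)
      simpa [add_comm] using this
    have h2 := dist_le_of_le_geometric_two_of_tendsto₀ (C := ρ j / 2)
      (fun n => step h j ζ hζ n) h1
    rw [← dist_eq_norm, dist_comm]
    simpa using h2
  have hunif : TendstoUniformlyOn φ φi atTop (closedBall (0 : ℂ) 1) := by
    rw [Metric.tendstoUniformlyOn_iff]
    intro ε hε
    have h1 := (rho_tendsto h).eventually (gt_mem_nhds hε)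
    filter_upwards [h1] with n hn ζ hζ
    have h2 := hbd n ζ (by simpa using hζ)
    rw [dist_eq_norm]
    have h3 := h.ρpos n
    linarith
  have hdiff : ∀ j, Differentiable ℂ (φ j) := by
    intro j
    obtain ⟨Φ, Ψ, hG, he⟩ := h.good j
    rw [he]
    exact (hD.1 Φ Ψ hG).1
  refine ⟨φi, ?_, ?_, ?_, ?_, ?_, hbd⟩
  · exact hunif.continuousOn (Eventually.frequently
      (Eventually.of_forall fun j => (hdiff j).continuous.continuousOn))
  · have h1 : TendstoLocallyUniformlyOn φ φi atTop (ball (0 : ℂ) 1) :=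
      (hunif.mono ball_subset_closedBall).tendstoLocallyUniformlyOn
    exact h1.differentiableOn (Eventually.of_forall fun j => (hdiff j).differentiableOn)
      isOpen_ball
  · intro ζ hζ
    have h1 : Tendsto (fun j => ‖φ j ζ‖) atTop (𝓝 ‖φi ζ‖) := (hφi ζ hζ.le).norm
    have h2 : (fun j => ‖φ j ζ‖) = fun _ => (1 : ℝ) := by
      funext j
      obtain ⟨Φ, Ψ, hG, he⟩ := h.good j
      rw [he]
      exact (hD.1 Φ Ψ hG).2.1 ζ hζ
    rw [h2] at h1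
    exact (tendsto_nhds_unique h1 tendsto_const_nhds)
  · intro ζ hζ
    have h1 : Tendsto (fun j => ‖φ j ζ‖ ^ 2) atTop (𝓝 (‖φi ζ‖ ^ 2)) := (hφi ζ hζ.le).norm.pow 2
    have h2 : ‖φi ζ‖ ^ 2 ≤ 9/25 * ‖ζ‖^2 + 16/25 := by
      refine le_of_tendsto h1 (Eventually.of_forall fun j => ?_)
      obtain ⟨Φ, Ψ, hG, he⟩ := h.good j
      rw [he]
      exact (hD.1 Φ Ψ hG).2.2.1 ζ hζ.le
    have h3 : ‖ζ‖ ^ 2 < 1 := by
      have := norm_nonneg ζ
      nlinarith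
    have h4 : ‖φi ζ‖ ^ 2 < 1 := by linarith
    have h5 := norm_nonneg (φi ζ)
    nlinarith
  · have h1 : Tendsto (fun j => φ j 0) atTop (𝓝 (φi 0)) := hφi 0 (by simp)
    have h2 : (fun j => φ j 0) = fun _ => (0 : E) := by
      funext j
      obtain ⟨Φ, Ψ, hG, he⟩ := h.good j
      rw [he]
      exact (hD.1 Φ Ψ hG).2.2.2
    rw [h2] at h1
    exact (tendsto_nhds_unique h1 tendsto_const_nhds)

end Pool.Agent.H903RN
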