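import Pool.Agent.H903RN.Stmts

/-!
Project H903-RN, task T9 (Lower), by helper780.
-/

set_option autoImplicit false

open Metric MeasureTheory Filter Topology

namespace Pool.Agent.H903RN

namespace LowerAux

theorem key (t A ρ y : ℝ) (M : ℕ) (z1 w ζn : ℂ) (ht : 0 < t) (ht1 : t ≤ 1/10)
    (hA : 0 ≤ A) (hAt : A * t ≤ 1/100) (hρ1 : 1 - 16/25 * t^2 ≤ ρ) (hρ2 : ρ ≤ 1 - 8/25 * t^2)
    (hz : ‖z1 - (ρ : ℂ) * Complex.exp (Complex.I * (y : ℂ))‖ ≤ A * t^3) (hy : |y| ≤ t^2)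
    (hw : ‖(ρ : ℂ)^M * (w / (t : ℂ)) - (4/5 : ℂ) * ζn * z1^M‖ ≤ A * t) (hζ : ‖ζn‖ = 1)
    (hM1 : (M : ℝ) * t^2 ≤ 1) (hM2 : 1/2 - t^2 ≤ (M : ℝ) * t^2) :
    1/8000 ≤ ‖((1 + (1 - ((1 - 2 * t^2 : ℝ) : ℂ) * z1) / (t : ℂ)^2)⁻¹)^4 *
      ((ρ : ℂ)^M * (((1 - 2 * t^2 : ℝ) : ℂ) * w / (t : ℂ))
        - (4/5 : ℂ) * ζn * (((1 - 2 * t^2 : ℝ) : ℂ) * z1)^M)‖ ∧
    ‖1 - ((1 - 2 * t^2 : ℝ) : ℂ) * z1‖ / t^2 ≤ 4 := by
  have ht2 : 0 < t^2 := by positivity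
  have ht2' : t^2 ≤ 1/100 := by nlinarith
  have hAt3 : A * t^3 ≤ 1/100 * t^2 := by
    have : A * t^3 = (A * t) * t^2 := by ring
    rw [this]; exact mul_le_mul_of_nonneg_right hAt ht2.le
  have hρ0 : 0 ≤ ρ := by nlinarith
  set e : ℂ := Complex.exp (Complex.I * (y : ℂ)) with he
  have he1 : ‖e‖ = 1 := by
    rw [he, mul_comm]; exact Complex.norm_exp_ofReal_mul_I y
  have he2 : ‖e - 1‖ ≤ t^2 := by
    refine le_trans ?_ hy
    have := Real.norm_exp_I_mul_ofReal_sub_one_le (x := y)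
    rw [Real.norm_eq_abs] at this
    exact this
  have hρe : ‖(ρ : ℂ) * e‖ = ρ := by
    rw [norm_mul, he1, mul_one, Complex.norm_real, Real.norm_eq_abs, abs_of_nonneg hρ0]
  have hz_up : ‖z1‖ ≤ 1 := by
    have h1 : ‖z1‖ ≤ ‖z1 - (ρ : ℂ) * e‖ + ‖(ρ : ℂ) * e‖ := by
      calc ‖z1‖ = ‖(z1 - (ρ : ℂ) * e) + (ρ : ℂ) * e‖ := by ring_nf
        _ ≤ _ := norm_add_le _ _
    rw [hρe] at h1
    nlinarith
  have hz_lo : 1 - 13/20 * t^2 ≤ ‖z1‖ := by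
    have h1 : ‖(ρ : ℂ) * e‖ ≤ ‖z1 - (ρ : ℂ) * e‖ + ‖z1‖ := by
      calc ‖(ρ : ℂ) * e‖ = ‖z1 - (z1 - (ρ : ℂ) * e)‖ := by ring_nf
        _ ≤ ‖z1‖ + ‖z1 - (ρ : ℂ) * e‖ := norm_sub_le _ _
        _ = _ := by ring
    rw [hρe] at h1
    nlinarith
  have h1z : ‖1 - z1‖ ≤ 16/25 * t^2 + t^2 + 1/100 * t^2 := by
    have h1 : (1 : ℂ) - z1 = ((1 - ρ : ℝ) : ℂ) + (-((ρ : ℂ) * (e - 1))) + (-(z1 - (ρ : ℂ) * e)) := by
      push_cast; ring
    have h2 : ‖((1 - ρ : ℝ) : ℂ)‖ ≤ 16/25 * t^2 := by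
      rw [Complex.norm_real, Real.norm_eq_abs, abs_of_nonneg (by nlinarith)]; linarith
    have h3 : ‖-((ρ : ℂ) * (e - 1))‖ ≤ t^2 := by
      rw [norm_neg, norm_mul, Complex.norm_real, Real.norm_eq_abs, abs_of_nonneg hρ0]
      calc ρ * ‖e - 1‖ ≤ 1 * t^2 := by
            apply mul_le_mul _ he2 (norm_nonneg _) zero_le_one
            nlinarith
        _ = t^2 := one_mul _
    have h4 : ‖-(z1 - (ρ : ℂ) * e)‖ ≤ 1/100 * t^2 := by
      rw [norm_neg]; exact hz.trans hAt3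
    rw [h1]
    calc _ ≤ ‖((1 - ρ : ℝ) : ℂ) + (-((ρ : ℂ) * (e - 1)))‖ + ‖-(z1 - (ρ : ℂ) * e)‖ := norm_add_le _ _
      _ ≤ ‖((1 - ρ : ℝ) : ℂ)‖ + ‖-((ρ : ℂ) * (e - 1))‖ + ‖-(z1 - (ρ : ℂ) * e)‖ := by
          gcongr; exact norm_add_le _ _
      _ ≤ _ := by linarith
  set r : ℝ := 1 - 2 * t^2 with hr
  have hr0 : 0 ≤ r := by rw [hr]; linarith
  have hr1 : r ≤ 1 := by rw [hr]; linarith
  have hrz : ‖1 - (r : ℂ) * z1‖ ≤ 4 * t^2 := by
    have h1 : (1 : ℂ) - (r : ℂ) * z1 = (1 - z1) + ((2 * t^2 : ℝ) : ℂ) * z1 := by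
      rw [hr]; push_cast; ring
    have h2 : ‖((2 * t^2 : ℝ) : ℂ) * z1‖ ≤ 2 * t^2 := by
      rw [norm_mul, Complex.norm_real, Real.norm_eq_abs, abs_of_nonneg (by positivity)]
      nlinarith [norm_nonneg z1]
    rw [h1]
    calc _ ≤ ‖1 - z1‖ + ‖((2 * t^2 : ℝ) : ℂ) * z1‖ := norm_add_le _ _
      _ ≤ _ := by linarith
  have hW : ‖1 - (r : ℂ) * z1‖ / t^2 ≤ 4 := by rw [div_le_iff₀ ht2]; exact hrz
  refine ⟨?_, hW⟩
  -- the factor `1 + W`
  set W : ℂ := (1 - (r : ℂ) * z1) / (t : ℂ)^2 with hWd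
  have hWn : ‖W‖ ≤ 4 := by
    rw [hWd, norm_div, norm_pow, Complex.norm_real, Real.norm_eq_abs, abs_of_pos ht]; exact hW
  have hWre : 0 ≤ W.re := by
    have h1 : W = ((t^2)⁻¹ : ℝ) * (1 - (r : ℂ) * z1) := by
      rw [hWd]; push_cast; field_simp
    rw [h1, Complex.re_ofReal_mul]
    apply mul_nonneg (by positivity)
    rw [Complex.sub_re, Complex.one_re, Complex.re_ofReal_mul]
    have h2 : z1.re ≤ 1 := (Complex.re_le_norm z1).trans hz_up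
    nlinarith
  have hne : (1 + W) ≠ 0 := by
    intro h
    have := congrArg Complex.re h
    rw [Complex.add_re, Complex.one_re, Complex.zero_re] at this
    linarith
  have hn5 : ‖1 + W‖ ≤ 5 := by
    calc _ ≤ ‖(1 : ℂ)‖ + ‖W‖ := norm_add_le _ _
      _ ≤ 5 := by rw [norm_one]; linarith
  have hinv : 1/5 ≤ ‖(1 + W)⁻¹‖ := by
    rw [norm_inv, ← one_div]
    exact one_div_le_one_div_of_le (norm_pos_iff.2 hne) hn5
  have hinv4 : 1/625 ≤ ‖((1 + W)⁻¹)^4‖ := by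
    rw [norm_pow]
    calc (1/625 : ℝ) = (1/5)^4 := by norm_num
      _ ≤ _ := pow_le_pow_left₀ (by norm_num) hinv 4
  -- the numerator
  have hzM : 7/20 ≤ ‖z1‖^M := by
    have h1 : 1 + (M : ℝ) * (-(13/20 * t^2)) ≤ (1 + (-(13/20 * t^2)))^M :=
      one_add_mul_le_pow (by nlinarith) M
    have h2 : (1 + (-(13/20 * t^2)))^M ≤ ‖z1‖^M :=
      pow_le_pow_left₀ (by nlinarith) (by linarith) M
    nlinarith
  have hrM : r^M ≤ 51/100 := by
    have h1 : 1 + (M : ℝ) * (2 * t^2) ≤ (1 + 2 * t^2)^M :=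
      one_add_mul_le_pow (by nlinarith) M
    have h2 : r^M * (1 + 2 * t^2)^M ≤ 1 := by
      rw [← mul_pow]
      apply pow_le_one₀
      · apply mul_nonneg hr0; positivity
      · rw [hr]; nlinarith
    have h3 : 0 ≤ r^M := pow_nonneg hr0 M
    have h4 : r^M * (1 + (M : ℝ) * (2 * t^2)) ≤ 1 := (mul_le_mul_of_nonneg_left h1 h3).trans h2
    have h5 : (198/100 : ℝ) ≤ 1 + (M : ℝ) * (2 * t^2) := by nlinarith
    have h6 : r^M * (198/100) ≤ 1 := (mul_le_mul_of_nonneg_left h5 h3).trans h4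
    linarith
  have hnum : 1/10 ≤ ‖(ρ : ℂ)^M * ((r : ℂ) * w / (t : ℂ)) - (4/5 : ℂ) * ζn * ((r : ℂ) * z1)^M‖ := by
    have h1 : (ρ : ℂ)^M * ((r : ℂ) * w / (t : ℂ)) - (4/5 : ℂ) * ζn * ((r : ℂ) * z1)^M
        = ((4/5 * (r - r^M) : ℝ) : ℂ) * (ζn * z1^M) -
          (-((r : ℂ) * ((ρ : ℂ)^M * (w / (t : ℂ)) - (4/5 : ℂ) * ζn * z1^M))) := by
      push_cast; ring
    have h2 : ‖((4/5 * (r - r^M) : ℝ) : ℂ) * (ζn * z1^M)‖ = 4/5 * (r - r^M) * ‖z1‖^M := by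
      rw [norm_mul, norm_mul, hζ, norm_pow, Complex.norm_real, Real.norm_eq_abs,
        abs_of_nonneg, one_mul]
      rw [hr] at hrM ⊢
      nlinarith
    have h3 : ‖-((r : ℂ) * ((ρ : ℂ)^M * (w / (t : ℂ)) - (4/5 : ℂ) * ζn * z1^M))‖ ≤ 1/100 := by
      rw [norm_neg, norm_mul, Complex.norm_real, Real.norm_eq_abs, abs_of_nonneg hr0]
      calc _ ≤ 1 * (A * t) := mul_le_mul hr1 hw (norm_nonneg _) zero_le_one
        _ ≤ 1/100 := by linarith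
    rw [h1]
    have h4 := norm_sub_norm_le (((4/5 * (r - r^M) : ℝ) : ℂ) * (ζn * z1^M))
      (-((r : ℂ) * ((ρ : ℂ)^M * (w / (t : ℂ)) - (4/5 : ℂ) * ζn * z1^M)))
    rw [h2] at h4
    have h5 : (47/100 : ℝ) ≤ r - r^M := by rw [hr] at hrM ⊢; nlinarith
    have h6 : (4/5 * (47/100) * (7/20) : ℝ) ≤ 4/5 * (r - r^M) * ‖z1‖^M := by
      apply mul_le_mul _ hzM (by norm_num) (by linarith)
      linarith
    nlinarith
  rw [norm_mul]
  calc (1/8000 : ℝ) ≤ 1/625 * (1/10) := by norm_num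
    _ ≤ _ := mul_le_mul hinv4 hnum (by norm_num) (norm_nonneg _)

end LowerAux

theorem lower : TaskCore → TaskLower := by
  intro hcore Φ Ψ hG l κ hlam
  obtain ⟨C, hC1, n0, hn0⟩ := hcore Φ Ψ hG l κ hlam
  obtain ⟨hl, hκ, hell⟩ := hlam
  set A : ℝ := C * (1 / (2 * l) + 1 / (4 * l^2)) with hAdef
  have hC0 : 0 < C := by linarith
  have hA : 0 < A := by positivity
  -- choose n large
  set ε : ℝ := min (1/10) (1 / (100 * A)) with hε
  have hε0 : 0 < ε := by rw [hε]; positivity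
  obtain ⟨n1, hn1⟩ := exists_nat_gt (l / ε^2)
  refine ⟨max n0 (n1 + 1), fun n hn θ' θ hθ => ?_⟩
  have hnn0 : n0 ≤ n := (le_max_left _ _).trans hn
  have hnn1 : n1 + 1 ≤ n := (le_max_right _ _).trans hn
  have hnpos : (0 : ℝ) < n := by
    have : 0 < n := by omega
    exact_mod_cast this
  set t : ℝ := tt l n with htd
  have ht2 : t^2 = l / n := by
    rw [htd, tt, Real.sq_sqrt (by positivity)]
  have ht : 0 < t := by rw [htd, tt]; exact Real.sqrt_pos.2 (by positivity)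
  have hn1' : (n1 : ℝ) < n := by exact_mod_cast hnn1
  have hte : t ≤ ε := by
    apply le_of_sq_le_sq _ hε0.le
    rw [ht2, div_le_iff₀ hnpos]
    have : l / ε^2 < n := hn1.trans hn1'
    rw [div_lt_iff₀ (by positivity)] at this
    linarith
  have ht1 : t ≤ 1/10 := hte.trans (min_le_left _ _)
  have hAt : A * t ≤ 1/100 := by
    have h1 : t ≤ 1 / (100 * A) := hte.trans (min_le_right _ _)
    rw [le_div_iff₀ (by positivity)] at h1
    linarith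
  have hx : |θ - θ'| ≤ t^2 / (2 * l) := by
    refine hθ.trans (le_of_eq ?_)
    rw [ht2]; field_simp
  have hxn : 0 ≤ |θ - θ'| := abs_nonneg _
  obtain ⟨hc1, hc2⟩ := hn0 n hnn0 θ' θ
  obtain ⟨hL1, hL2⟩ := hell (ex θ') (by rw [ex]; exact Complex.norm_exp_ofReal_mul_I θ')
  set L : ℝ := ell Φ (ex θ') with hLd
  have hLpos : 0 < L := by linarith
  -- errors
  have ht_le1 : t ≤ 1 := by linarith
  have herr2 : C * (|θ - θ'| / t + |θ - θ'|^2 / t^2) ≤ A * t := by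
    have h1 : |θ - θ'| / t ≤ t / (2 * l) := by
      rw [div_le_iff₀ ht]
      calc |θ - θ'| ≤ t^2 / (2 * l) := hx
        _ = t / (2 * l) * t := by ring
    have h2 : |θ - θ'|^2 / t^2 ≤ t / (4 * l^2) := by
      rw [div_le_iff₀ (by positivity)]
      calc |θ - θ'|^2 ≤ (t^2 / (2 * l))^2 := pow_le_pow_left₀ hxn hx 2
        _ = t * (t / (4 * l^2) * t^2) := by field_simp; ring
        _ ≤ 1 * (t / (4 * l^2) * t^2) := mul_le_mul_of_nonneg_right ht_le1 (by positivity)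
        _ = _ := one_mul _
    calc _ ≤ C * (t / (2 * l) + t / (4 * l^2)) := by gcongr
      _ = A * t := by rw [hAdef]; ring
  have herr1 : C * (|θ - θ'|^2 + t * |θ - θ'|) ≤ A * t^3 := by
    have h : C * (|θ - θ'|^2 + t * |θ - θ'|) =
        C * (|θ - θ'| / t + |θ - θ'|^2 / t^2) * t^2 := by field_simp; ring
    rw [h]
    calc _ ≤ A * t * t^2 := mul_le_mul_of_nonneg_right herr2 (by positivity)
      _ = A * t^3 := by ring
  -- the exponent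
  set M : ℕ := MM Φ n θ' with hMd
  have hnL : (n : ℝ) / L = (l / L) / t^2 := by rw [ht2]; field_simp
  have hM1 : (M : ℝ) * t^2 ≤ 1 := by
    have h1 : (M : ℝ) ≤ (n : ℝ) / L := by rw [hMd, MM]; exact Nat.floor_le (by positivity)
    calc (M : ℝ) * t^2 ≤ (n : ℝ) / L * t^2 := mul_le_mul_of_nonneg_right h1 (by positivity)
      _ = l / L := by rw [ht2]; field_simp
      _ ≤ 1 := by rw [div_le_one hLpos]; linarith
  have hM2 : 1/2 - t^2 ≤ (M : ℝ) * t^2 := by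
    have h1 : (n : ℝ) / L - 1 ≤ (M : ℝ) := by
      have := Nat.lt_floor_add_one ((n : ℝ) / L)
      rw [hMd, MM]; linarith
    have h2 : ((n : ℝ) / L - 1) * t^2 ≤ (M : ℝ) * t^2 :=
      mul_le_mul_of_nonneg_right h1 (by positivity)
    have h3 : (n : ℝ) / L * t^2 = l / L := by rw [ht2]; field_simp
    have h4 : (1/2 : ℝ) ≤ l / L := by rw [le_div_iff₀ hLpos]; linarith
    nlinarith
  -- rr bounds
  have hs2 : Real.sqrt (1 - t^2) ≤ 1 - t^2 / 2 := by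
    rw [show (1 : ℝ) - t^2/2 = Real.sqrt ((1 - t^2/2)^2) from (Real.sqrt_sq (by nlinarith)).symm]
    apply Real.sqrt_le_sqrt; nlinarith [sq_nonneg (t^2)]
  have hs1 : 1 - t^2 ≤ Real.sqrt (1 - t^2) := by
    have h0 : 0 ≤ 1 - t^2 := by nlinarith
    rw [show (1 : ℝ) - t^2 = Real.sqrt ((1 - t^2)^2) from (Real.sqrt_sq h0).symm]
    apply Real.sqrt_le_sqrt
    rw [Real.sqrt_sq h0]; nlinarith [sq_nonneg t]
  have hkey := LowerAux.key t A (rr t) (L * (θ - θ')) M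
    (inner ℂ (disc Φ (ex θ')) (eta Φ Ψ t n θ)) (inner ℂ (Ψ (ex θ')) (eta Φ Ψ t n θ))
    ((ex θ')^n) ht ht1 hA.le hAt (by rw [rr]; linarith) (by rw [rr]; linarith) ?_ ?_ ?_ ?_ hM1 hM2
  · obtain ⟨hk1, hk2⟩ := hkey
    refine ⟨?_, ?_⟩
    · rw [G, inner_smul_right, inner_smul_right]
      exact hk1
    · rw [inner_smul_right]
      exact hk2
  · refine le_trans (le_of_eq ?_) (hc1.trans herr1)
    congr 3
    push_cast; ring
  · rw [abs_mul, abs_of_pos hLpos]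
    calc L * |θ - θ'| ≤ (2 * l) * (t^2 / (2 * l)) :=
          mul_le_mul (by linarith) hx hxn (by positivity)
      _ = t^2 := by field_simp
  · exact hc2.trans herr2
  · rw [norm_pow, ex, Complex.norm_exp_ofReal_mul_I, one_pow]

end Pool.Agent.H903RN
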