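import Mathlib
import Pool.Agent.H903RN.Stmts

/-! Task NewGood of the H903-RN project (MP_9f272e_an). -/

set_option autoImplicit false

open Metric MeasureTheory Filter Topology ComplexConjugate

namespace Pool.Agent.H903RN

namespace NewGoodAux

lemma conj_mul_self_of_norm {w : ℂ} (hw : ‖w‖ = 1) : conj w * w = 1 := by
  rw [Complex.conj_mul', hw]
  simp

lemma inner_self_one {P : E} (hP : ‖P‖ = 1) : inner ℂ P P = 1 := by
  rw [inner_self_eq_norm_sq_to_K, hP]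
  simp

lemma orth_comm {P S : E} (h : inner ℂ P S = 0) : inner ℂ S P = 0 := by
  rw [← inner_conj_symm, h, map_zero]

lemma inner_comb {P S X Y : E} (a b x y : ℂ) :
    inner ℂ (a • P + b • S) (x • X + y • Y) =
      conj a * x * inner ℂ P X + conj a * y * inner ℂ P Y
      + conj b * x * inner ℂ S X + conj b * y * inner ℂ S Y := by
  simp only [inner_add_left, inner_add_right, inner_smul_left, inner_smul_right]
  ring

lemma norm_new {P S : E} (hP : ‖P‖ = 1) (hS : ‖S‖ = 1) (hPS : inner ℂ P S = 0)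
    {w : ℂ} (hw : ‖w‖ = 1) {c t : ℝ} (hct : c ^ 2 + t ^ 2 = 1) :
    ‖(c : ℂ) • P + ((t : ℂ) * w) • S‖ = 1 := by
  have h1 : inner ℂ ((c : ℂ) • P + ((t : ℂ) * w) • S) ((c : ℂ) • P + ((t : ℂ) * w) • S) = 1 := by
    rw [inner_comb, inner_self_one hP, inner_self_one hS, hPS, orth_comm hPS]
    have h2 := conj_mul_self_of_norm hw
    have h3 : ((c : ℂ)) ^ 2 + (t : ℂ) ^ 2 = 1 := by exact_mod_cast hct
    simp only [map_mul, Complex.conj_ofReal]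
    linear_combination h3 + (t : ℂ) ^ 2 * h2
  have h2 : ‖(c : ℂ) • P + ((t : ℂ) * w) • S‖ ^ 2 = 1 := by
    rw [norm_sq_eq_re_inner (𝕜 := ℂ), h1]
    simp
  nlinarith [norm_nonneg ((c : ℂ) • P + ((t : ℂ) * w) • S)]

lemma norm_new' {P S : E} (hP : ‖P‖ = 1) (hS : ‖S‖ = 1) (hPS : inner ℂ P S = 0)
    {w : ℂ} (hw : ‖w‖ = 1) {c t : ℝ} (hct : c ^ 2 + t ^ 2 = 1) :
    ‖(-(t : ℂ)) • P + ((c : ℂ) * w) • S‖ = 1 := by
  have := norm_new (c := -t) (t := c) hP hS hPS hw (by nlinarith)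
  simpa using this

lemma orth_new {P S : E} (hP : ‖P‖ = 1) (hS : ‖S‖ = 1) (hPS : inner ℂ P S = 0)
    {w : ℂ} (hw : ‖w‖ = 1) {c t : ℝ} :
    inner ℂ ((c : ℂ) • P + ((t : ℂ) * w) • S) ((-(t : ℂ)) • P + ((c : ℂ) * w) • S) = 0 := by
  rw [inner_comb, inner_self_one hP, inner_self_one hS, hPS, orth_comm hPS]
  have h2 := conj_mul_self_of_norm hw
  simp only [map_mul, Complex.conj_ofReal]
  linear_combination ((t : ℂ) * c) * h2

lemma inner_new {P S P' S' : E} (hS : ‖S‖ = 1) (hPS : inner ℂ P S = 0)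
    {w : ℂ} (hw : ‖w‖ = 1) {c t : ℝ} (hct : c ^ 2 + t ^ 2 = 1) (N : ℂ) :
    inner ℂ ((c : ℂ) • P + ((t : ℂ) * w) • S)
      ((c : ℂ) • P' + (((t : ℂ) * N * w) • S + ((t : ℂ) * w) • S')) =
      inner ℂ P P' + (t : ℂ) ^ 2 * N
      + (-(t : ℂ) ^ 2 * inner ℂ P P' + (c : ℂ) * t * w * inner ℂ P S'
        + (c : ℂ) * t * conj w * inner ℂ S P' + (t : ℂ) ^ 2 * inner ℂ S S') := by
  have h2 := conj_mul_self_of_norm hw
  have h3 : ((c : ℂ)) ^ 2 + (t : ℂ) ^ 2 = 1 := by exact_mod_cast hct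
  simp only [inner_add_left, inner_add_right, inner_smul_left, inner_smul_right, map_mul,
    Complex.conj_ofReal, hPS, inner_self_one hS]
  linear_combination (inner ℂ P P') * h3 + ((t : ℂ) ^ 2 * N + (t : ℂ) ^ 2 * inner ℂ S S') * h2

lemma new_bound {P S P' S' : E} (hP : ‖P‖ = 1) (hS : ‖S‖ = 1) (hPS : inner ℂ P S = 0)
    {w : ℂ} (hw : ‖w‖ = 1) {c t : ℝ} (hct : c ^ 2 + t ^ 2 = 1) (ht : 0 ≤ t) (hc : 0 ≤ c)
    (ht1 : t ≤ 1) (hc1 : c ≤ 1) (N : ℝ) {B : ℝ} (hP' : ‖P'‖ ≤ B) (hS' : ‖S'‖ ≤ B) :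
    |(inner ℂ ((c : ℂ) • P + ((t : ℂ) * w) • S)
      ((c : ℂ) • P' + (((t : ℂ) * N * w) • S + ((t : ℂ) * w) • S'))).re
      - ((inner ℂ P P').re + t ^ 2 * N)| ≤ 4 * B * t := by
  rw [inner_new hS hPS hw hct (N : ℂ)]
  set R : ℂ := (-(t : ℂ) ^ 2 * inner ℂ P P' + (c : ℂ) * t * w * inner ℂ P S'
        + (c : ℂ) * t * conj w * inner ℂ S P' + (t : ℂ) ^ 2 * inner ℂ S S') with hR
  have hB : 0 ≤ B := (norm_nonneg _).trans hP'
  have e1 : ‖inner ℂ P P'‖ ≤ B := (norm_inner_le_norm _ _).trans (by rw [hP, one_mul]; exact hP')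
  have e2 : ‖inner ℂ P S'‖ ≤ B := (norm_inner_le_norm _ _).trans (by rw [hP, one_mul]; exact hS')
  have e3 : ‖inner ℂ S P'‖ ≤ B := (norm_inner_le_norm _ _).trans (by rw [hS, one_mul]; exact hP')
  have e4 : ‖inner ℂ S S'‖ ≤ B := (norm_inner_le_norm _ _).trans (by rw [hS, one_mul]; exact hS')
  have htt : t ^ 2 ≤ t := by nlinarith
  have hctt : c * t ≤ t := by nlinarith
  have f1 : ‖-(t : ℂ) ^ 2 * inner ℂ P P'‖ ≤ t * B := by
    rw [norm_mul, norm_neg, norm_pow, Complex.norm_real, Real.norm_of_nonneg ht]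
    exact mul_le_mul htt e1 (norm_nonneg _) ht
  have f2 : ‖(c : ℂ) * t * w * inner ℂ P S'‖ ≤ t * B := by
    rw [norm_mul, norm_mul, norm_mul, hw, Complex.norm_real, Complex.norm_real,
      Real.norm_of_nonneg ht, Real.norm_of_nonneg hc, mul_one]
    exact mul_le_mul hctt e2 (norm_nonneg _) ht
  have f3 : ‖(c : ℂ) * t * conj w * inner ℂ S P'‖ ≤ t * B := by
    rw [norm_mul, norm_mul, norm_mul, RCLike.norm_conj, hw, Complex.norm_real, Complex.norm_real,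
      Real.norm_of_nonneg ht, Real.norm_of_nonneg hc, mul_one]
    exact mul_le_mul hctt e3 (norm_nonneg _) ht
  have f4 : ‖(t : ℂ) ^ 2 * inner ℂ S S'‖ ≤ t * B := by
    rw [norm_mul, norm_pow, Complex.norm_real, Real.norm_of_nonneg ht]
    exact mul_le_mul htt e4 (norm_nonneg _) ht
  have hRn : ‖R‖ ≤ 4 * B * t := by
    calc ‖R‖ ≤ ‖-(t : ℂ) ^ 2 * inner ℂ P P'‖ + ‖(c : ℂ) * t * w * inner ℂ P S'‖
          + ‖(c : ℂ) * t * conj w * inner ℂ S P'‖ + ‖(t : ℂ) ^ 2 * inner ℂ S S'‖ := norm_add₄_le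
      _ ≤ 4 * B * t := by linarith
  have hre : (inner ℂ P P' + (t : ℂ) ^ 2 * (N : ℂ) + R).re - ((inner ℂ P P').re + t ^ 2 * N)
      = R.re := by
    have : ((t : ℂ) ^ 2 * (N : ℂ)).re = t ^ 2 * N := by
      rw [← Complex.ofReal_pow, ← Complex.ofReal_mul, Complex.ofReal_re]
    rw [Complex.add_re, Complex.add_re, this]
    ring
  rw [hre]
  exact (Complex.abs_re_le_norm R).trans hRn

end NewGoodAux

open NewGoodAux in
theorem newGood : TaskNewGood := by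
  intro Φ Ψ hG
  obtain ⟨l, κ, hl, hκ, hlam⟩ := hG.lam
  have cΦ : Continuous (deriv Φ) := (hG.dΦ.contDiff (n := 1)).continuous_deriv le_rfl
  have cΨ : Continuous (deriv Ψ) := (hG.dΨ.contDiff (n := 1)).continuous_deriv le_rfl
  obtain ⟨B1, hB1⟩ := (isCompact_sphere (0 : ℂ) 1).exists_bound_of_continuousOn cΦ.continuousOn
  obtain ⟨B2, hB2⟩ := (isCompact_sphere (0 : ℂ) 1).exists_bound_of_continuousOn cΨ.continuousOn
  set B : ℝ := max B1 B2 with hBdef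
  have hB0 : 0 ≤ B := by
    have : ‖deriv Φ 1‖ ≤ B1 := hB1 1 (by simp)
    exact (norm_nonneg _).trans (this.trans (le_max_left _ _))
  refine ⟨min (1/2) (κ / (6 * B + 1)), by positivity, ?_⟩
  intro t ht htlt n hn
  have ht2 : t < 1 / 2 := lt_of_lt_of_le htlt (min_le_left _ _)
  have ht3 : t * (6 * B + 1) < κ := by
    have := lt_of_lt_of_le htlt (min_le_right _ _)
    rwa [lt_div_iff₀ (by positivity)] at this
  set c : ℝ := Real.sqrt (1 - t ^ 2) with hc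
  have hct : c ^ 2 + t ^ 2 = 1 := by
    rw [hc, Real.sq_sqrt (by nlinarith)]
    ring
  have hc0 : 0 ≤ c := Real.sqrt_nonneg _
  have hc1 : c ≤ 1 := by nlinarith
  have hpow : ∀ ζ : ℂ, ‖ζ‖ = 1 → ‖ζ ^ n‖ = 1 := fun ζ hζ => by rw [norm_pow, hζ, one_pow]
  refine ⟨?_, ?_, ?_, ?_, ?_, ?_, ?_, ?_, ?_⟩
  · have h1 := hG.dΦ
    have h2 := hG.dΨ
    unfold newΦ
    fun_prop
  · have h1 := hG.dΦ
    have h2 := hG.dΨ
    unfold newΨ
    fun_prop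
  · intro ζ hζ
    exact norm_new (hG.nΦ ζ hζ) (hG.nΨ ζ hζ) (hG.orth ζ hζ) (hpow ζ hζ) hct
  · intro ζ hζ
    exact norm_new' (hG.nΦ ζ hζ) (hG.nΨ ζ hζ) (hG.orth ζ hζ) (hpow ζ hζ) hct
  · intro ζ hζ
    exact orth_new (hG.nΦ ζ hζ) (hG.nΨ ζ hζ) (hG.orth ζ hζ) (hpow ζ hζ)
  · intro ζ
    simp only [newΦ, inner_add_right, inner_smul_right, hG.eΦ ζ, hG.eΨ ζ, mul_zero, add_zero]
  · intro ζ
    simp only [newΨ, inner_add_right, inner_smul_right, hG.eΦ ζ, hG.eΨ ζ, mul_zero, add_zero]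
  · simp only [newΦ, hG.zero, smul_zero, zero_add]
    rw [zero_pow (by omega), mul_zero, zero_smul]
  · refine ⟨l + 16 / 25 * (t ^ 2 * n), κ / 2, by positivity, by positivity, ?_⟩
    intro ζ hζ
    have hmem : ζ ∈ sphere (0 : ℂ) 1 := by simp [hζ]
    have hd : deriv (newΦ t n Φ Ψ) ζ =
        (c : ℂ) • deriv Φ ζ + (((t : ℂ) * ζ ^ n) • deriv Ψ ζ
          + ((t : ℂ) * (n * ζ ^ (n - 1))) • Ψ ζ) := by
      have h1 : HasDerivAt (fun z : ℂ => (c : ℂ) • Φ z) ((c : ℂ) • deriv Φ ζ) ζ :=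
        (hG.dΦ ζ).hasDerivAt.const_smul (c : ℂ)
      have h2 : HasDerivAt (fun z : ℂ => ((t : ℂ) * z ^ n)) ((t : ℂ) * (n * ζ ^ (n - 1))) ζ :=
        (hasDerivAt_pow n ζ).const_mul _
      have h3 := h2.smul (hG.dΨ ζ).hasDerivAt
      exact (h1.add h3).deriv
    have hz : ζ * ζ ^ (n - 1) = ζ ^ n := by
      rw [← pow_succ']
      congr 1
      omega
    have hkey : ζ • deriv (newΦ t n Φ Ψ) ζ = (c : ℂ) • (ζ • deriv Φ ζ)
        + (((t : ℂ) * ((n : ℝ) : ℂ) * ζ ^ n) • Ψ ζ + ((t : ℂ) * ζ ^ n) • (ζ • deriv Ψ ζ)) := by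
      rw [hd, ← hz]
      simp only [smul_add, smul_smul, Complex.ofReal_natCast]
      have e1 : ζ * (c : ℂ) = c * ζ := mul_comm _ _
      have e2 : ζ * ((t : ℂ) * (ζ * ζ ^ (n - 1))) = (t : ℂ) * (ζ * ζ ^ (n - 1)) * ζ := by ring
      have e3 : ζ * ((t : ℂ) * (n * ζ ^ (n - 1))) = (t : ℂ) * n * (ζ * ζ ^ (n - 1)) := by ring
      rw [e1, e2, e3]
      congr 1
      exact add_comm _ _
    have hb := new_bound (P' := ζ • deriv Φ ζ) (S' := ζ • deriv Ψ ζ) (hG.nΦ ζ hζ) (hG.nΨ ζ hζ)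
      (hG.orth ζ hζ) (hpow ζ hζ) hct ht.le hc0 (by linarith) hc1 (n : ℝ) (B := B)
      (by rw [norm_smul, hζ, one_mul]; exact (hB1 ζ hmem).trans (le_max_left _ _))
      (by rw [norm_smul, hζ, one_mul]; exact (hB2 ζ hmem).trans (le_max_right _ _))
    have hell : ell (newΦ t n Φ Ψ) ζ = 9/25 + 16/25 *
        (inner ℂ ((c : ℂ) • Φ ζ + ((t : ℂ) * ζ ^ n) • Ψ ζ)
          ((c : ℂ) • (ζ • deriv Φ ζ) + (((t : ℂ) * ((n : ℝ) : ℂ) * ζ ^ n) • Ψ ζ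
            + ((t : ℂ) * ζ ^ n) • (ζ • deriv Ψ ζ)))).re := by
      rw [ell, hkey]
      rfl
    have hell0 : ell Φ ζ = 9/25 + 16/25 * (inner ℂ (Φ ζ) (ζ • deriv Φ ζ)).re := rfl
    obtain ⟨g1, g2⟩ := hlam ζ hζ
    rw [hell0] at g1 g2
    rw [hell]
    rw [abs_le] at hb
    obtain ⟨b1, b2⟩ := hb
    have hn0 : 0 ≤ t ^ 2 * (n : ℝ) := by positivity
    constructor
    · nlinarith
    · nlinarith

end Pool.Agent.H903RN
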