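import Pool.Agent.H903RN.Stmts

/-!
Project H903-RN, task T10 (`TaskOneStep`): the one step lemma assembled from T1, T2, T5, T6, T8, T9.
-/

set_option autoImplicit false

open Metric MeasureTheory Filter Topology

namespace Pool.Agent.H903RN

theorem os_tt_pos {l : ℝ} (hl : 0 < l) {n : ℕ} (hn : 1 ≤ n) : 0 < tt l n := by
  unfold tt
  apply Real.sqrt_pos.mpr
  have : (0 : ℝ) < n := by exact_mod_cast hn
  positivity

theorem os_tt_sq {l : ℝ} (hl : 0 < l) (n : ℕ) : (tt l n)^2 = l / n := by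
  unfold tt
  rw [Real.sq_sqrt]
  positivity

theorem os_tt_small {l : ℝ} (hl : 0 < l) {ε : ℝ} (hε : 0 < ε) :
    ∃ N : ℕ, ∀ n : ℕ, N ≤ n → tt l n < ε := by
  obtain ⟨N, hN⟩ := exists_nat_gt (l / ε^2)
  refine ⟨N, fun n hn => ?_⟩
  have h1 : l / ε^2 < n := lt_of_lt_of_le hN (by exact_mod_cast hn)
  have hε2 : 0 < ε^2 := by positivity
  have hn0 : (0 : ℝ) < n := lt_trans (by positivity) h1
  unfold tt
  rw [Real.sqrt_lt' hε, div_lt_iff₀ hn0]
  rw [div_lt_iff₀ hε2] at h1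
  linarith

theorem os_th_mem {K m a k : ℕ} (ha : a < 2 * K) (hk : k < m) :
    th K m a k ∈ Set.Icc (0:ℝ) 1 := by
  unfold th
  have hK : 0 < K := by omega
  have hm : 0 < m := by omega
  have h1 : a + 2 * K * k ≤ 2 * K * m := by
    have : 2 * K * k + 2 * K ≤ 2 * K * m := by
      have : k + 1 ≤ m := hk
      calc 2 * K * k + 2 * K = 2 * K * (k + 1) := by ring
        _ ≤ 2 * K * m := Nat.mul_le_mul_left _ this
    omega
  have h2 : (0 : ℝ) < ((2 * K * m : ℕ) : ℝ) := by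
    have : 0 < 2 * K * m := by positivity
    exact_mod_cast this
  constructor
  · positivity
  · rw [div_le_one h2]
    exact_mod_cast h1

theorem os_ex_norm (θ : ℝ) : ‖ex θ‖ = 1 := by
  unfold ex
  exact Complex.norm_exp_ofReal_mul_I θ

theorem os_exists_angle (ζ : ℂ) (hζ : ‖ζ‖ = 1) : ∃ θ ∈ Set.Icc (-3:ℝ) 4, ex θ = ζ := by
  have h1 : ex (Complex.arg ζ) = ζ := by
    unfold ex
    have := Complex.norm_mul_exp_arg_mul_I ζ
    rw [hζ] at this
    simpa using this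
  have h2 := Complex.arg_le_pi ζ
  have h3 := Complex.neg_pi_lt_arg ζ
  have h4 := Real.pi_lt_d2
  have h5 := Real.pi_gt_three
  by_cases h : -3 ≤ Complex.arg ζ
  · exact ⟨Complex.arg ζ, ⟨h, by linarith⟩, h1⟩
  · push Not at h
    refine ⟨Complex.arg ζ + 2 * Real.pi, ⟨by linarith, by linarith⟩, ?_⟩
    rw [← h1]
    unfold ex
    have : (((Complex.arg (Complex.exp (((Complex.arg ζ : ℝ) : ℂ) * Complex.I)) : ℝ) : ℂ)) = Complex.arg ζ := by
      have h1' := h1
      unfold ex at h1'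
      rw [h1']
    push_cast
    rw [this]
    rw [add_mul, Complex.exp_add, Complex.exp_two_pi_mul_I, mul_one]

theorem os_sum_le {m k0 : ℕ} (hk0 : k0 < m) (q : ℕ → ℝ) (hq : ∀ k < m, 1 ≤ q k) {S : ℝ}
    (h : ∑ k ∈ (Finset.range m).erase k0, 1 / (q k)^2 ≤ S) :
    ∑ k ∈ Finset.range m, 1 / (q k)^2 ≤ 1 + S := by
  rw [← Finset.add_sum_erase _ _ (Finset.mem_range.mpr hk0)]
  have h1 : 1 / (q k0)^2 ≤ 1 := by
    have := hq k0 hk0
    rw [div_le_one (by positivity)]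
    nlinarith
  linarith

theorem os_cube_le {q : ℝ} (hq : 1 ≤ q) : 3 / q^3 ≤ 3 * (1 / q^2) := by
  have h0 : 0 < q := by linarith
  rw [mul_one_div]
  apply div_le_div_of_nonneg_left (by norm_num) (by positivity)
  nlinarith [sq_nonneg q]

theorem os_cube_far {q A : ℝ} (hA : 0 < A) (hq : A ≤ q) : 3 / q^3 ≤ 3 / A * (1 / q^2) := by
  have h0 : 0 < q := by linarith
  rw [div_mul_div_comm, mul_one]
  apply div_le_div_of_nonneg_left (by norm_num) (by positivity)
  have : 0 < q^2 := by positivity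
  nlinarith

/-- the sum of `1/Q²` over all windows is at most `2` at every point of the ball. -/
theorem os_total (hGeom : TaskGeom) (hSum : TaskSum) {Φ Ψ : ℂ → E} (hg : Good Φ Ψ)
    {l κ : ℝ} (hL : Lam Φ l κ) (hd1 : ∀ ζ : ℂ, ‖ζ‖ = 1 → ‖disc Φ ζ‖ = 1) :
    ∃ m0 : ℕ, ∀ m : ℕ, m0 ≤ m → 1 ≤ m → tt l (20000 * m) < 1 → ∀ a : ℕ, a < 2 * 20000 →
      (∀ z : E, ‖z‖ ≤ 1 →
      ∑ k ∈ Finset.range m, 1 / (Q Φ (tt l (20000 * m)) (th 20000 m a k) z)^2 ≤ 2) ∧
      (∀ z : E, ‖z‖ ≤ 1 → ∀ k0 < m,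
        ‖1 - inner ℂ (disc Φ (ex (th 20000 m a k0))) z‖ / (tt l (20000 * m))^2 ≤ 4 →
        ∑ k ∈ (Finset.range m).erase k0, 1 / (Q Φ (tt l (20000 * m)) (th 20000 m a k) z)^2
          ≤ 1 / 100000) := by
  obtain ⟨m0, hm0⟩ := hSum Φ Ψ hg l κ hL 20000 (by norm_num)
  obtain ⟨hG1, hG2, hG3, hG4⟩ := hGeom
  refine ⟨m0, fun m hm hm1 ht1 a ha => ?_⟩
  set t := tt l (20000 * m) with ht
  have hl : 0 < l := hL.1
  have htpos : 0 < t := os_tt_pos hl (by omega)
  have htsq : t^2 = l / ((20000 * m : ℕ) : ℝ) := os_tt_sq hl _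
  have hnpos : (0 : ℝ) < ((20000 * m : ℕ) : ℝ) := by
    have : 0 < 20000 * m := by omega
    exact_mod_cast this
  have hinv : ∀ x : ℝ, ((20000 * m : ℕ) : ℝ) / l * x = x / t^2 := by
    intro x
    rw [htsq]
    field_simp
  have hun : ∀ k, ‖disc Φ (ex (th 20000 m a k))‖ = 1 := fun k => hd1 _ (os_ex_norm _)
  have hQ1 : ∀ z : E, ‖z‖ ≤ 1 → ∀ k, 1 ≤ Q Φ t (th 20000 m a k) z := fun z hz k =>
    (hG3 Φ Ψ hg t htpos ht1 1 _ z hz).1
  have hQ2 : ∀ z : E, ‖z‖ ≤ 1 → ∀ k,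
      ‖1 - inner ℂ (disc Φ (ex (th 20000 m a k))) z‖ / t^2 ≤ Q Φ t (th 20000 m a k) z :=
    fun z hz k => (hG3 Φ Ψ hg t htpos ht1 1 _ z hz).2.1
  constructor
  · intro z hz
    obtain ⟨k0, hk0, hmin⟩ := Finset.exists_min_image (Finset.range m)
      (fun k => ‖1 - inner ℂ (disc Φ (ex (th 20000 m a k))) z‖) ⟨0, Finset.mem_range.mpr (by omega)⟩
    rw [Finset.mem_range] at hk0
    have h1 := hm0 m hm a ha k0 hk0 (fun k => Q Φ t (th 20000 m a k) z)
      (fun k _ => hQ1 z hz k) (by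
        intro k hk
        rw [hinv]
        have h2 := hG1 _ _ z (hun k0) (hun k) hz
        have h3 := hmin k (Finset.mem_range.mpr hk)
        have h4 := hQ2 z hz k
        have h5 : ‖1 - inner ℂ (disc Φ (ex (th 20000 m a k0))) (disc Φ (ex (th 20000 m a k)))‖ / t^2
            ≤ 6 * (‖1 - inner ℂ (disc Φ (ex (th 20000 m a k))) z‖ / t^2) := by
          rw [← mul_div_assoc]
          apply div_le_div_of_nonneg_right _ (by positivity)
          linarith
        have h6 := hQ1 z hz k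
        linarith)
    have h7 := os_sum_le hk0 (fun k => Q Φ t (th 20000 m a k) z) (fun k _ => hQ1 z hz k) h1
    refine le_trans h7 ?_
    norm_num
  · intro z hz k0 hk0 h4
    have h1 := hm0 m hm a ha k0 hk0 (fun k => Q Φ t (th 20000 m a k) z)
      (fun k _ => hQ1 z hz k) (by
        intro k hk
        rw [hinv]
        have h2 := hG1 _ _ z (hun k0) (hun k) hz
        have h5 : ‖1 - inner ℂ (disc Φ (ex (th 20000 m a k0))) (disc Φ (ex (th 20000 m a k)))‖ / t^2
            ≤ 3 * (‖1 - inner ℂ (disc Φ (ex (th 20000 m a k0))) z‖ / t^2 +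
              ‖1 - inner ℂ (disc Φ (ex (th 20000 m a k))) z‖ / t^2) := by
          rw [← add_div, ← mul_div_assoc]
          exact div_le_div_of_nonneg_right h2 (by positivity)
        have h6 := hQ1 z hz k
        have h7 := hQ2 z hz k
        linarith)
    refine le_trans h1 ?_
    norm_num

theorem oneStep : TaskOneStep := by
  intro hNG hDisc hGeom hSum hOff hLow
  refine ⟨2 * 20000, 6, 1 / 16000, by norm_num, by norm_num, ?_⟩
  rintro φ ⟨Φ, Ψ, hg, rfl⟩ ρ hρ δ hδ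
  obtain ⟨hD1, hD2, hD3⟩ := hDisc
  obtain ⟨l, κ, hL⟩ := hg.lam
  have hl : 0 < l := hL.1
  have hd1 : ∀ ζ : ℂ, ‖ζ‖ = 1 → ‖disc Φ ζ‖ = 1 := (hD1 Φ Ψ hg).2.1
  obtain ⟨t0, ht0, hNG'⟩ := hNG Φ Ψ hg
  obtain ⟨m0, hm0⟩ := os_total hGeom hSum hg hL hd1
  obtain ⟨C', hC', n0, hn0⟩ := hOff Φ Ψ hg l κ hL
  obtain ⟨n1, hn1⟩ := hLow Φ Ψ hg l κ hL
  obtain ⟨hG1, hG2, hG3, hG4⟩ := hGeom
  -- choice of the scale
  obtain ⟨N1, hN1⟩ := os_tt_small hl ht0
  obtain ⟨N2, hN2⟩ := os_tt_small hl (show (0:ℝ) < 1/2 by norm_num)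
  obtain ⟨N3, hN3⟩ := os_tt_small hl (show (0:ℝ) < δ/2 by positivity)
  obtain ⟨N4, hN4⟩ := os_tt_small hl (show (0:ℝ) < δ * ρ^2/12 by positivity)
  obtain ⟨N5, hN5⟩ := os_tt_small hl (show (0:ℝ) < δ / (2 * C') by positivity)
  obtain ⟨m, hm⟩ : ∃ m : ℕ, m0 ≤ m ∧ n0 ≤ m ∧ n1 ≤ m ∧ N1 ≤ m ∧ N2 ≤ m ∧ N3 ≤ m ∧ N4 ≤ m ∧
      N5 ≤ m ∧ 1 ≤ m := by
    refine ⟨m0 + n0 + n1 + N1 + N2 + N3 + N4 + N5 + 1, ?_⟩
    refine ⟨?_, ?_, ?_, ?_, ?_, ?_, ?_, ?_, ?_⟩ <;> omega
  obtain ⟨hmm0, hmn0, hmn1, hmN1, hmN2, hmN3, hmN4, hmN5, hm1⟩ := hm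
  have hmle : m ≤ 20000 * m := by omega
  have htpos : 0 < tt l (20000 * m) := os_tt_pos hl (by omega)
  have htt0 : tt l (20000 * m) < t0 := hN1 _ (by omega)
  have hthalf : tt l (20000 * m) < 1/2 := hN2 _ (by omega)
  have htδ : tt l (20000 * m) < δ/2 := hN3 _ (by omega)
  have htρ : tt l (20000 * m) < δ * ρ^2/12 := hN4 _ (by omega)
  have htC : tt l (20000 * m) < δ / (2 * C') := hN5 _ (by omega)
  have hm0' := hm0 m hmm0 hm1 (by linarith)
  have hn0' := hn0 (20000 * m) (by omega)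
  have hn1' := hn1 (20000 * m) (by omega)
  generalize ht : tt l (20000 * m) = t at *
  have ht1 : t < 1 := by linarith
  have hng : Good (newΦ t (20000 * m) Φ Ψ) (newΨ t (20000 * m) Φ Ψ) :=
    hNG' t htpos htt0 (20000 * m) (by omega)
  have hnd1 : ∀ ζ : ℂ, ‖ζ‖ = 1 → ‖disc (newΦ t (20000 * m) Φ Ψ) ζ‖ = 1 := (hD1 _ _ hng).2.1
  have ht2 : t^2 ≤ t := by nlinarith
  refine ⟨disc (newΦ t (20000 * m) Φ Ψ), ⟨_, _, hng, rfl⟩, ?_, ?_⟩
  · intro ζ hζ
    have := hD2 Φ Ψ hg t htpos ht1 (20000 * m) ζ hζ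
    linarith
  · refine ⟨fun a z => ∑ k ∈ Finset.range m, G Φ Ψ t (20000 * m) (th 20000 m a k) z,
      1 - 2 * t^2, by nlinarith, by nlinarith, ?_, ?_⟩
    · intro a
      have ha : (a : ℕ) < 2 * 20000 := a.2
      have hbd : ∀ z : E, ‖z‖ ≤ 1 → ∀ A : ℝ, 0 < A →
          (∀ k < m, ‖G Φ Ψ t (20000 * m) (th 20000 m a k) z‖ ≤
            A * (1 / (Q Φ t (th 20000 m a k) z)^2)) →
          ‖∑ k ∈ Finset.range m, G Φ Ψ t (20000 * m) (th 20000 m a k) z‖ ≤ A * 2 := by
        intro z hz A hA h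
        calc ‖∑ k ∈ Finset.range m, G Φ Ψ t (20000 * m) (th 20000 m a k) z‖
            ≤ ∑ k ∈ Finset.range m, ‖G Φ Ψ t (20000 * m) (th 20000 m a k) z‖ := norm_sum_le _ _
          _ ≤ ∑ k ∈ Finset.range m, A * (1 / (Q Φ t (th 20000 m a k) z)^2) :=
              Finset.sum_le_sum fun k hk => h k (Finset.mem_range.mp hk)
          _ = A * ∑ k ∈ Finset.range m, 1 / (Q Φ t (th 20000 m a k) z)^2 := by
              rw [Finset.mul_sum]
          _ ≤ A * 2 := mul_le_mul_of_nonneg_left ((hm0' a ha).1 z hz) hA.le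
      refine ⟨?_, ?_, ?_, ?_, ?_⟩
      · exact continuousOn_finsetSum _ fun k _ => (hG4 Φ Ψ hg t htpos ht1 _ _).1
      · exact DifferentiableOn.fun_sum fun k _ => (hG4 Φ Ψ hg t htpos ht1 _ _).2
      · intro z hz
        rw [mem_closedBall_zero_iff] at hz
        refine le_trans (hbd z hz 3 (by norm_num) ?_) (by norm_num)
        intro k hk
        obtain ⟨h1, h2, h3⟩ := hG3 Φ Ψ hg t htpos ht1 (20000 * m) (th 20000 m a k) z hz
        exact le_trans h3 (os_cube_le h1)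
      · intro z hz hfar
        rw [mem_closedBall_zero_iff] at hz
        have hA : 0 < ρ^2 / (2 * t^2) := by positivity
        refine le_trans (hbd z hz (3 / (ρ^2 / (2 * t^2))) (by positivity) ?_) ?_
        · intro k hk
          obtain ⟨h1, h2, h3⟩ := hG3 Φ Ψ hg t htpos ht1 (20000 * m) (th 20000 m a k) z hz
          refine le_trans h3 (os_cube_far hA ?_)
          have h4 := hG2 (disc Φ (ex (th 20000 m a k))) z (hd1 _ (os_ex_norm _)) hz
          have h5 := hfar (ex (th 20000 m a k)) (os_ex_norm _)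
          refine le_trans ?_ h2
          rw [← div_div]
          apply div_le_div_of_nonneg_right _ (by positivity)
          have h6 : ρ^2 ≤ ‖z - disc Φ (ex (th 20000 m a k))‖^2 :=
            pow_le_pow_left₀ hρ.le h5 2
          linarith
        · have : 3 / (ρ^2 / (2 * t^2)) * 2 = 12 * t^2 / ρ^2 := by
            field_simp
            norm_num
          rw [this, div_le_iff₀ (by positivity)]
          have hρ2 : 0 < ρ^2 := by positivity
          nlinarith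
      · intro ζ hζ
        obtain ⟨θ, hθ, rfl⟩ := os_exists_angle ζ hζ
        have hz : ‖disc (newΦ t (20000 * m) Φ Ψ) (ex θ)‖ ≤ 1 := (hnd1 _ hζ).le
        refine le_trans (hbd _ hz (C' * t) (by positivity) ?_) ?_
        · intro k hk
          have h1 := hn0' (th 20000 m a k) (os_th_mem ha hk) θ hθ
          rw [mul_one_div]
          exact h1
        · rw [lt_div_iff₀ (by positivity)] at htC
          linarith
    · intro θ hθ
      -- the window containing θ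
      have hnpos : (0 : ℝ) < ((20000 * m : ℕ) : ℝ) := by
        have : 0 < 20000 * m := by omega
        exact_mod_cast this
      set n : ℕ := 20000 * m with hn
      set j : ℕ := ⌊2 * (n : ℝ) * θ⌋₊ with hj
      have h0 : 0 ≤ 2 * (n : ℝ) * θ := by
        have := hθ.1
        positivity
      have hj1 : (j : ℝ) ≤ 2 * (n : ℝ) * θ := Nat.floor_le h0
      have hj2 : 2 * (n : ℝ) * θ < j + 1 := Nat.lt_floor_add_one _
      have hj3 : j < 2 * n := by
        have : (j : ℝ) < 2 * n := by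
          have := hθ.2
          nlinarith
        exact_mod_cast this
      have ha : j % (2 * 20000) < 2 * 20000 := Nat.mod_lt _ (by norm_num)
      have hk0 : j / (2 * 20000) < m := by
        rw [Nat.div_lt_iff_lt_mul (by norm_num)]
        omega
      have hth : th 20000 m (j % (2 * 20000)) (j / (2 * 20000)) = (j : ℝ) / (2 * n) := by
        unfold th
        rw [Nat.mod_add_div]
        rw [hn]
        push_cast
        ring
      have hclose : |θ - th 20000 m (j % (2 * 20000)) (j / (2 * 20000))| ≤ 1 / (2 * n) := by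
        rw [hth]
        have h2n : (0 : ℝ) < 2 * n := by positivity
        rw [abs_of_nonneg]
        · rw [sub_le_iff_le_add, ← add_div, le_div_iff₀ h2n]
          linarith
        · rw [sub_nonneg, div_le_iff₀ h2n]
          linarith
      obtain ⟨hlow1, hlow2⟩ := hn1' _ _ hclose
      refine ⟨⟨j % (2 * 20000), ha⟩, ?_⟩
      have hz : ‖((1 - 2 * t^2 : ℝ) : ℂ) • disc (newΦ t n Φ Ψ) (ex θ)‖ ≤ 1 := by
        rw [norm_smul, hnd1 _ (os_ex_norm _), mul_one, Complex.norm_real, Real.norm_eq_abs,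
          abs_le]
        constructor <;> nlinarith
      have hrest := (hm0' _ ha).2 _ hz _ hk0 hlow2
      simp only [Fin.val_mk]
      rw [← Finset.add_sum_erase _ _ (Finset.mem_range.mpr hk0)]
      have hG3' := fun k => hG3 Φ Ψ hg t htpos ht1 n (th 20000 m (j % (2 * 20000)) k) _ hz
      have hlow1' : 1 / 8000 ≤ ‖G Φ Ψ t n (th 20000 m (j % (2 * 20000)) (j / (2 * 20000)))
            (((1 - 2 * t^2 : ℝ) : ℂ) • disc (newΦ t n Φ Ψ) (ex θ))‖ := hlow1
      generalize ((1 - 2 * t^2 : ℝ) : ℂ) • disc (newΦ t n Φ Ψ) (ex θ) = w at *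
      have hrest2 : ‖∑ k ∈ (Finset.range m).erase (j / (2 * 20000)),
          G Φ Ψ t n (th 20000 m (j % (2 * 20000)) k) w‖ ≤ 3 * (1 / 100000) := by
        refine le_trans (norm_sum_le _ _) ?_
        refine le_trans (Finset.sum_le_sum (fun k _ =>
          le_trans (hG3' k).2.2 (os_cube_le (hG3' k).1))) ?_
        rw [← Finset.mul_sum]
        exact mul_le_mul_of_nonneg_left hrest (by norm_num)
      have htri := norm_sub_le_norm_add
        (G Φ Ψ t n (th 20000 m (j % (2 * 20000)) (j / (2 * 20000))) w)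
        (∑ k ∈ (Finset.range m).erase (j / (2 * 20000)),
          G Φ Ψ t n (th 20000 m (j % (2 * 20000)) k) w)
      refine le_trans ?_ htri
      linarith

end Pool.Agent.H903RN
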