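import Pool.Agent.H903RN.Stmts

set_option autoImplicit false

open Metric MeasureTheory Filter Topology

namespace Pool.Agent.H903RN

theorem radial : TaskRadial := by
  intro hD K C c φ g R ρ H φi hnorm hclose a ζ hζ hLex
  obtain ⟨L, hL⟩ := hLex
  set η : E := φi ζ with hηdef
  have hη : ‖η‖ = 1 := hnorm ζ hζ
  have hanti : Antitone ρ := antitone_nat_of_succ_le (fun j => by
    have h1 := H.ρhalf j
    have h2 := H.ρpos j
    linarith)
  have hρle : ∀ j, ρ j ≤ (1/2 : ℝ)^(j+1) := by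
    intro j
    induction j with
    | zero => simpa using H.ρ0
    | succ j ih =>
      have h1 := H.ρhalf j
      rw [pow_succ]
      linarith
  have hρle' : ∀ j, ρ j ≤ 1/2 := fun j => le_trans (hanti (Nat.zero_le j)) H.ρ0
  have hφn : ∀ j (ζ' : ℂ), ‖ζ'‖ = 1 → ‖φ j ζ'‖ = 1 := by
    intro j ζ' h
    obtain ⟨Φ, Ψ, hG, hφ⟩ := H.good j
    rw [hφ]
    exact (hD.1 Φ Ψ hG).2.1 ζ' h
  have hnr : ∀ r : ℝ, 0 ≤ r → ‖(r : ℂ) • η‖ = r := by
    intro r hr
    rw [norm_smul, hη, mul_one, Complex.norm_real, Real.norm_of_nonneg hr]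
  have hball : ∀ r : ℝ, 0 ≤ r → r ≤ 1 → (r : ℂ) • η ∈ closedBall (0 : E) 1 := by
    intro r hr hr1
    rw [mem_closedBall_zero_iff, hnr r hr]
    exact hr1
  have hdiff : ∀ r : ℝ, r ≤ 1 → ‖(r : ℂ) • η - η‖ = 1 - r := by
    intro r hr
    have : (r : ℂ) • η - η = ((r - 1 : ℝ) : ℂ) • η := by
      push_cast
      rw [sub_smul, one_smul]
    rw [this, norm_smul, hη, mul_one, Complex.norm_real, Real.norm_eq_abs, abs_of_nonpos (by linarith)]
    ring
  have key : ∀ r : ℝ, 0 ≤ r → r ≤ 1 → ∀ i, (1 - r ≤ ρ (i+1) ∨ ρ i ≤ 1 - r) →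
      ‖g i a ((r : ℂ) • η)‖ ≤ 2 * (1/2 : ℝ)^i := by
    intro r hr hr1 i hi
    have hpos : (0 : ℝ) ≤ (1/2)^i := by positivity
    rcases hi with hi | hi
    · have hw : φ (i+1) ζ ∈ closedBall (0 : E) 1 := by
        rw [mem_closedBall_zero_iff, hφn _ _ hζ]
      have hdist : ‖(r : ℂ) • η - φ (i+1) ζ‖ ≤ 2 * ρ (i+1) := by
        have h1 : ‖η - φ (i+1) ζ‖ ≤ ρ (i+1) / 2 := hclose (i+1) ζ hζ.le
        have h2 : ‖(r : ℂ) • η - φ (i+1) ζ‖ ≤ ‖(r : ℂ) • η - η‖ + ‖η - φ (i+1) ζ‖ :=
          norm_sub_le_norm_sub_add_norm_sub _ _ _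
        rw [hdiff r hr1] at h2
        have h3 := H.ρpos (i+1)
        linarith
      have h1 := (H.unif i a _ (hball r hr hr1) _ hw hdist).1
      have h2 := H.curve i a ζ hζ
      have h3 : ‖g i a ((r : ℂ) • η)‖ ≤
          ‖g i a ((r : ℂ) • η) - g i a (φ (i+1) ζ)‖ + ‖g i a (φ (i+1) ζ)‖ := by
        have := norm_add_le (g i a ((r : ℂ) • η) - g i a (φ (i+1) ζ)) (g i a (φ (i+1) ζ))
        rwa [sub_add_cancel] at this
      linarith
    · have h1 : ‖g i a ((r : ℂ) • η)‖ ≤ (1/2 : ℝ)^i := by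
        apply H.far i a _ (hball r hr hr1)
        intro ζ' hζ'
        have h2 : ‖φ i ζ'‖ - ‖(r : ℂ) • η‖ ≤ ‖φ i ζ' - (r : ℂ) • η‖ := norm_sub_norm_le _ _
        rw [hφn _ _ hζ', hnr r hr, norm_sub_rev] at h2
        linarith
      linarith
  have hgsum : Summable (fun i : ℕ => 2 * (1/2 : ℝ)^i) :=
    (summable_geometric_of_lt_one (by norm_num) (by norm_num)).mul_left 2
  -- convergence of the two sequences of radii
  have hρ0 : Tendsto ρ atTop (𝓝 0) := by
    refine squeeze_zero (fun j => (H.ρpos j).le) hρle ?_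
    exact (tendsto_pow_atTop_nhds_zero_of_lt_one (by norm_num) (by norm_num)).comp
      (tendsto_add_atTop_nat 1)
  have hρ1 : Tendsto (fun j => ρ (j+1)) atTop (𝓝 0) := hρ0.comp (tendsto_add_atTop_nat 1)
  have hR'1 : Tendsto (fun j => 1 - ρ (j+1)) atTop (𝓝 1) := by
    simpa using (tendsto_const_nhds (x := (1:ℝ))).sub hρ1
  have hRlt : ∀ j, R j < 1 := fun j => by
    have h1 := H.R2 j
    have h2 := H.ρpos (j+1)
    linarith
  have hR1 : Tendsto R atTop (𝓝 1) := by
    refine tendsto_of_tendsto_of_tendsto_of_le_of_le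
      (g := fun j => 1 - ρ j) (h := fun _ => 1) ?_ tendsto_const_nhds
      (fun j => (H.R1 j).le) (fun j => (hRlt j).le)
    simpa using (tendsto_const_nhds (x := (1:ℝ))).sub hρ0
  have hR0 : ∀ j, 0 ≤ R j := fun j => by
    have h1 := H.R1 j
    have h2 := hρle' j
    linarith
  have hR'0 : ∀ j, 0 ≤ 1 - ρ (j+1) := fun j => by
    have h2 := hρle' (j+1)
    linarith
  have hR'le : ∀ j, 1 - ρ (j+1) ≤ 1 := fun j => by
    have h2 := H.ρpos (j+1)
    linarith
  -- pointwise convergence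
  have hpt : ∀ (r : ℕ → ℝ), (∀ j, 0 ≤ r j) → (∀ j, r j ≤ 1) → Tendsto r atTop (𝓝 1) →
      ∀ i, Tendsto (fun j => g i a ((r j : ℂ) • η)) atTop (𝓝 (g i a η)) := by
    intro r h0 h1 hr i
    have hc : ContinuousWithinAt (g i a) (closedBall 0 1) η :=
      H.cont i a η (by rw [mem_closedBall_zero_iff, hη])
    refine hc.tendsto.comp ?_
    rw [tendsto_nhdsWithin_iff]
    refine ⟨?_, Eventually.of_forall (fun j => hball _ (h0 j) (h1 j))⟩
    have : Tendsto (fun j => (r j : ℂ) • η) atTop (𝓝 (((1 : ℝ) : ℂ) • η)) :=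
      ((Complex.continuous_ofReal.tendsto 1).comp hr).smul_const η
    simpa using this
  -- claim 1
  have hF : Tendsto (fun j => ∑' i, g i a (((1 - ρ (j+1) : ℝ) : ℂ) • η)) atTop
      (𝓝 (∑' i, g i a η)) := by
    refine tendsto_tsum_of_dominated_convergence hgsum
      (hpt (fun j => 1 - ρ (j+1)) hR'0 hR'le hR'1) (Eventually.of_forall ?_)
    intro j i
    apply key _ (hR'0 j) (hR'le j)
    rcases le_or_gt i j with hij | hij
    · left
      have := hanti (show i + 1 ≤ j + 1 by omega)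
      linarith
    · right
      have := hanti (show j + 1 ≤ i by omega)
      linarith
  -- claim 2
  have hgood : ∀ j i, i ≠ j → ‖g i a ((R j : ℂ) • η)‖ ≤ 2 * (1/2 : ℝ)^i := by
    intro j i hij
    apply key _ (hR0 j) (hRlt j).le
    have h1 := H.R1 j
    have h2 := H.R2 j
    rcases lt_or_gt_of_ne hij with hij | hij
    · left
      have := hanti (show i + 1 ≤ j by omega)
      linarith
    · right
      have := hanti (show j + 1 ≤ i by omega)
      linarith
  have hF2 : Tendsto (fun j => ∑' i, (if i = j then 0 else g i a ((R j : ℂ) • η))) atTop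
      (𝓝 (∑' i, g i a η)) := by
    refine tendsto_tsum_of_dominated_convergence hgsum ?_ (Eventually.of_forall ?_)
    · intro i
      refine (hpt R hR0 (fun j => (hRlt j).le) hR1 i).congr' ?_
      filter_upwards [eventually_gt_atTop i] with j hj
      rw [if_neg (by omega)]
    · intro j i
      by_cases hij : i = j
      · rw [if_pos hij, norm_zero]; positivity
      · rw [if_neg hij]; exact hgood j i hij
  have hsm : ∀ j, Summable (fun i => g i a ((R j : ℂ) • η)) := by
    intro j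
    have hb : Summable (fun i : ℕ => 2 * (1/2 : ℝ)^i + (if i = j then C else 0)) := by
      refine hgsum.add ?_
      exact summable_of_ne_finset_zero (s := {j}) (fun i hi => by
        rw [if_neg (by simpa using hi)])
    refine Summable.of_norm_bounded hb ?_
    intro i
    by_cases hij : i = j
    · rw [if_pos hij]
      have h1 := H.bound i a _ (hball _ (hR0 j) (hRlt j).le)
      have h2 : (0:ℝ) ≤ 2 * (1/2)^i := by positivity
      linarith
    · rw [if_neg hij, add_zero]; exact hgood j i hij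
  -- limits along the radii
  have hLs : L = ∑' i, g i a η := by
    refine tendsto_nhds_unique (hL.comp ?_) hF
    rw [tendsto_nhdsWithin_iff]
    refine ⟨hR'1, Eventually.of_forall (fun j => ?_)⟩
    have := H.ρpos (j+1)
    simp only [Set.mem_Iio]
    linarith
  have hFR : Tendsto (fun j => ∑' i, g i a ((R j : ℂ) • η)) atTop (𝓝 L) := by
    refine hL.comp ?_
    rw [tendsto_nhdsWithin_iff]
    exact ⟨hR1, Eventually.of_forall (fun j => hRlt j)⟩
  have hfin := hFR.sub hF2
  rw [hLs, sub_self] at hfin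
  refine hfin.congr (fun j => ?_)
  rw [(hsm j).tsum_eq_add_tsum_ite j]
  ring

end Pool.Agent.H903RN
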