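import Pool.Agent.H903RN.Stmts

/-! T13: a disc with boundary in the sphere gives a representing measure. -/

set_option autoImplicit false

open Metric MeasureTheory Filter Topology

namespace Pool.Agent.H903RN

namespace RepAux

theorem ex_eq (θ : ℝ) : ex θ = circleMap 0 1 θ := by
  simp [ex, circleMap]

theorem norm_ex (θ : ℝ) : ‖ex θ‖ = 1 := by
  rw [ex, Complex.norm_exp_ofReal_mul_I]

theorem cont_ex : Continuous ex := by
  unfold ex
  fun_prop

end RepAux

open RepAux

theorem rep : TaskRep := by
  intro φ hc hd h1 h2 h0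
  set γ : ℝ → E := fun θ => φ (ex θ) with hγ
  have hγc : Continuous γ := by
    refine hc.comp_continuous cont_ex fun θ => ?_
    rw [mem_closedBall_zero_iff, norm_ex]
  set ν : Measure ℝ := volume.restrict (Set.Ioc 0 (2 * Real.pi)) with hν
  set c : ENNReal := ENNReal.ofReal ((2 * Real.pi)⁻¹) with hcdef
  have hctop : c ≠ ⊤ := ENNReal.ofReal_ne_top
  have hpi : (0 : ℝ) < (2 * Real.pi)⁻¹ := by positivity
  have hc0 : c ≠ 0 := by
    rw [hcdef, Ne, ENNReal.ofReal_eq_zero, not_le]
    exact hpi
  have hfin : IsFiniteMeasure (Measure.map γ ν) := by infer_instance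
  refine ⟨c • Measure.map γ ν, Measure.smul_finite _ hctop, ?_, ?_, ?_⟩
  · rw [Measure.smul_apply, Measure.map_apply hγc.measurable isClosed_sphere.measurableSet.compl]
    have : γ ⁻¹' (sphere (0 : E) 1)ᶜ = ∅ := by
      ext θ
      simp [hγ, h1 (ex θ) (norm_ex θ)]
    rw [this]
    simp
  · intro g hgc hgd
    have hae : AEStronglyMeasurable g (Measure.map γ ν) := by
      have h3 : (Measure.map γ ν).restrict (closedBall 0 1) = Measure.map γ ν := by
        apply Measure.restrict_eq_self_of_ae_mem
        refine (ae_map_iff hγc.measurable.aemeasurable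
          (p := fun x : E => x ∈ closedBall (0 : E) 1)
          isClosed_closedBall.measurableSet).2 (Eventually.of_forall fun θ => ?_)
        rw [mem_closedBall_zero_iff]
        exact (h1 (ex θ) (norm_ex θ)).le
      rw [← h3]
      exact hgc.aestronglyMeasurable isClosed_closedBall.measurableSet
    rw [integral_smul_measure, integral_map hγc.measurable.aemeasurable hae]
    have hD : DiffContOnCl ℂ (fun ζ => g (φ ζ)) (ball (0 : ℂ) |1|) := by
      rw [abs_one]
      refine ⟨?_, ?_⟩
      · refine hgd.comp hd ?_
        intro ζ hζ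
        rw [mem_ball_zero_iff] at hζ ⊢
        exact h2 ζ hζ
      · rw [closure_ball _ one_ne_zero]
        refine hgc.comp hc ?_
        intro ζ hζ
        rw [mem_closedBall_zero_iff] at hζ ⊢
        rcases hζ.lt_or_eq with h | h
        · exact (h2 ζ h).le
        · exact (h1 ζ h).le
    have hA := hD.circleAverage
    rw [Real.circleAverage_def] at hA
    simp only [h0] at hA
    rw [← hA, intervalIntegral.integral_of_le (by positivity)]
    rw [ENNReal.toReal_ofReal hpi.le]
    congr 1
    refine integral_congr_ae (Eventually.of_forall fun θ => ?_)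
    simp only [hγ, ex_eq]
  · intro S hS
    rw [Measure.smul_apply, smul_eq_mul, mul_eq_zero] at hS
    have hS' := hS.resolve_left hc0
    have h3 : ν (γ ⁻¹' S) = 0 :=
      le_antisymm ((Measure.le_map_apply hγc.measurable.aemeasurable S).trans hS'.le) zero_le
    rw [hν, Measure.restrict_apply₀'] at h3
    · refine measure_mono_null ?_ h3
      rintro θ ⟨hθ, hθ2⟩
      refine ⟨hθ2, hθ.1, ?_⟩
      have := Real.pi_gt_three
      linarith [hθ.2]
    · exact measurableSet_Ioc.nullMeasurableSet

end Pool.Agent.H903RN
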