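import Pool.Agent.H903RN.Stmts

set_option autoImplicit false

open Metric MeasureTheory Filter Topology

namespace Pool.Agent.H903RN.SeqT

open Pool.Agent.H903RN

def St : Type := {p : (ℂ → E) × ℝ // GoodDisc p.1 ∧ 0 < p.2 ∧ p.2 ≤ 1/2}

def P (K : ℕ) (C c : ℝ) (j : ℕ) (s s' : St) (g : Fin K → E → ℂ) (R : ℝ) : Prop :=
  s'.1.2 ≤ s.1.2 / 2 ∧
  (∀ ζ : ℂ, ‖ζ‖ ≤ 1 → ‖s'.1.1 ζ - s.1.1 ζ‖ ≤ s.1.2 / 4) ∧
  (∀ a, ContinuousOn (g a) (closedBall 0 1)) ∧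
  (∀ a, DifferentiableOn ℂ (g a) (ball 0 1)) ∧
  (∀ a, ∀ z ∈ closedBall (0 : E) 1, ‖g a z‖ ≤ C) ∧
  (∀ a, ∀ z ∈ closedBall (0 : E) 1, (∀ ζ : ℂ, ‖ζ‖ = 1 → s.1.2 ≤ ‖z - s.1.1 ζ‖) →
    ‖g a z‖ ≤ (1/2)^j) ∧
  (∀ a, ∀ ζ : ℂ, ‖ζ‖ = 1 → ‖g a (s'.1.1 ζ)‖ ≤ (1/2)^j) ∧
  (∀ a, ∀ z ∈ closedBall (0 : E) 1, ∀ w ∈ closedBall (0 : E) 1,
    ‖z - w‖ ≤ 2 * s'.1.2 → ‖g a z - g a w‖ ≤ (1/2)^j ∧ ‖g a z - g a w‖ ≤ c/2) ∧
  1 - s.1.2 < R ∧ R ≤ 1 - s'.1.2 ∧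
  (∀ θ ∈ Set.Ico (0:ℝ) 1, ∃ a, c ≤ ‖g a ((R : ℂ) • s'.1.1 (ex θ))‖)

lemma unifMod {K : ℕ} (g : Fin K → E → ℂ) (hg : ∀ a, ContinuousOn (g a) (closedBall 0 1))
    (ε : ℝ) (hε : 0 < ε) : ∃ η > 0, ∀ a, ∀ z ∈ closedBall (0 : E) 1, ∀ w ∈ closedBall (0 : E) 1,
      ‖z - w‖ < η → ‖g a z - g a w‖ ≤ ε := by
  have h1 : ∀ a, ∃ η > 0, ∀ z ∈ closedBall (0 : E) 1, ∀ w ∈ closedBall (0 : E) 1,
      ‖z - w‖ < η → ‖g a z - g a w‖ ≤ ε := by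
    intro a
    have hu : UniformContinuousOn (g a) (closedBall 0 1) :=
      (isCompact_closedBall (0 : E) 1).uniformContinuousOn_of_continuous (hg a)
    rw [Metric.uniformContinuousOn_iff] at hu
    obtain ⟨η, hη, h⟩ := hu ε hε
    refine ⟨η, hη, fun z hz w hw hzw => ?_⟩
    have := h z hz w hw (by rwa [dist_eq_norm])
    rw [dist_eq_norm] at this
    exact this.le
  choose η hη h using h1
  by_cases hK : Nonempty (Fin K)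
  · obtain ⟨a0, ha0⟩ := Finite.exists_min η
    refine ⟨η a0, hη a0, fun a z hz w hw hzw => h a z hz w hw (lt_of_lt_of_le hzw (ha0 a))⟩
  · exact ⟨1, one_pos, fun a => absurd ⟨a⟩ hK⟩

lemma step {K : ℕ} {C c : ℝ} (hc : 0 < c)
    (H : ∀ φ : ℂ → E, GoodDisc φ →
  ∀ ρ > 0, ∀ δ > 0, ∃ φ' : ℂ → E, GoodDisc φ' ∧ (∀ ζ : ℂ, ‖ζ‖ ≤ 1 → ‖φ' ζ - φ ζ‖ ≤ δ) ∧
  ∃ (g : Fin K → E → ℂ) (R : ℝ), 1 - δ < R ∧ R < 1 ∧
    (∀ a, ContinuousOn (g a) (closedBall 0 1) ∧ DifferentiableOn ℂ (g a) (ball 0 1) ∧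
      (∀ z ∈ closedBall (0 : E) 1, ‖g a z‖ ≤ C) ∧
      (∀ z ∈ closedBall (0 : E) 1, (∀ ζ : ℂ, ‖ζ‖ = 1 → ρ ≤ ‖z - φ ζ‖) → ‖g a z‖ ≤ δ) ∧
      (∀ ζ : ℂ, ‖ζ‖ = 1 → ‖g a (φ' ζ)‖ ≤ δ)) ∧
    ∀ θ ∈ Set.Ico (0:ℝ) 1, ∃ a, c ≤ ‖g a ((R : ℂ) • φ' (ex θ))‖)
    (j : ℕ) (s : St) : ∃ (s' : St) (g : Fin K → E → ℂ) (R : ℝ), P K C c j s s' g R := by
  obtain ⟨⟨φ, ρ⟩, hG, hρ, hρ2⟩ := s
  simp only at hG hρ hρ2
  have hpow : (0:ℝ) < (1/2)^j := by positivity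
  have hδ : 0 < min (ρ/4) ((1/2:ℝ)^j) := lt_min (by linarith) hpow
  obtain ⟨φ', hG', hcl, g, R, hR1, hR2, hg, hb⟩ := H φ hG ρ hρ _ hδ
  have hδ1 : min (ρ/4) ((1/2:ℝ)^j) ≤ ρ/4 := min_le_left _ _
  have hδ2 : min (ρ/4) ((1/2:ℝ)^j) ≤ (1/2:ℝ)^j := min_le_right _ _
  obtain ⟨η, hη, hu⟩ := unifMod g (fun a => (hg a).1) (min ((1/2:ℝ)^j) (c/2))
    (lt_min hpow (by linarith))
  set ρ' : ℝ := min (ρ/2) (min (1 - R) (η/4)) with hρ'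
  have hρ'pos : 0 < ρ' := lt_min (by linarith) (lt_min (by linarith) (by linarith))
  have h1 : ρ' ≤ ρ/2 := min_le_left _ _
  have h2 : ρ' ≤ 1 - R := (min_le_right _ _).trans (min_le_left _ _)
  have h3 : ρ' ≤ η/4 := (min_le_right _ _).trans (min_le_right _ _)
  refine ⟨⟨(φ', ρ'), hG', hρ'pos, by simp only; linarith⟩, g, R, ?_⟩
  refine ⟨h1, fun ζ hζ => (hcl ζ hζ).trans hδ1, fun a => (hg a).1, fun a => (hg a).2.1,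
    fun a => (hg a).2.2.1, fun a z hz hf => ((hg a).2.2.2.1 z hz hf).trans hδ2,
    fun a ζ hζ => ((hg a).2.2.2.2 ζ hζ).trans hδ2, ?_, ?_, ?_, hb⟩
  · intro a z hz w hw hzw
    have hzw' : ‖z - w‖ < η := by
      refine lt_of_le_of_lt hzw ?_
      show 2 * ρ' < η
      linarith
    have := hu a z hz w hw hzw'
    exact ⟨this.trans (min_le_left _ _), this.trans (min_le_right _ _)⟩
  · show 1 - ρ < R
    linarith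
  · show R ≤ 1 - ρ'
    linarith

theorem taskSeq : TaskSeq := by
  rintro ⟨K, C, c, hC, hc, H⟩ ⟨φ0, hφ0⟩
  choose f g R hP using step hc H
  let s : ℕ → St := fun j => Nat.rec ⟨(φ0, 1/2), hφ0, by norm_num, le_refl _⟩ (fun j s => f j s) j
  have hs : ∀ j, s (j+1) = f j (s j) := fun j => rfl
  have hPs : ∀ j, P K C c j (s j) (s (j+1)) (g j (s j)) (R j (s j)) := by
    intro j
    rw [hs]
    exact hP j (s j)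
  refine ⟨K, C, c, fun j => (s j).1.1, fun j => g j (s j), fun j => R j (s j),
    fun j => (s j).1.2, ?_⟩
  exact
    { hC := hC
      hc := hc
      good := fun j => (s j).2.1
      ρpos := fun j => (s j).2.2.1
      ρ0 := (s 0).2.2.2
      ρhalf := fun j => (hPs j).1
      close := fun j => (hPs j).2.1
      cont := fun j => (hPs j).2.2.1
      diff := fun j => (hPs j).2.2.2.1
      bound := fun j => (hPs j).2.2.2.2.1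
      far := fun j => (hPs j).2.2.2.2.2.1
      curve := fun j => (hPs j).2.2.2.2.2.2.1
      unif := fun j => (hPs j).2.2.2.2.2.2.2.1
      R1 := fun j => (hPs j).2.2.2.2.2.2.2.2.1
      R2 := fun j => (hPs j).2.2.2.2.2.2.2.2.2.1
      bump := fun j => (hPs j).2.2.2.2.2.2.2.2.2.2 }

end Pool.Agent.H903RN.SeqT

namespace Pool.Agent.H903RN

theorem taskSeq : TaskSeq := SeqT.taskSeq

end Pool.Agent.H903RN
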