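import Pool.Agent.H903RN.Stmts

set_option autoImplicit false

open Metric MeasureTheory Filter Topology

namespace Pool.Agent.H903RN

theorem sumW_sq_range (N : ℕ) :
    ∑ j ∈ Finset.range N, 1 / ((j : ℝ) + 1)^2 ≤ 2 - 2 / ((N : ℝ) + 1) := by
  induction N with
  | zero => norm_num
  | succ N ih =>
    rw [Finset.sum_range_succ]
    have hN : (0:ℝ) ≤ N := Nat.cast_nonneg N
    have h1 : 1 / ((N:ℝ) + 1)^2 ≤ 2 / ((N:ℝ) + 1) - 2 / ((N:ℝ) + 1 + 1) := by
      rw [div_sub_div _ _ (by positivity) (by positivity), div_le_div_iff₀ (by positivity) (by positivity)]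
      nlinarith [mul_nonneg hN hN, mul_nonneg hN (mul_nonneg hN hN)]
    push_cast
    linarith

theorem sumW_sq_range' (N : ℕ) :
    ∑ j ∈ Finset.range N, 1 / ((j : ℝ) + 1)^2 ≤ 2 := by
  have h := sumW_sq_range N
  have h2 : (0:ℝ) ≤ 2 / ((N : ℝ) + 1) := by positivity
  linarith

theorem sumW_sq_range'' (N : ℕ) :
    ∑ j ∈ Finset.range N, 1 / (j : ℝ)^2 ≤ 2 := by
  cases N with
  | zero => norm_num
  | succ N =>
    rw [Finset.sum_range_succ']
    have h := sumW_sq_range' N
    push_cast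
    simpa using h

theorem sumW_sq (m k0 : ℕ) (hk0 : k0 < m) :
    ∑ k ∈ Finset.range m, 1 / ((k : ℝ) - k0)^2 ≤ 4 := by
  rw [← Finset.sum_range_add_sum_Ico _ hk0.le]
  have h1 : ∑ k ∈ Finset.range k0, 1 / ((k : ℝ) - k0)^2 ≤ 2 := by
    rw [← Finset.sum_range_reflect]
    have : ∀ j ∈ Finset.range k0, 1 / (((k0 - 1 - j : ℕ) : ℝ) - k0)^2 = 1 / ((j : ℝ) + 1)^2 := by
      intro j hj
      rw [Finset.mem_range] at hj
      have : ((k0 - 1 - j : ℕ) : ℝ) = (k0 : ℝ) - 1 - j := by
        rw [Nat.cast_sub (by omega), Nat.cast_sub (by omega)]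
        simp
      rw [this]
      congr 1
      ring
    rw [Finset.sum_congr rfl this]
    exact sumW_sq_range' k0
  have h2 : ∑ k ∈ Finset.Ico k0 m, 1 / ((k : ℝ) - k0)^2 ≤ 2 := by
    rw [Finset.sum_Ico_eq_sum_range]
    have : ∀ j ∈ Finset.range (m - k0), 1 / (((k0 + j : ℕ) : ℝ) - k0)^2 = 1 / (j : ℝ)^2 := by
      intro j _
      push_cast
      congr 1
      ring
    rw [Finset.sum_congr rfl this]
    exact sumW_sq_range'' _
  linarith

theorem sumW : TaskTaylor → TaskInj → TaskSum := by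
  intro hT hI Φ Ψ hG l κ hL K hK
  obtain ⟨C1, hC1, hT'⟩ := hT Φ Ψ hG
  obtain ⟨C2, hC2, hI'⟩ := hI Φ Ψ hG
  obtain ⟨hl, hκ, hLam⟩ := hL
  refine ⟨⌈9 / 4 * (C1 * C2)^2⌉₊ + 1, ?_⟩
  intro m hm a ha k0 hk0 q hq1 hq
  have hmR : 9 / 4 * (C1 * C2)^2 ≤ (m : ℝ) := by
    have h1 := Nat.le_ceil (9 / 4 * (C1 * C2)^2)
    have h2 : ((⌈9 / 4 * (C1 * C2)^2⌉₊ + 1 : ℕ) : ℝ) ≤ (m : ℝ) := by exact_mod_cast hm
    push_cast at h2
    linarith
  have hm0 : 0 < m := by omega
  have hmpos : (0:ℝ) < m := by exact_mod_cast hm0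
  have hKpos : (0:ℝ) < K := by exact_mod_cast hK
  have hC1p : 0 < C1 := by linarith
  have hC2p : 0 < C2 := by linarith
  have hthx : ∀ k, th K m a k - th K m a k0 = ((k : ℝ) - k0) / m := by
    intro k
    unfold th
    push_cast
    field_simp
    ring
  have hth0 : ∀ k, 0 ≤ th K m a k := by
    intro k
    unfold th
    positivity
  have hth1 : ∀ k < m, th K m a k ≤ 1 := by
    intro k hk
    unfold th
    rw [div_le_one (by positivity)]
    have : a + 2 * K * k ≤ 2 * K * m := by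
      have : k + 1 ≤ m := hk
      calc a + 2 * K * k ≤ 2 * K + 2 * K * k := by omega
        _ = 2 * K * (k + 1) := by ring
        _ ≤ 2 * K * m := Nat.mul_le_mul_left _ this
    exact_mod_cast this
  have hexn : ∀ θ : ℝ, ‖ex θ‖ = 1 := by
    intro θ
    unfold ex
    exact Complex.norm_exp_ofReal_mul_I θ
  have key : ∀ k < m, k ≠ k0 → 1 / (q k)^2 ≤ 900 / (K:ℝ)^2 * (1 / ((k:ℝ) - k0)^2) +
      900 * (C1 * C2)^2 / ((K:ℝ)^2 * (m:ℝ)^2) := by
    intro k hk hkk
    have hqk := hq k hk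
    have hq1k := hq1 k hk
    set D := ‖1 - inner ℂ (disc Φ (ex (th K m a k0))) (disc Φ (ex (th K m a k)))‖ with hD
    have hne : ((k:ℝ) - k0) ≠ 0 := by
      intro h
      apply hkk
      have : (k:ℝ) = k0 := by linarith
      exact_mod_cast this
    have habs : 0 < |(k:ℝ) - k0| := abs_pos.mpr hne
    have hx := hthx k
    have hxabs : |th K m a k - th K m a k0| = |(k:ℝ) - k0| / m := by
      rw [hx, abs_div, abs_of_pos hmpos]
    have hT1 := (hT' (th K m a k0) (th K m a k)).1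
    have hI1 := hI' (th K m a k0) ⟨hth0 _, hth1 _ hk0⟩ (th K m a k)
      ⟨by linarith [hth0 k], by linarith [hth1 k hk]⟩
    rw [← hD] at hI1
    have hell := (hLam (ex (th K m a k0)) (hexn _)).1
    have hlow : l * |th K m a k - th K m a k0| - C1 * |th K m a k - th K m a k0|^2 ≤ D := by
      have hn : ‖Complex.I * (ell Φ (ex (th K m a k0)) : ℂ) *
          ((th K m a k - th K m a k0 : ℝ) : ℂ)‖ = |ell Φ (ex (th K m a k0))| *
            |th K m a k - th K m a k0| := by
        rw [norm_mul, norm_mul, Complex.norm_I, one_mul, Complex.norm_real, Complex.norm_real,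
          Real.norm_eq_abs, Real.norm_eq_abs]
      have htri : ‖Complex.I * (ell Φ (ex (th K m a k0)) : ℂ) *
          ((th K m a k - th K m a k0 : ℝ) : ℂ)‖ ≤ D +
          ‖inner ℂ (disc Φ (ex (th K m a k0))) (disc Φ (ex (th K m a k)))
            - (1 + Complex.I * (ell Φ (ex (th K m a k0)) : ℂ) *
              ((th K m a k - th K m a k0 : ℝ) : ℂ))‖ := by
        rw [hD]
        have := norm_add_le
          (1 - inner ℂ (disc Φ (ex (th K m a k0))) (disc Φ (ex (th K m a k))))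
          (inner ℂ (disc Φ (ex (th K m a k0))) (disc Φ (ex (th K m a k)))
            - (1 + Complex.I * (ell Φ (ex (th K m a k0)) : ℂ) *
              ((th K m a k - th K m a k0 : ℝ) : ℂ)))
        have h2 : (1 - inner ℂ (disc Φ (ex (th K m a k0))) (disc Φ (ex (th K m a k)))) +
          (inner ℂ (disc Φ (ex (th K m a k0))) (disc Φ (ex (th K m a k)))
            - (1 + Complex.I * (ell Φ (ex (th K m a k0)) : ℂ) *
              ((th K m a k - th K m a k0 : ℝ) : ℂ))) = - (Complex.I * (ell Φ (ex (th K m a k0)) : ℂ) *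
              ((th K m a k - th K m a k0 : ℝ) : ℂ)) := by ring
        rw [h2, norm_neg] at this
        exact this
      rw [hn] at htri
      have h3 : l * |th K m a k - th K m a k0| ≤
          |ell Φ (ex (th K m a k0))| * |th K m a k - th K m a k0| := by
        apply mul_le_mul_of_nonneg_right _ (abs_nonneg _)
        have := le_abs_self (ell Φ (ex (th K m a k0)))
        linarith
      linarith
    rw [hxabs] at hlow hI1
    set X := |(k:ℝ) - k0| with hX
    have hDn : 0 ≤ D := norm_nonneg _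
    have hqpos : 0 < q k := by linarith
    have hsq : ((k:ℝ) - k0)^2 = X^2 := by rw [hX, sq_abs]
    rw [hsq]
    have hA : 0 ≤ 900 / (K:ℝ)^2 * (1 / X^2) := by positivity
    have hB : 0 ≤ 900 * (C1 * C2)^2 / ((K:ℝ)^2 * (m:ℝ)^2) := by positivity
    have hKm : ((K * m : ℕ) : ℝ) = (K:ℝ) * m := by push_cast; ring
    rw [hKm] at hqk
    rcases le_or_gt (X / m) (l / (2 * C1)) with hc | hc
    · -- near
      have h1 : l / 2 * (X / m) ≤ D := by
        have h4 : C1 * (X / m)^2 ≤ l / 2 * (X / m) := by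
          have : C1 * (X / m) ≤ l / 2 := by
            rw [le_div_iff₀ (by positivity)] at hc
            linarith
          have hXm : 0 ≤ X / m := by positivity
          nlinarith
        linarith
      have h2 : (K:ℝ) * X / 30 ≤ q k := by
        have h5 : (K:ℝ) * m / l * (l / 2 * (X / m)) ≤ 15 * q k := by
          refine le_trans ?_ hqk
          apply mul_le_mul_of_nonneg_left h1
          positivity
        have h6 : (K:ℝ) * m / l * (l / 2 * (X / m)) = (K:ℝ) * X / 2 := by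
          field_simp
        rw [h6] at h5
        linarith
      have h3 : 1 / (q k)^2 ≤ 900 / (K:ℝ)^2 * (1 / X^2) := by
        have h7 : ((K:ℝ) * X / 30)^2 ≤ (q k)^2 := by
          apply pow_le_pow_left₀ (by positivity) h2
        have h8 : 1 / (q k)^2 ≤ 1 / ((K:ℝ) * X / 30)^2 := by
          apply one_div_le_one_div_of_le (by positivity) h7
        have h9 : 1 / ((K:ℝ) * X / 30)^2 = 900 / (K:ℝ)^2 * (1 / X^2) := by
          field_simp
          norm_num
        linarith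
      linarith
    · -- far
      have h1 : l / (2 * C1 * C2) ≤ D := by
        have h4 : l / (2 * C1) ≤ C2 * D := by linarith
        rw [div_le_iff₀ (by positivity)] at h4 ⊢
        nlinarith
      have h2 : (K:ℝ) * m / (30 * (C1 * C2)) ≤ q k := by
        have h5 : (K:ℝ) * m / l * (l / (2 * C1 * C2)) ≤ 15 * q k := by
          refine le_trans ?_ hqk
          apply mul_le_mul_of_nonneg_left h1
          positivity
        have h6 : (K:ℝ) * m / l * (l / (2 * C1 * C2)) = 15 * ((K:ℝ) * m / (30 * (C1 * C2))) := by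
          field_simp
          ring
        rw [h6] at h5
        linarith
      have h3 : 1 / (q k)^2 ≤ 900 * (C1 * C2)^2 / ((K:ℝ)^2 * (m:ℝ)^2) := by
        have h7 : ((K:ℝ) * m / (30 * (C1 * C2)))^2 ≤ (q k)^2 := by
          apply pow_le_pow_left₀ (by positivity) h2
        have h8 : 1 / (q k)^2 ≤ 1 / ((K:ℝ) * m / (30 * (C1 * C2)))^2 := by
          apply one_div_le_one_div_of_le (by positivity) h7
        have h9 : 1 / ((K:ℝ) * m / (30 * (C1 * C2)))^2
            = 900 * (C1 * C2)^2 / ((K:ℝ)^2 * (m:ℝ)^2) := by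
          field_simp
          norm_num
        linarith
      linarith
  have hsum : ∑ k ∈ (Finset.range m).erase k0, 1 / (q k)^2 ≤
      ∑ k ∈ (Finset.range m).erase k0, (900 / (K:ℝ)^2 * (1 / ((k:ℝ) - k0)^2) +
      900 * (C1 * C2)^2 / ((K:ℝ)^2 * (m:ℝ)^2)) := by
    apply Finset.sum_le_sum
    intro k hk
    rw [Finset.mem_erase, Finset.mem_range] at hk
    exact key k hk.2 hk.1
  have hsum2 : ∑ k ∈ (Finset.range m).erase k0, (900 / (K:ℝ)^2 * (1 / ((k:ℝ) - k0)^2) +
      900 * (C1 * C2)^2 / ((K:ℝ)^2 * (m:ℝ)^2)) ≤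
      ∑ k ∈ Finset.range m, (900 / (K:ℝ)^2 * (1 / ((k:ℝ) - k0)^2) +
      900 * (C1 * C2)^2 / ((K:ℝ)^2 * (m:ℝ)^2)) := by
    apply Finset.sum_le_sum_of_subset_of_nonneg (Finset.erase_subset _ _)
    intro k _ _
    positivity
  have hsum3 : ∑ k ∈ Finset.range m, (900 / (K:ℝ)^2 * (1 / ((k:ℝ) - k0)^2) +
      900 * (C1 * C2)^2 / ((K:ℝ)^2 * (m:ℝ)^2)) ≤ 900 / (K:ℝ)^2 * 4 + 400 / (K:ℝ)^2 := by
    rw [Finset.sum_add_distrib, ← Finset.mul_sum, Finset.sum_const, Finset.card_range,
      nsmul_eq_mul]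
    have h1 : 900 / (K:ℝ)^2 * ∑ k ∈ Finset.range m, 1 / ((k:ℝ) - k0)^2 ≤ 900 / (K:ℝ)^2 * 4 :=
      mul_le_mul_of_nonneg_left (sumW_sq m k0 hk0) (by positivity)
    have h2 : (m:ℝ) * (900 * (C1 * C2)^2 / ((K:ℝ)^2 * (m:ℝ)^2)) ≤ 400 / (K:ℝ)^2 := by
      have h3 : (m:ℝ) * (900 * (C1 * C2)^2 / ((K:ℝ)^2 * (m:ℝ)^2)) =
          900 * (C1 * C2)^2 / ((K:ℝ)^2 * (m:ℝ)) := by
        field_simp
      rw [h3, div_le_div_iff₀ (by positivity) (by positivity)]
      have h4 : 900 * (C1 * C2)^2 ≤ 400 * (m:ℝ) := by linarith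
      have h5 : 0 ≤ (K:ℝ)^2 := by positivity
      nlinarith
    linarith
  have hfin : 900 / (K:ℝ)^2 * 4 + 400 / (K:ℝ)^2 = 4000 / (K:ℝ)^2 := by
    field_simp
    norm_num
  linarith

end Pool.Agent.H903RN
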