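import Pool.Agent.H903RN.Stmts

set_option autoImplicit false

open Metric MeasureTheory Filter Topology

namespace Pool.Agent.H903RN

namespace Tay

theorem hasDerivAt_ex (θ : ℝ) : HasDerivAt ex (Complex.I * ex θ) θ := by
  unfold ex
  have h1 : HasDerivAt (fun t : ℝ => ((t : ℂ) * Complex.I)) (1 * Complex.I) θ :=
    (Complex.ofRealCLM.hasDerivAt (x := θ)).mul_const _
  have h2 := h1.cexp
  convert h2 using 1
  ring

theorem norm_ex (θ : ℝ) : ‖ex θ‖ = 1 := by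
  unfold ex
  exact Complex.norm_exp_ofReal_mul_I θ

section gen
variable {V : Type} [NormedAddCommGroup V] [NormedSpace ℂ V] [CompleteSpace V]

/-- derivative operator -/
noncomputable def dd (F : ℂ → V) (ζ : ℂ) : V := (Complex.I * ζ) • deriv F ζ

theorem dd_diff {F : ℂ → V} (hF : Differentiable ℂ F) : Differentiable ℂ (dd F) := by
  unfold dd
  have h1 : Differentiable ℂ (deriv F) := hF.deriv
  exact ((differentiable_const _).mul differentiable_id).smul h1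

theorem hasDerivAt_comp {F : ℂ → V} (hF : Differentiable ℂ F) (θ : ℝ) :
    HasDerivAt (fun t => F (ex t)) (dd F (ex θ)) θ := by
  unfold dd
  exact HasDerivAt.scomp θ (hF (ex θ)).hasDerivAt (hasDerivAt_ex θ)

theorem bound_circle {F : ℂ → V} (hF : Differentiable ℂ F) :
    ∃ C : ℝ, 0 ≤ C ∧ ∀ θ : ℝ, ‖F (ex θ)‖ ≤ C := by
  obtain ⟨C, hC⟩ := (isCompact_sphere (0 : ℂ) 1).exists_bound_of_continuousOn
    (hF.continuous.continuousOn)
  refine ⟨max C 0, le_max_right _ _, fun θ => (hC _ ?_).trans (le_max_left _ _)⟩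
  simp [norm_ex]

theorem lip {F : ℂ → V} (hF : Differentiable ℂ F) :
    ∃ C : ℝ, 0 ≤ C ∧ ∀ θ' θ : ℝ, ‖F (ex θ) - F (ex θ')‖ ≤ C * |θ - θ'| := by
  obtain ⟨C, hC0, hC⟩ := bound_circle (dd_diff hF)
  refine ⟨C, hC0, fun θ' θ => ?_⟩
  have := (convex_univ (𝕜 := ℝ) (E := ℝ)).norm_image_sub_le_of_norm_hasDerivWithin_le
    (f := fun t => F (ex t)) (f' := fun t => dd F (ex t)) (C := C) (x := θ') (y := θ)
    (fun x _ => (hasDerivAt_comp hF x).hasDerivWithinAt) (fun x _ => hC x) trivial trivial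
  simpa using this

theorem second {F : ℂ → V} (hF : Differentiable ℂ F) :
    ∃ C : ℝ, 0 ≤ C ∧ ∀ θ' θ : ℝ,
      ‖F (ex θ) - F (ex θ') - ((θ - θ' : ℝ) : ℂ) • dd F (ex θ')‖ ≤ C * |θ - θ'|^2 := by
  obtain ⟨C, hC0, hC⟩ := lip (dd_diff hF)
  refine ⟨C, hC0, fun θ' θ => ?_⟩
  have hd : ∀ x : ℝ, HasDerivAt (fun t : ℝ => F (ex t) - ((t : ℝ) : ℂ) • dd F (ex θ'))
      (dd F (ex x) - dd F (ex θ')) x := by
    intro x
    have h1 : HasDerivAt (fun t : ℝ => ((t : ℝ) : ℂ) • dd F (ex θ'))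
        ((1 : ℂ) • dd F (ex θ')) x :=
      (Complex.ofRealCLM.hasDerivAt (x := x)).smul_const _
    rw [one_smul] at h1
    exact (hasDerivAt_comp hF x).sub h1
  have h2 := (convex_uIcc θ' θ).norm_image_sub_le_of_norm_hasDerivWithin_le
    (f := fun t : ℝ => F (ex t) - ((t : ℝ) : ℂ) • dd F (ex θ'))
    (f' := fun t => dd F (ex t) - dd F (ex θ')) (C := C * |θ - θ'|) (x := θ') (y := θ)
    (fun x _ => (hd x).hasDerivWithinAt) (fun x hx => ?_) Set.left_mem_uIcc Set.right_mem_uIcc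
  · rw [Real.norm_eq_abs] at h2
    calc _ = ‖F (ex θ) - ((θ : ℝ) : ℂ) • dd F (ex θ') -
          (F (ex θ') - ((θ' : ℝ) : ℂ) • dd F (ex θ'))‖ := by
          congr 1
          push_cast
          rw [sub_smul]
          abel
      _ ≤ C * |θ - θ'| * |θ - θ'| := h2
      _ = _ := by ring
  · refine (hC θ' x).trans (mul_le_mul_of_nonneg_left ?_ hC0)
    exact Set.abs_sub_left_of_mem_uIcc hx
end gen

theorem ell_eq {Φ : ℂ → E} (hd : Differentiable ℂ Φ) (hn : ∀ ζ : ℂ, ‖ζ‖ = 1 → ‖Φ ζ‖ = 1)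
    (θ : ℝ) : inner ℂ (Φ (ex θ)) (dd Φ (ex θ)) =
      Complex.I * ((inner ℂ (Φ (ex θ)) (ex θ • deriv Φ (ex θ))).re : ℂ) := by
  have h1 := hasDerivAt_comp hd θ
  have h2 := h1.inner ℂ h1
  have h3 : (fun t : ℝ => inner ℂ (Φ (ex t)) (Φ (ex t))) = fun _ => (1 : ℂ) := by
    funext t
    rw [inner_self_eq_norm_sq_to_K, hn _ (norm_ex t)]
    simp
  have h4 : HasDerivAt (fun t : ℝ => inner ℂ (Φ (ex t)) (Φ (ex t))) (0 : ℂ) θ := by
    rw [h3]; exact hasDerivAt_const _ _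
  have h5 := h2.unique h4
  have h6 : dd Φ (ex θ) = Complex.I • (ex θ • deriv Φ (ex θ)) := by
    unfold dd
    rw [mul_smul]
  set w := inner ℂ (Φ (ex θ)) (ex θ • deriv Φ (ex θ)) with hw
  have h7 : inner ℂ (Φ (ex θ)) (dd Φ (ex θ)) = Complex.I * w := by
    rw [h6, inner_smul_right]
  have h8 : inner ℂ (dd Φ (ex θ)) (Φ (ex θ)) = starRingEnd ℂ (Complex.I * w) := by
    rw [← h7, inner_conj_symm]
  rw [h7, h8] at h5
  have h9 := congrArg Complex.re h5
  simp at h9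
  rw [h7]
  congr 1
  apply Complex.ext
  · simp
  · simp; linarith

theorem norm_inner_le_of_one {a b : E} (ha : ‖a‖ = 1) : ‖inner ℂ a b‖ ≤ ‖b‖ := by
  have := norm_inner_le_norm (𝕜 := ℂ) a b
  rwa [ha, one_mul] at this

theorem inner_self_one {a : E} (ha : ‖a‖ = 1) : inner ℂ a a = 1 := by
  rw [inner_self_eq_norm_sq_to_K, ha]
  simp

theorem norm_e0 : ‖e0‖ = 1 := by
  unfold e0
  simp

end Tay

open Tay in
theorem taylor : TaskTaylor := by
  intro Φ Ψ hg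
  obtain ⟨C1, h10, hC1⟩ := second hg.dΦ
  obtain ⟨C2, h20, hC2⟩ := lip hg.dΦ
  obtain ⟨C3, h30, hC3⟩ := lip hg.dΨ
  obtain ⟨C4, h40, hC4⟩ := second (F := fun ζ : ℂ => ζ) differentiable_id
  refine ⟨1 + C1 + C2 + C3 + C4, by linarith, fun θ' θ => ?_⟩
  have hΦ' := hg.nΦ _ (norm_ex θ')
  have hΨ' := hg.nΨ _ (norm_ex θ')
  have hor := hg.orth _ (norm_ex θ')
  have hor' : inner ℂ (Ψ (ex θ')) (Φ (ex θ')) = 0 := by
    rw [← inner_conj_symm, hor, map_zero]
  have hab := abs_nonneg (θ - θ')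
  have hab2 := sq_nonneg |θ - θ'|
  refine ⟨?_, ?_, ?_, ?_, ?_⟩
  · have e1 : inner ℂ (disc Φ (ex θ')) (disc Φ (ex θ)) =
        9/25 * (starRingEnd ℂ (ex θ') * ex θ) + 16/25 * inner ℂ (Φ (ex θ')) (Φ (ex θ)) := by
      unfold disc
      have a1 : inner ℂ (Φ (ex θ')) e0 = 0 := by
        rw [← inner_conj_symm, hg.eΦ, map_zero]
      rw [inner_add_left, inner_add_right, inner_add_right, inner_smul_left, inner_smul_left,
        inner_smul_right, inner_smul_right, inner_smul_left, inner_smul_left, inner_smul_right,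
        inner_smul_right, hg.eΦ, a1, inner_self_one norm_e0]
      simp only [map_mul, map_div₀, map_ofNat]
      ring
    have e2 : starRingEnd ℂ (ex θ') * ex θ' = 1 := by
      rw [← Complex.normSq_eq_conj_mul_self, Complex.normSq_eq_norm_sq, norm_ex]
      simp
    have e3 := ell_eq hg.dΦ hg.nΦ θ'
    set w : ℝ := (inner ℂ (Φ (ex θ')) (ex θ' • deriv Φ (ex θ'))).re with hw
    have e4 : ell Φ (ex θ') = 9/25 + 16/25 * w := rfl
    have e5 : dd (fun ζ : ℂ => ζ) (ex θ') = Complex.I * ex θ' := by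
      unfold dd
      simp
    have e6 : inner ℂ (Φ (ex θ')) (Φ (ex θ) - Φ (ex θ') - ((θ - θ' : ℝ) : ℂ) • dd Φ (ex θ')) =
        inner ℂ (Φ (ex θ')) (Φ (ex θ)) - 1 - ((θ - θ' : ℝ) : ℂ) * (Complex.I * (w : ℂ)) := by
      rw [inner_sub_right, inner_sub_right, inner_smul_right, e3, inner_self_one hΦ']
    have e7 : inner ℂ (disc Φ (ex θ')) (disc Φ (ex θ))
      - (1 + Complex.I * (ell Φ (ex θ') : ℂ) * ((θ - θ' : ℝ) : ℂ)) =
        9/25 * (starRingEnd ℂ (ex θ') * (ex θ - ex θ' -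
          ((θ - θ' : ℝ) : ℂ) • dd (fun ζ : ℂ => ζ) (ex θ'))) +
        16/25 * inner ℂ (Φ (ex θ')) (Φ (ex θ) - Φ (ex θ') -
          ((θ - θ' : ℝ) : ℂ) • dd Φ (ex θ')) := by
      rw [e6, e1, e4, e5, smul_eq_mul]
      push_cast
      linear_combination (9/25 * ((1 : ℂ) + (θ - θ') * Complex.I)) * e2
    rw [e7]
    have n1 : ‖starRingEnd ℂ (ex θ')‖ = 1 := by rw [RCLike.norm_conj, norm_ex]
    have b1 := hC4 θ' θ
    have b2 := (norm_inner_le_of_one (b := Φ (ex θ) - Φ (ex θ') -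
          ((θ - θ' : ℝ) : ℂ) • dd Φ (ex θ')) hΦ').trans (hC1 θ' θ)
    refine (norm_add_le _ _).trans ?_
    rw [norm_mul, norm_mul, norm_mul, n1, one_mul]
    have n2 : ‖(9/25 : ℂ)‖ = 9/25 := by
      rw [show (9/25 : ℂ) = ((9/25 : ℝ) : ℂ) by push_cast; ring, Complex.norm_real]
      norm_num
    have n3 : ‖(16/25 : ℂ)‖ = 16/25 := by
      rw [show (16/25 : ℂ) = ((16/25 : ℝ) : ℂ) by push_cast; ring, Complex.norm_real]
      norm_num
    rw [n2, n3]
    have p1 := mul_nonneg h20 hab2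
    have p2 := mul_nonneg h30 hab2
    have p3 := mul_nonneg h10 hab2
    have p4 := mul_nonneg h40 hab2
    nlinarith
  · have e : inner ℂ (Ψ (ex θ')) (Φ (ex θ)) = inner ℂ (Ψ (ex θ')) (Φ (ex θ) - Φ (ex θ')) := by
      rw [inner_sub_right, hor', sub_zero]
    rw [e]
    refine (norm_inner_le_of_one hΨ').trans ((hC2 θ' θ).trans ?_)
    exact mul_le_mul_of_nonneg_right (by linarith) hab
  · have e : inner ℂ (Φ (ex θ')) (Ψ (ex θ)) = inner ℂ (Φ (ex θ')) (Ψ (ex θ) - Ψ (ex θ')) := by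
      rw [inner_sub_right, hor, sub_zero]
    rw [e]
    refine (norm_inner_le_of_one hΦ').trans ((hC3 θ' θ).trans ?_)
    exact mul_le_mul_of_nonneg_right (by linarith) hab
  · have e : inner ℂ (Ψ (ex θ')) (Ψ (ex θ)) - 1 = inner ℂ (Ψ (ex θ')) (Ψ (ex θ) - Ψ (ex θ')) := by
      rw [inner_sub_right, inner_self_one hΨ']
    rw [e]
    refine (norm_inner_le_of_one hΨ').trans ((hC3 θ' θ).trans ?_)
    exact mul_le_mul_of_nonneg_right (by linarith) hab
  · have e : inner ℂ (Φ (ex θ')) (Φ (ex θ)) - 1 = inner ℂ (Φ (ex θ')) (Φ (ex θ) - Φ (ex θ')) := by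
      rw [inner_sub_right, inner_self_one hΦ']
    rw [e]
    refine (norm_inner_le_of_one hΦ').trans ((hC2 θ' θ).trans ?_)
    exact mul_le_mul_of_nonneg_right (by linarith) hab

end Pool.Agent.H903RN
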